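import Mathlib
import Pool.Graph.R_seed8.Y715.T.Cub

/-!
# The number of the zeros of a diagonal cubic form over a finite field
-/

set_option autoImplicit false
set_option linter.unusedSectionVars false

namespace Pool.Agent.H451.BB

open Pool.Agent.Y692.QS hiding chi
open Pool.Agent.Y715.T.Cub
open scoped Classical

section fld

variable {k : Type} [Field k] [Fintype k] {z : k} (hz : z * z = -1 - z) (h3 : (3 : k) ≠ 0)

/-- the cubic character with complex values -/
noncomputable def X (hz : z * z = -1 - z) (h3 : (3 : k) ≠ 0) : MulChar k ℂ :=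
  (chi hz h3).ringHomComp toC

lemma X_apply (t : k) : X hz h3 t = toC (chi hz h3 t) := rfl

lemma X_cube {t : k} (ht : t ≠ 0) : X hz h3 t ^ 3 = 1 := by
  rw [X_apply, ← map_pow, chi_cube hz h3 ht, map_one]

lemma X_three : X hz h3 ^ 3 = 1 := by
  refine MulChar.ext fun t => ?_
  rw [MulChar.pow_apply_coe, X_cube hz h3 t.ne_zero, MulChar.one_apply_coe]

lemma X_inv : (X hz h3)⁻¹ = X hz h3 ^ 2 := by
  rw [inv_eq_iff_mul_eq_one, ← pow_succ', X_three]

lemma X_ne : X hz h3 ≠ 1 :=
  comp_ne_one hz h3 toC fun _ _ _ _ h => toC_inj h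

lemma X_inv_ne : (X hz h3)⁻¹ ≠ 1 := by
  intro h
  exact X_ne hz h3 (inv_eq_one.1 h)

lemma X_neg_one : X hz h3 (-1) = 1 := by
  rw [X_apply, Pool.Agent.Y715.T.Cub.chi_neg_one, map_one]

include hz h3 in
/-- the cubes -/
lemma cube_of {y : k} (hy : y ≠ 0) (h : y ^ ((Fintype.card k - 1) / 3) = 1) : ∃ t, t ^ 3 = y := by
  obtain ⟨g, hg⟩ := (inferInstance : IsCyclic kˣ).exists_generator
  have ho : orderOf g = Fintype.card k - 1 := by
    rw [orderOf_eq_card_of_forall_mem_zpowers hg, Nat.card_eq_fintype_card, Fintype.card_units]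
  obtain ⟨n, hn⟩ := Subgroup.mem_zpowers_iff.1 (hg (Units.mk0 y hy))
  have h1 : (Units.mk0 y hy) ^ ((Fintype.card k - 1) / 3) = 1 := by
    apply Units.ext
    rw [Units.val_pow_eq_pow_val, Units.val_mk0, h, Units.val_one]
  rw [← hn, ← zpow_natCast, ← zpow_mul] at h1
  have h2 := orderOf_dvd_iff_zpow_eq_one.2 h1
  rw [ho] at h2
  obtain ⟨d, hd⟩ := card_mod hz h3
  have hd0 : 0 < d := by
    have := third_pos hz h3
    rw [hd, Nat.mul_div_cancel_left _ (by norm_num)] at this
    exact this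
  rw [hd, Nat.mul_div_cancel_left _ (by norm_num)] at h2
  push_cast at h2
  have h4 : (3 : ℤ) ∣ n := by
    have h5 : (3 : ℤ) * d ∣ n * d := h2
    exact Int.dvd_of_mul_dvd_mul_right (by exact_mod_cast hd0.ne') h5
  obtain ⟨l, rfl⟩ := h4
  refine ⟨((g ^ l : kˣ) : k), ?_⟩
  have h6 : (g ^ l) ^ 3 = Units.mk0 y hy := by
    rw [← hn, ← zpow_natCast, ← zpow_mul]
    congr 1
    push_cast
    ring
  have h7 := congrArg Units.val h6
  rwa [Units.val_pow_eq_pow_val, Units.val_mk0] at h7

lemma chi_eq_one_iff {y : k} (hy : y ≠ 0) : X hz h3 y = 1 ↔ ∃ t, t ^ 3 = y := by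
  constructor
  · intro h
    apply cube_of hz h3 hy
    have h1 : chi hz h3 y = 1 := toC_inj (by rw [← X_apply, h, map_one])
    rw [← chi_red hz h3, h1, map_one]
  · rintro ⟨t, rfl⟩
    have ht : t ≠ 0 := by
      rintro rfl
      exact hy (by ring)
    rw [X_apply, chi_of_cube hz h3 ht, map_one]

/-- the number of the cube roots -/
lemma nroots (y : k) : ((Finset.univ.filter fun x : k => x ^ 3 = y).card : ℂ) =
    1 + X hz h3 y + (X hz h3)⁻¹ y := by
  by_cases hy : y = 0
  · subst hy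
    have e : (Finset.univ.filter fun x : k => x ^ 3 = 0) = {0} := by
      ext x
      simp
    rw [e, Finset.card_singleton, MulChar.map_zero, MulChar.map_zero]
    simp
  · have h2 : (X hz h3)⁻¹ y = X hz h3 y ^ 2 := by
      rw [X_inv, MulChar.pow_apply' _ two_ne_zero]
    rw [h2]
    by_cases h : ∃ t, t ^ 3 = y
    · rw [(chi_eq_one_iff hz h3 hy).2 h]
      obtain ⟨t, rfl⟩ := h
      have ht : t ≠ 0 := by
        rintro rfl
        exact hy (by ring)
      obtain ⟨n1, n2, n3⟩ := z_ne hz h3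
      have hc := z_cube hz
      have e : (Finset.univ.filter fun x : k => x ^ 3 = t ^ 3) = {t, z * t, z ^ 2 * t} := by
        ext x
        simp only [Finset.mem_filter, Finset.mem_univ, true_and, Finset.mem_insert,
          Finset.mem_singleton]
        constructor
        · intro hx
          have h4 : (x / t) ^ 3 = 1 := by
            rw [div_pow, hx, div_self (pow_ne_zero 3 ht)]
          rcases root_cases hz h4 with h5 | h5 | h5
          · left
            rwa [div_eq_one_iff_eq ht] at h5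
          · right; left
            rwa [div_eq_iff ht] at h5
          · right; right
            rwa [div_eq_iff ht] at h5
        · rintro (rfl | rfl | rfl)
          · rfl
          · rw [mul_pow, hc, one_mul]
          · rw [mul_pow, ← pow_mul, mul_comm 2 3, pow_mul, hc, one_pow, one_mul]
      have hz0 : z ≠ 0 := by
        rintro rfl
        rw [zero_pow (by norm_num)] at hc
        exact zero_ne_one hc
      rw [e, Finset.card_insert_of_notMem, Finset.card_insert_of_notMem, Finset.card_singleton]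
      · push_cast
        ring
      · rw [Finset.mem_singleton]
        intro h5
        exact n3 (mul_right_cancel₀ ht h5).symm
      · rw [Finset.mem_insert, Finset.mem_singleton]
        rintro (h5 | h5)
        · exact n1 (mul_right_cancel₀ ht (by rw [one_mul]; exact h5)).symm
        · exact n2 (mul_right_cancel₀ ht (by rw [one_mul]; exact h5)).symm
    · have e : (Finset.univ.filter fun x : k => x ^ 3 = y) = ∅ := by
        rw [Finset.filter_eq_empty_iff]
        intro x _ hx
        exact h ⟨x, hx⟩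
      rw [e, Finset.card_empty]
      have h4 : X hz h3 y ≠ 1 := fun h5 => h ((chi_eq_one_iff hz h3 hy).1 h5)
      have h5 := X_cube hz h3 hy
      have h6 : (X hz h3 y - 1) * (1 + X hz h3 y + X hz h3 y ^ 2) = 0 := by
        linear_combination h5
      rw [(mul_eq_zero.1 h6).resolve_left (sub_ne_zero.2 h4)]
      push_cast
      rfl

/-- the two characters -/
noncomputable def Y (hz : z * z = -1 - z) (h3 : (3 : k) ≠ 0) (b : Bool) : MulChar k ℂ :=
  if b then X hz h3 else (X hz h3)⁻¹

variable {ψ : AddChar k ℂ} (hψ : ψ.IsPrimitive)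

include hψ in
/-- the sum over the cubes -/
lemma cube_sum {c : k} (hc : c ≠ 0) : ∑ x : k, ψ (c * x ^ 3) =
    ∑ b : Bool, (Y hz h3 b)⁻¹ c * gaussSum (Y hz h3 b) ψ := by
  have h1 : ∑ x : k, ψ (c * x ^ 3) =
      ∑ y : k, (1 + X hz h3 y + (X hz h3)⁻¹ y) * ψ (c * y) := by
    have h2 : ∀ y : k, (1 + X hz h3 y + (X hz h3)⁻¹ y) * ψ (c * y) =
        ∑ x ∈ Finset.univ.filter (fun x : k => x ^ 3 = y), ψ (c * x ^ 3) := by
      intro y
      rw [← nroots hz h3, ← nsmul_eq_mul, ← Finset.sum_const]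
      refine Finset.sum_congr rfl fun x hx => ?_
      rw [(Finset.mem_filter.1 hx).2]
    rw [Finset.sum_congr rfl fun y _ => h2 y]
    exact (Finset.sum_fiberwise Finset.univ (fun x : k => x ^ 3) (fun x => ψ (c * x ^ 3))).symm
  have hu : IsUnit c := isUnit_iff_ne_zero.2 hc
  have h4 : ∀ χ : MulChar k ℂ, ∑ y : k, χ y * ψ (c * y) = χ⁻¹ c * gaussSum χ ψ := by
    intro χ
    have h5 := gaussSum_mulShift χ ψ hu.unit
    have h6 : χ⁻¹ c * χ c = 1 := by
      rw [← MulChar.mul_apply, inv_mul_cancel, MulChar.one_apply hu]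
    rw [← h5, hu.unit_spec, ← mul_assoc, h6, one_mul]
    rfl
  have h0 : ∑ y : k, ψ (c * y) = 0 := by
    have h5 := AddChar.sum_mulShift (R := k) (R' := ℂ) c hψ
    rw [if_neg hc] at h5
    push_cast at h5
    rw [← h5]
    exact Finset.sum_congr rfl fun y _ => by rw [mul_comm]
  have h7 : ∑ y : k, (1 + X hz h3 y + (X hz h3)⁻¹ y) * ψ (c * y) = ∑ y : k, ψ (c * y) +
      ∑ y : k, X hz h3 y * ψ (c * y) + ∑ y : k, (X hz h3)⁻¹ y * ψ (c * y) := by
    rw [← Finset.sum_add_distrib, ← Finset.sum_add_distrib]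
    exact Finset.sum_congr rfl fun y _ => by ring
  rw [h1, h7, h0, zero_add, h4, h4, Fintype.sum_bool]
  unfold Y
  simp only [if_true, if_false, Bool.false_eq_true]


/-! ### the Gauss sums -/

lemma X_order : orderOf (X hz h3) = 3 := orderOf_eq_prime (X_three hz h3) (X_ne hz h3)

include hψ in
lemma gauss_prod : gaussSum (Y hz h3 true) ψ * gaussSum (Y hz h3 false) ψ = Fintype.card k := by
  have h1 := gaussSum_mul_gaussSum_pow_orderOf_sub_one (X_ne hz h3) hψ
  rw [X_order, X_neg_one, one_mul, show 3 - 1 = 2 from rfl, ← X_inv] at h1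
  exact h1

include hψ in
lemma gauss_cube : gaussSum (Y hz h3 true) ψ ^ 3 = (Fintype.card k : ℂ) * toC (Jc hz h3) := by
  have h1 := gaussSum_pow_eq_prod_jacobiSum (χ := X hz h3) (ψ := ψ)
    (by rw [X_order]; norm_num) hψ
  rw [X_order, show Finset.Ico 1 (3 - 1) = {1} from rfl, Finset.prod_singleton, pow_one,
    X_neg_one, one_mul] at h1
  refine h1.trans ?_
  congr 1
  exact jacobiSum_ringHomComp _ _ toC

include hψ in
lemma gauss_cube' : gaussSum (Y hz h3 false) ψ ^ 3 =
    (Fintype.card k : ℂ) * (starRingEnd ℂ) (toC (Jc hz h3)) := by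
  have h1 := gauss_prod hz h3 hψ
  have h2 := gauss_cube hz h3 hψ
  have h4 : toC (Jc hz h3) * (starRingEnd ℂ) (toC (Jc hz h3)) = (Fintype.card k : ℂ) := by
    rw [Complex.mul_conj, toC_normSq, Pool.Agent.Y715.T.Cub.Jc_nr]
    push_cast
    rfl
  have hQ : (Fintype.card k : ℂ) ≠ 0 := by exact_mod_cast Fintype.card_ne_zero
  have hJ : toC (Jc hz h3) ≠ 0 := by
    intro h
    rw [h, zero_mul] at h4
    exact hQ h4.symm
  have h5 : ((Fintype.card k : ℂ) * toC (Jc hz h3)) * gaussSum (Y hz h3 false) ψ ^ 3 =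
      ((Fintype.card k : ℂ) * toC (Jc hz h3)) *
        ((Fintype.card k : ℂ) * (starRingEnd ℂ) (toC (Jc hz h3))) := by
    rw [← h2, ← mul_pow, h1, h2]
    linear_combination -(Fintype.card k : ℂ) ^ 2 * h4
  exact mul_left_cancel₀ (mul_ne_zero hQ hJ) h5

/-! ### the types -/

/-- the numbers of the two characters -/
def nt {m : ℕ} (e : Fin m → Bool) : ℕ := (Finset.univ.filter fun i => e i = true).card

/-- the numbers of the two characters -/
def nf {m : ℕ} (e : Fin m → Bool) : ℕ := (Finset.univ.filter fun i => ¬ e i = true).card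

lemma nt_add {m : ℕ} (e : Fin m → Bool) : nt e + nf e = m := by
  unfold nt nf
  rw [Finset.card_filter_add_card_filter_not, Finset.card_univ, Fintype.card_fin]

lemma Yinv_apply (b : Bool) (t : k) : (Y hz h3 b)⁻¹ t =
    if b = true then (X hz h3)⁻¹ t else X hz h3 t := by
  unfold Y
  cases b <;> simp

/-- the sum over the scalars -/
lemma scal_sum {m : ℕ} (hm : 0 < m) (e : Fin m → Bool) :
    ∑ t : k, ∏ i, (Y hz h3 (e i))⁻¹ t =
      if 3 ∣ 2 * nt e + nf e then (Fintype.card k : ℂ) - 1 else 0 := by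
  have h1 : ∀ t : k, ∏ i, (Y hz h3 (e i))⁻¹ t = (X hz h3 ^ (2 * nt e + nf e)) t := by
    intro t
    simp only [Yinv_apply]
    rw [Finset.prod_ite, Finset.prod_const, Finset.prod_const]
    show (X hz h3)⁻¹ t ^ nt e * X hz h3 t ^ nf e = _
    rw [X_inv]
    have h5 := nt_add e
    by_cases ht : t = 0
    · subst ht
      rw [MulChar.map_zero, MulChar.map_zero, MulChar.map_zero]
      by_cases h0 : nt e = 0
      · have : nf e ≠ 0 := by omega
        rw [zero_pow this, mul_zero]
      · rw [zero_pow h0, zero_mul]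
    · have hu : IsUnit t := isUnit_iff_ne_zero.2 ht
      have h6 : ∀ n : ℕ, (X hz h3 ^ n) t = X hz h3 t ^ n := fun n => by
        rw [← hu.unit_spec, MulChar.pow_apply_coe]
      rw [h6, h6, ← pow_mul, ← pow_add]
  rw [Finset.sum_congr rfl fun t _ => h1 t]
  split_ifs with h
  · obtain ⟨d, hd⟩ := h
    rw [hd, pow_mul, X_three, one_pow, MulChar.sum_one_eq_card_units, Fintype.card_units]
    have : 1 ≤ Fintype.card k := Fintype.card_pos
    push_cast [this]
    rfl
  · apply MulChar.sum_eq_zero_of_ne_one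
    intro h2
    apply h
    have := orderOf_dvd_of_pow_eq_one h2
    rwa [X_order] at this

/-- the number of the zeros -/
theorem count_gauss {m : ℕ} (hm : 0 < m) (a : Fin m → k) (ha : ∀ i, a i ≠ 0) :
    (Fintype.card k : ℂ) * (Nat.card {x : Fin m → k // ∑ i, a i * x i ^ 3 = 0} : ℂ) =
      (Fintype.card k : ℂ) ^ m + ((Fintype.card k : ℂ) - 1) *
        ∑ e ∈ Finset.univ.filter (fun e : Fin m → Bool => 3 ∣ 2 * nt e + nf e),
          (∏ i, (Y hz h3 (e i))⁻¹ (a i)) * (gaussSum (Y hz h3 true)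
            (AddChar.FiniteField.primitiveChar_to_Complex k) ^ nt e *
            gaussSum (Y hz h3 false) (AddChar.FiniteField.primitiveChar_to_Complex k) ^ nf e) := by
  set ψ := AddChar.FiniteField.primitiveChar_to_Complex k with hψd
  have hψ : ψ.IsPrimitive := AddChar.FiniteField.primitiveChar_to_Complex_isPrimitive k
  -- detection of the zeros
  have h1 : (Fintype.card k : ℂ) * (Nat.card {x : Fin m → k // ∑ i, a i * x i ^ 3 = 0} : ℂ) =
      ∑ x : Fin m → k, ∑ t : k, ψ (t * ∑ i, a i * x i ^ 3) := by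
    have h2 : ∀ x : Fin m → k, ∑ t : k, ψ (t * ∑ i, a i * x i ^ 3) =
        if ∑ i, a i * x i ^ 3 = 0 then (Fintype.card k : ℂ) else 0 := by
      intro x
      rw [AddChar.sum_mulShift _ hψ]
      push_cast
      rfl
    rw [Finset.sum_congr rfl fun x _ => h2 x, ← Finset.sum_filter, Finset.sum_const,
      nsmul_eq_mul, Nat.card_eq_fintype_card, Fintype.card_subtype, mul_comm]
  have h2 : ∀ t : k, ∑ x : Fin m → k, ψ (t * ∑ i, a i * x i ^ 3) =
      ∏ i, ∑ x : k, ψ (t * a i * x ^ 3) := by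
    intro t
    rw [Finset.prod_univ_sum, Fintype.piFinset_univ]
    refine Finset.sum_congr rfl fun x _ => ?_
    rw [Finset.mul_sum]
    have h4 : ψ (∑ i, t * (a i * x i ^ 3)) = ∏ i, ψ (t * (a i * x i ^ 3)) := by
      have h5 : ∀ S : Finset (Fin m), ψ (∑ i ∈ S, t * (a i * x i ^ 3)) =
          ∏ i ∈ S, ψ (t * (a i * x i ^ 3)) := by
        intro S
        induction S using Finset.induction_on with
        | empty => rw [Finset.sum_empty, Finset.prod_empty, AddChar.map_zero_eq_one]
        | insert i S hi ih =>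
          rw [Finset.sum_insert hi, Finset.prod_insert hi, AddChar.map_add_eq_mul, ih]
      exact h5 _
    rw [h4]
    exact Finset.prod_congr rfl fun i _ => by rw [mul_assoc]
  rw [h1, Finset.sum_comm, Finset.sum_congr rfl fun t _ => h2 t]
  -- the nonzero scalars
  have h5 : ∀ t : k, t ≠ 0 → ∏ i, ∑ x : k, ψ (t * a i * x ^ 3) =
      ∑ e : Fin m → Bool, (∏ i, (Y hz h3 (e i))⁻¹ t) * ((∏ i, (Y hz h3 (e i))⁻¹ (a i)) *
        (gaussSum (Y hz h3 true) ψ ^ nt e * gaussSum (Y hz h3 false) ψ ^ nf e)) := by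
    intro t ht
    have h6 : ∀ i, ∑ x : k, ψ (t * a i * x ^ 3) =
        ∑ b : Bool, (Y hz h3 b)⁻¹ (t * a i) * gaussSum (Y hz h3 b) ψ := fun i =>
      cube_sum hz h3 hψ (mul_ne_zero ht (ha i))
    rw [Finset.prod_congr rfl fun i _ => h6 i, Finset.prod_univ_sum, Fintype.piFinset_univ]
    refine Finset.sum_congr rfl fun e _ => ?_
    have h7 : ∏ i, gaussSum (Y hz h3 (e i)) ψ =
        gaussSum (Y hz h3 true) ψ ^ nt e * gaussSum (Y hz h3 false) ψ ^ nf e := by
      have h8 : ∀ i, gaussSum (Y hz h3 (e i)) ψ = if e i = true then gaussSum (Y hz h3 true) ψ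
          else gaussSum (Y hz h3 false) ψ := by
        intro i
        cases e i <;> simp
      rw [Finset.prod_congr rfl fun i _ => h8 i, Finset.prod_ite, Finset.prod_const,
        Finset.prod_const]
      rfl
    rw [← h7, ← Finset.prod_mul_distrib, ← Finset.prod_mul_distrib]
    refine Finset.prod_congr rfl fun i _ => ?_
    rw [map_mul]
    ring
  have h0 : ∏ i : Fin m, ∑ x : k, ψ (0 * a i * x ^ 3) = (Fintype.card k : ℂ) ^ m := by
    simp [AddChar.map_zero_eq_one]
  have hz0 : ∀ e : Fin m → Bool, ∏ i, (Y hz h3 (e i))⁻¹ (0 : k) = 0 := by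
    intro e
    exact Finset.prod_eq_zero (Finset.mem_univ (⟨0, hm⟩ : Fin m)) (MulChar.map_zero _)
  rw [← Finset.add_sum_erase _ _ (Finset.mem_univ (0 : k)), h0]
  congr 1
  rw [Finset.sum_congr rfl fun t ht => h5 t (Finset.ne_of_mem_erase ht)]
  have h8 : ∑ t ∈ Finset.univ.erase (0 : k), ∑ e : Fin m → Bool,
      (∏ i, (Y hz h3 (e i))⁻¹ t) * ((∏ i, (Y hz h3 (e i))⁻¹ (a i)) *
        (gaussSum (Y hz h3 true) ψ ^ nt e * gaussSum (Y hz h3 false) ψ ^ nf e)) =
      ∑ t : k, ∑ e : Fin m → Bool,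
      (∏ i, (Y hz h3 (e i))⁻¹ t) * ((∏ i, (Y hz h3 (e i))⁻¹ (a i)) *
        (gaussSum (Y hz h3 true) ψ ^ nt e * gaussSum (Y hz h3 false) ψ ^ nf e)) := by
    rw [← Finset.add_sum_erase Finset.univ _ (Finset.mem_univ (0 : k))]
    simp only [hz0, zero_mul, Finset.sum_const_zero, zero_add]
  rw [h8, Finset.sum_comm, Finset.mul_sum, Finset.sum_filter]
  refine Finset.sum_congr rfl fun e _ => ?_
  rw [← Finset.sum_mul, scal_sum hz h3 hm]
  split_ifs
  · rfl
  · rw [zero_mul]

end fld

end Pool.Agent.H451.BB
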