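import Mathlib

/-!
# Diagonal cubic threefolds and fivefolds over `K = ℚ(√-3)`

For a diagonal cubic hypersurface `V : ∑ a_i x_i ^ 3 = 0` of dimension `n = m - 2`, `m ∈ {5, 7}`,
over the field `K` of the third roots of unity, the middle cohomology is the sum of the
`H¹(E_S)(-(n - 1) / 2)`, where `S` runs through the sets of `(n - 1) / 2` of the `m` indices and
`E_S : y ^ 2 + D_S y = x ^ 3` with `D_S = ∏ a_i · ∏_{i ∈ S} a_i`.
-/

set_option autoImplicit false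

namespace Pool.Agent.H451.CubT

open NumberField IsDedekindDomain
open scoped Classical

/-- The elliptic curve `y ^ 2 + D y = x ^ 3`. -/
def E {K : Type} [Field K] (D : K) : WeierstrassCurve K := ⟨0, 0, D, 0, 0⟩

/-- `D_S = ∏ a_i · ∏_{i ∈ S} a_i` -/
def DS {R : Type} [CommRing R] {m : ℕ} (a : Fin m → R) (S : Finset (Fin m)) : R :=
  (∏ i, a i) * ∏ i ∈ S, a i

section defs
variable {K : Type} [Field K] [NumberField K]

/-- The class of the `D ∈ 𝓞 K`, squarefree, `D = 1` modulo `3`, `N(D) ≠ 1` modulo `9`. -/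
def Cls (D : 𝓞 K) : Prop :=
  (3 : 𝓞 K) ∣ D - 1 ∧ Squarefree D ∧ ¬ (9 : ℤ) ∣ Algebra.norm ℤ D - 1

/-- The good `D ∈ 𝓞 K`: up to cubes of `Kˣ` it is `1` or `∏ π_i ^ (e_i)` where the `π_i = 1` modulo
`3` are primes, no two of them associate, `e_i ∈ {1, 2}`, the norm of the product is not `1`
modulo `9`, and with the cubic residue symbols `(π_i / π_k)_3 = ω ^ (χ k i)` the only
`v : Fin n → 𝔽₃` with `∑ i, e_i χ k i (v i - v k) = 0` for all `k` are the constants. -/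
def Good (D : 𝓞 K) : Prop :=
  ∃ b c d : 𝓞 K, b ≠ 0 ∧ c ≠ 0 ∧ b ^ 3 * D = c ^ 3 * d ∧ (d = 1 ∨
    ∃ (ω : 𝓞 K) (n : ℕ) (π : Fin n → 𝓞 K) (e : Fin n → ℕ) (χ : Fin n → Fin n → ZMod 3),
      ω ^ 2 + ω + 1 = 0 ∧
      (∀ i, Prime (π i) ∧ (3 : 𝓞 K) ∣ π i - 1 ∧ (e i = 1 ∨ e i = 2)) ∧
      (∀ i k, i ≠ k → ¬ π k ∣ π i ∧
        π k ∣ π i ^ (((Algebra.norm ℤ (π k)).natAbs - 1) / 3) - ω ^ (χ k i).val) ∧
      d = ∏ i, π i ^ e i ∧ ¬ (9 : ℤ) ∣ Algebra.norm ℤ d - 1 ∧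
      ∀ v : Fin n → ZMod 3, (∀ k, ∑ i, (e i : ZMod 3) * χ k i * (v i - v k) = 0) →
        ∀ i k, v i = v k)

/-- The primes `v` that divide neither `3` nor any coefficient. -/
def Gd {m : ℕ} (a : Fin m → 𝓞 K) (v : HeightOneSpectrum (𝓞 K)) : Prop :=
  (3 : 𝓞 K) ∉ v.asIdeal ∧ ∀ i, a i ∉ v.asIdeal

/-- `α 0, …, α (b - 1)` are the eigenvalues of the Frobenius of `v` on the middle cohomology of
`V : ∑ a_i x_i ^ 3 = 0`: for all `r`, over the extension `F` of degree `r` of the residue field,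
with `Q = |F|`, the affine cone over `V` has
`1 + (Q - 1) (1 + Q + ⋯ + Q ^ (m - 2) - ∑ α_j ^ r)` points. -/
def IsFrob {m b : ℕ} (a : Fin m → 𝓞 K) (v : HeightOneSpectrum (𝓞 K)) (α : Fin b → ℂ) : Prop :=
  ∀ (F : Type) [Field F] [Fintype F] (f : 𝓞 K →+* F) (r : ℕ),
    (∀ x, f x = 0 ↔ x ∈ v.asIdeal) → Fintype.card F = Ideal.absNorm v.asIdeal ^ r →
    (Nat.card {x : Fin m → F // ∑ i, f (a i) * x i ^ 3 = 0} : ℂ) =
      1 + ((Fintype.card F : ℂ) - 1) *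
        (∑ i ∈ Finset.range (m - 1), (Fintype.card F : ℂ) ^ i - ∑ j, α j ^ r)

/-- The middle cohomology of `V` is the sum of the `H¹(E_S)(-(m - 3) / 2)`, as an identity of
numbers of points over all finite fields. -/
def Mot {m : ℕ} (a : Fin m → 𝓞 K) : Prop :=
  ∀ (F : Type) [Field F] [Fintype F] (f : 𝓞 K →+* F), (3 : F) ≠ 0 → (∀ i, f (a i) ≠ 0) →
    (Nat.card {x : Fin m → F // ∑ i, f (a i) * x i ^ 3 = 0} : ℤ) =
      1 + ((Fintype.card F : ℤ) - 1) * (∑ i ∈ Finset.range (m - 1), (Fintype.card F : ℤ) ^ i -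
        (Fintype.card F : ℤ) ^ ((m - 3) / 2) *
        ∑ S ∈ Finset.powersetCard ((m - 3) / 2) (Finset.univ : Finset (Fin m)),
          ((Fintype.card F : ℤ) -
            Nat.card {p : F × F // p.2 ^ 2 + f (DS a S) * p.2 = p.1 ^ 3}))

/-- Beilinson and Bloch for the middle cohomology of `V : ∑ a_i x_i ^ 3 = 0`, rank zero: all the
`E_S(K)` are finite, and the `L`-function of the middle cohomology of `V` (without the Euler
factors at the primes dividing `3` or some `a_i`), of degree `2 · C(m, (m - 3) / 2)`, `10` or `42`,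
is entire and does not vanish at the centre `(m - 1) / 2`. -/
def BB {m : ℕ} (a : Fin m → 𝓞 K) : Prop :=
  (∀ S : Finset (Fin m), S.card = (m - 3) / 2 →
    Finite (E ((DS a S : 𝓞 K) : K)).toAffine.Point) ∧
  ∃ L : ℂ → ℂ, Differentiable ℂ L ∧ L (((m : ℂ) - 1) / 2) ≠ 0 ∧
    ∃ α : HeightOneSpectrum (𝓞 K) → Fin (2 * m.choose ((m - 3) / 2)) → ℂ,
      (∀ v, Gd a v → IsFrob a v (α v)) ∧
      ∀ s : ℂ, (m : ℝ) / 2 < s.re → HasProd (fun v : {v // Gd a v} =>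
        ∏ j, (1 - α v.1 j * (Ideal.absNorm v.1.asIdeal : ℂ) ^ (-s))⁻¹) (L s)

end defs

end Pool.Agent.H451.CubT
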