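import Mathlib
import Pool.Agent.H451.BB.Def

/-!
# Families of diagonal cubic hypersurfaces over `K = ℚ(√-3)`

`V_D : a_0 x_0 ^ 3 + ⋯ + a_(n-1) x_(n-1) ^ 3 + D x_n ^ 3 = 0` with fixed `a_0, …, a_(n-1)`, `n = 4, 6`.
-/

set_option autoImplicit false

namespace Pool.Agent.H451.CubT

open NumberField IsDedekindDomain
open scoped Classical

/-- the coefficients `a_0, …, a_(n-1), D` -/
def co {R : Type} {n : ℕ} (a : Fin n → R) (D : R) : Fin (n + 1) → R :=
  Fin.snoc (α := fun _ => R) a D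

/-- The admissible `D` for the fixed coefficients `a_i`: squarefree, `1` modulo `3`, prime to all `a_i`,
and neither the norm of `D` nor that of any `D_S`, `|S| = (n - 2) / 2`, is `1` modulo `9`. -/
def Adm {K : Type} [Field K] [NumberField K] {n : ℕ} (a : Fin n → 𝓞 K) (D : 𝓞 K) : Prop :=
  Cls D ∧ (∀ i, IsCoprime D (a i)) ∧ ∀ S : Finset (Fin (n + 1)), S.card = (n - 2) / 2 →
    ¬ (9 : ℤ) ∣ Algebra.norm ℤ (DS (co a D) S) - 1

end Pool.Agent.H451.CubT
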