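import Mathlib
import Pool.Agent.H451.BB.Def

/-!
# Diagonal cubic hypersurfaces over `K = ℚ(√-3)` with varying coefficients

`V_a : a_1 x_1 ^ 3 + ⋯ + a_m x_m ^ 3 = 0`, `m = 5, 7`, where `(a_1, …, a_m)` runs through the
factorisations `a_1 ⋯ a_m = D` of the elements `D` of the class `Cls`.
-/

set_option autoImplicit false

namespace Pool.Agent.H451.CubT

open NumberField IsDedekindDomain
open scoped Classical

section defs
variable {K : Type} [Field K] [NumberField K]

/-- the factorisations of `D` into `m` factors which are `1` modulo `3` -/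
def Fac {m : ℕ} (D : 𝓞 K) (a : Fin m → 𝓞 K) : Prop := (∀ i, (3 : 𝓞 K) ∣ a i - 1) ∧ ∏ i, a i = D

/-- the admissible coefficients: no `D_S`, `|S| = (m - 3) / 2`, has norm `1` modulo `9` -/
def AdmA {m : ℕ} (a : Fin m → 𝓞 K) : Prop :=
  ∀ S : Finset (Fin m), S.card = (m - 3) / 2 → ¬ (9 : ℤ) ∣ Algebra.norm ℤ (DS a S) - 1

/-- the proportion of the factorisations of `D` into `m` factors `1` modulo `3` with the property
`P` -/
noncomputable def share {m : ℕ} (P : (Fin m → 𝓞 K) → Prop) (D : 𝓞 K) : ℝ :=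
  (Nat.card {a : Fin m → 𝓞 K // Fac D a ∧ P a} : ℝ) / (Nat.card {a : Fin m → 𝓞 K // Fac D a} : ℝ)

end defs

end Pool.Agent.H451.CubT
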