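import Mathlib
import Pool.Graph.R_seed8.Y715.T.RecG

/-!
# The cubic Jacobi sums of the extensions of the residue fields
-/

set_option autoImplicit false
set_option linter.unusedSectionVars false

namespace Pool.Agent.H451.BB

open Pool.Agent.Y692.QS hiding chi Jc Jc_nr chi_red chi_neg_one
open Pool.Agent.Y715.T.Cub
open Pool.Agent.Y715.T.RecG (Pq)
open Pool.Agent.Y715.T.Rec (exists_p)
open scoped Classical

/-- a prime `l = 3 d + 1` does not divide the middle binomial coefficients `(2 n, n)` for
`n = (l ^ r - 1) / 3` -/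
lemma choose_ndvd {l d : ℕ} (hl : l.Prime) (hd : l = 3 * d + 1) (r : ℕ) :
    ¬ l ∣ (2 * ((l ^ r - 1) / 3)).choose ((l ^ r - 1) / 3) := by
  have : Fact l.Prime := ⟨hl⟩
  have hl1 := hl.one_lt
  induction r with
  | zero =>
    rw [pow_zero, Nat.sub_self, Nat.zero_div, Nat.choose_self]
    exact fun h => hl.one_lt.ne' (Nat.dvd_one.1 h)
  | succ r ih =>
    set n := (l ^ r - 1) / 3 with hn
    have h1 : l ^ r = 3 * n + 1 := by
      have h2 : l ^ r % 3 = 1 := by
        have h3 : l % 3 = 1 := by omega
        have h4 := Nat.pow_mod l r 3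
        rw [h3, one_pow] at h4
        omega
      omega
    have h2 : (l ^ (r + 1) - 1) / 3 = l * n + d := by
      have h3 : l ^ (r + 1) = 3 * (l * n + d) + 1 := by
        rw [pow_succ, h1, hd]
        ring
      rw [h3, Nat.add_sub_cancel, Nat.mul_div_cancel_left _ (by norm_num)]
    rw [h2]
    have hd2 : 2 * d < l := by omega
    have e1 : 2 * (l * n + d) = 2 * d + l * (2 * n) := by ring
    have e2 : l * n + d = d + l * n := by ring
    intro h3
    have h4 := Choose.choose_modEq_choose_mod_mul_choose_div_nat (p := l)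
      (n := 2 * (l * n + d)) (k := l * n + d)
    have h5 := (Nat.ModEq.dvd_iff h4 dvd_rfl).1 h3
    rw [e1, e2, Nat.add_mul_mod_self_left, Nat.add_mul_mod_self_left, Nat.mod_eq_of_lt hd2,
      Nat.mod_eq_of_lt (by omega : d < l), Nat.add_mul_div_left _ _ hl.pos,
      Nat.add_mul_div_left _ _ hl.pos, Nat.div_eq_of_lt hd2, Nat.div_eq_of_lt (by omega : d < l),
      zero_add, zero_add] at h5
    rcases (hl.dvd_mul).1 h5 with h6 | h6
    · have h7 : l ∣ (2 * d).factorial := by
        have h8 := Nat.choose_mul_factorial_mul_factorial (n := 2 * d) (k := d) (by omega)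
        rw [← h8, mul_assoc]
        exact h6.mul_right _
      have := (hl.dvd_factorial).1 h7
      omega
    · exact ih h6

section fld

variable {k : Type} [Field k] [Fintype k] {z : k} (hz : z * z = -1 - z) (h3 : (3 : k) ≠ 0)

lemma star_chi (t : k) : star (chi hz h3 t) = chi hz h3 t ^ 2 := by
  by_cases ht : t = 0
  · rw [ht, MulChar.map_zero, star_zero, zero_pow two_ne_zero]
  · have h1 := chi_cube hz h3 ht
    have h2 := (star_cube h1).1
    have h0 : chi hz h3 t ≠ 0 := by
      intro h
      rw [h, zero_pow (by norm_num)] at h1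
      exact zero_ne_one h1
    apply mul_left_cancel₀ h0
    rw [h2, ← h1]
    ring

/-- the reduction of the conjugate of the Jacobi sum -/
lemma red_star : hom z hz (star (Jc hz h3)) =
    -((-1) ^ ((Fintype.card k - 1) / 3) *
      ((2 * ((Fintype.card k - 1) / 3)).choose ((Fintype.card k - 1) / 3) : k)) := by
  set n := (Fintype.card k - 1) / 3 with hn
  have h3n : n * 3 = Fintype.card k - 1 := Nat.div_mul_cancel (card_mod hz h3)
  have hn0 : 0 < n := third_pos hz h3
  have hst : star (Jc hz h3) = ∑ x : k, chi hz h3 x ^ 2 * chi hz h3 (1 - x) ^ 2 := by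
    unfold Jc jacobiSum
    rw [star_sum]
    refine Finset.sum_congr rfl fun x _ => ?_
    rw [star_mul', star_chi, star_chi]
  rw [hst, map_sum]
  have e1 : ∀ x : k, hom z hz (chi hz h3 x ^ 2 * chi hz h3 (1 - x) ^ 2) =
      ∑ m ∈ Finset.range (2 * n + 1), ((-1) ^ m * ((2 * n).choose m : k)) * x ^ (2 * n + m) := by
    intro x
    rw [map_mul, map_pow, map_pow, chi_red, chi_red, ← hn, ← pow_mul, ← pow_mul, mul_comm n 2]
    have : (1 - x) ^ (2 * n) = (-x + 1) ^ (2 * n) := by ring
    rw [this, add_pow, Finset.mul_sum]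
    refine Finset.sum_congr rfl fun m _ => ?_
    rw [one_pow, neg_pow, pow_add]
    ring
  have hsum : ∀ i : ℕ, 0 < i → ∑ x : k, x ^ i = if Fintype.card k - 1 ∣ i then -1 else 0 := by
    intro i hi
    rw [← FiniteField.sum_pow_units k i]
    have h1 : ∑ x : k, x ^ i = ∑ x ∈ Finset.univ.erase (0 : k), x ^ i := by
      rw [← Finset.add_sum_erase Finset.univ _ (Finset.mem_univ (0 : k)), zero_pow hi.ne',
        zero_add]
    rw [h1]
    symm
    refine Finset.sum_bij (fun (u : kˣ) _ => (u : k)) (fun u _ => ?_) (fun u _ v _ h => ?_)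
      (fun x hx => ?_) (fun u _ => ?_)
    · exact Finset.mem_erase.2 ⟨u.ne_zero, Finset.mem_univ _⟩
    · exact Units.ext h
    · exact ⟨Units.mk0 x (Finset.ne_of_mem_erase hx), Finset.mem_univ _, rfl⟩
    · rfl
  rw [Finset.sum_congr rfl fun x _ => e1 x, Finset.sum_comm]
  have e2 : ∀ m ∈ Finset.range (2 * n + 1),
      ∑ x : k, ((-1) ^ m * ((2 * n).choose m : k)) * x ^ (2 * n + m) =
        if m = n then -((-1) ^ n * ((2 * n).choose n : k)) else 0 := by
    intro m hm
    have hm' := Finset.mem_range.1 hm
    rw [← Finset.mul_sum, hsum _ (by omega), ← h3n]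
    by_cases h : m = n
    · rw [if_pos h, if_pos ⟨1, by rw [h]; ring⟩, h]
      ring
    · rw [if_neg h, if_neg, mul_zero]
      rintro ⟨c, hc⟩
      have hc1 : c = 1 := by
        have h4 : c < 2 := by
          by_contra h5
          push Not at h5
          have : n * 3 * 2 ≤ n * 3 * c := Nat.mul_le_mul_left _ h5
          omega
        have h6 : 0 < c := by
          rcases Nat.eq_zero_or_pos c with h0 | h0
          · rw [h0, mul_zero] at hc
            omega
          · exact h0
        omega
      rw [hc1] at hc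
      omega
  rw [Finset.sum_congr rfl e2, Finset.sum_ite_eq', if_pos (Finset.mem_range.2 (by omega))]

end fld

section ext

variable {π : Ei} {k : Type} [Field k] [Fintype k] {f : Ei →+* k}

lemma fw (f : Ei →+* k) : f w * f w = -1 - f w := by
  rw [← map_mul, w_sq, map_sub, map_neg, map_one]

lemma hom_fw (f : Ei →+* k) : hom (f w) (fw f) = f := by
  apply RingHom.ext
  intro x
  rw [hom_apply]
  conv_rhs => rw [eta x]
  rw [map_add, map_mul, map_intCast, map_intCast]

lemma f_three (hπ : Pq π) (hf : ∀ x, f x = 0 ↔ π ∣ x) : (3 : k) ≠ 0 := by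
  intro h
  apply hπ.norm
  rw [← hf, map_ofNat]
  exact h

/-- a unit which is `-1` modulo `3` -/
lemma unit_neg {u : Ei} (hu : IsUnit u) (h : (3 : Ei) ∣ u + 1) : u = -1 := by
  have h7 : ep u = ep (-1) := ep_per (by rwa [sub_neg_eq_add])
  rw [ep_unit hu, ep_unit isUnit_one.neg] at h7
  exact h7

lemma assoc_of {J : Ei} (hp : Prime π) {n r : ℕ} (h1 : J ∣ π ^ n) (h2 : nr J = nr π ^ r) :
    Associated J (π ^ r) := by
  obtain ⟨i, -, hi⟩ := (dvd_prime_pow hp n).1 h1
  have h4 : nr J = nr π ^ i := by
    obtain ⟨u, hu⟩ := hi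
    have h5 := congrArg nr hu
    rw [nr_mul, isUnit_iff.1 u.isUnit, mul_one] at h5
    rw [h5]
    clear * -
    induction i with
    | zero => rw [pow_zero, pow_zero, nr_one]
    | succ i ih => rw [pow_succ, pow_succ, nr_mul, ih]
  have h6 : 1 < nr π := by
    have h7 := nr_nonneg π
    have h8 : nr π ≠ 1 := Pool.Agent.Y715.T.Rec.not_unit hp
    have h9 : nr π ≠ 0 := fun h => hp.ne_zero (nr_zero_iff.1 h)
    omega
  rw [h2] at h4
  have h5 : r = i := pow_right_injective₀ (by omega) h6.ne' h4
  rw [h5]
  exact hi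

/-- **The Jacobi sum over an extension of the residue field of `π`.** -/
theorem jac_pow (hπ : Pq π) (hf : ∀ x, f x = 0 ↔ π ∣ x) {r : ℕ}
    (hr : (Fintype.card k : ℤ) = nr π ^ r) (h3 : (3 : k) ≠ 0) :
    Jc (fw f) h3 = -π ^ r := by
  set J := Jc (fw f) h3 with hJ
  have h1 : f J = 0 := by
    have := red_J (fw f) h3
    rwa [hom_fw] at this
  have h2 : nr J = nr π ^ r := by
    rw [← hr]
    exact Pool.Agent.Y715.T.Cub.Jc_nr (fw f) h3
  have h4 : (3 : Ei) ∣ J + 1 := Jc_mod (fw f) h3
  obtain ⟨l, hl, hdl, hcase⟩ := exists_p hπ.prime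
  have hass : Associated J (π ^ r) := by
    rcases hcase with hn | hn
    · -- split
      have hss : π * star π = (l : Ei) := by
        rw [mul_star, hn]
        push_cast
        rfl
      have hps : Prime (star π) := by
        have := (MulEquiv.prime_iff (starRingAut : Ei ≃+* Ei)).2 hπ.prime
        exact this
      have hJs : ¬ star π ∣ J := by
        intro hdv
        have h5 : π ∣ star J := by
          obtain ⟨c, hc⟩ := hdv
          exact ⟨star c, by rw [hc, star_mul', star_star]⟩
        rw [← hf] at h5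
        have h6 := red_star (fw f) h3
        rw [hom_fw, h5] at h6
        have h7 : ((2 * ((Fintype.card k - 1) / 3)).choose ((Fintype.card k - 1) / 3) : k) = 0 := by
          have h8 := neg_eq_zero.1 h6.symm
          exact (mul_eq_zero.1 h8).resolve_left (pow_ne_zero _ (by simp))
        have hl0 : (l : k) = 0 := by
          rw [← map_natCast f, hf]
          exact hdl
        have hchar : ringChar k = l := CharP.ringChar_of_prime_eq_zero hl hl0
        have hq : Fintype.card k = l ^ r := by
          have : (Fintype.card k : ℤ) = ((l ^ r : ℕ) : ℤ) := by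
            rw [hr, hn]
            push_cast
            rfl
          exact_mod_cast this
        rw [ringChar.spec, hchar, hq] at h7
        have hl3 : ∃ d, l = 3 * d + 1 := by
          obtain ⟨c, hc⟩ := hπ.three
          have e1 : π = 1 + 3 * c := by rw [← hc]; ring
          have h9 : (nr π - 1) % 3 = 0 := by
            have h10 : π.re = 1 + 3 * c.re := by
              rw [e1]
              have h31 : (3 : Ei) = ⟨3, 0⟩ := rfl
              have h32 : QuadraticAlgebra.re (1 : Ei) = 1 := rfl
              rw [h31]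
              simp [h32]
            have h11 : π.im = 3 * c.im := by
              rw [e1]
              have h31 : (3 : Ei) = ⟨3, 0⟩ := rfl
              have h32 : QuadraticAlgebra.im (1 : Ei) = 0 := rfl
              rw [h31]
              simp [h32]
            unfold nr
            rw [h10, h11]
            have : (1 + 3 * c.re) ^ 2 - (1 + 3 * c.re) * (3 * c.im) + (3 * c.im) ^ 2 - 1 =
              3 * (2 * c.re + 3 * c.re ^ 2 - (1 + 3 * c.re) * c.im + 3 * c.im ^ 2) := by ring
            rw [this]
            exact Int.mul_emod_right 3 _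
          rw [hn] at h9
          have := hl.pos
          exact ⟨(l - 1) / 3, by omega⟩
        obtain ⟨d, hd⟩ := hl3
        exact choose_ndvd hl hd r h7
      have h5 : J ∣ π ^ r * (star π) ^ r := by
        refine ⟨star J, ?_⟩
        rw [mul_star, h2, hn, ← mul_pow, hss]
        push_cast
        rfl
      have h6 : IsCoprime J ((star π) ^ r) :=
        (((hps.irreducible.coprime_iff_not_dvd).2 hJs).symm).pow_right
      exact assoc_of hπ.prime (h6.dvd_of_dvd_mul_right h5) h2
    · -- inert
      have hlp : Associated π (l : Ei) := by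
        obtain ⟨c, hc⟩ := hdl
        have h5 : nr c = 1 := by
          have h6 := congrArg nr hc
          rw [nr_mul, nr_nat, hn] at h6
          have h7 : (0 : ℤ) < (l : ℤ) ^ 2 := by
            have := hl.pos
            positivity
          exact (mul_left_cancel₀ h7.ne' (by rw [mul_one]; exact h6)).symm
        exact ⟨(isUnit_iff.2 h5).unit, by rw [IsUnit.unit_spec]; exact hc.symm⟩
      have h5 : J ∣ (l : Ei) ^ (2 * r) := by
        refine ⟨star J, ?_⟩
        rw [mul_star, h2, hn, ← pow_mul]
        push_cast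
        rfl
      exact assoc_of hπ.prime (h5.trans (hlp.symm.pow_pow).dvd) h2
  obtain ⟨u, hu⟩ := hass.symm
  have h5 : (3 : Ei) ∣ π ^ r - 1 := by
    have := sub_dvd_pow_sub_pow π 1 r
    rw [one_pow] at this
    exact hπ.three.trans this
  have h6 : (3 : Ei) ∣ (u : Ei) + 1 := by
    have e : (u : Ei) + 1 = (J + 1) - (π ^ r - 1) * u := by rw [← hu]; ring
    rw [e]
    exact dvd_sub h4 (Dvd.dvd.mul_right h5 _)
  rw [← hu, unit_neg u.isUnit h6]
  ring

end ext



end Pool.Agent.H451.BB
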