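import Mathlib
import Pool.Agent.H451.BB.Cnt
import Pool.Agent.H451.BB.Jac

/-!
# The zeta function of a diagonal cubic hypersurface of dimension one, three or five
-/

set_option autoImplicit false
set_option linter.unusedSectionVars false

namespace Pool.Agent.H451.BB

open Pool.Agent.Y692.QS hiding chi Jc Jc_nr chi_red chi_neg_one
open Pool.Agent.Y715.T.Cub
open Pool.Agent.Y715.T.RecG (Pq)
open Pool.Agent.Y715.T.Rec (cs nn)
open scoped Classical

/-- the powers of the root of unity -/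
noncomputable def tw (c : ZMod 3) : ℂ := toC w ^ c.val

lemma tw_zero : tw 0 = 1 := by
  unfold tw
  rw [ZMod.val_zero, pow_zero]

lemma tw_add (c d : ZMod 3) : tw (c + d) = tw c * tw d := by
  unfold tw
  rw [← map_pow, ← map_pow, ← map_pow, ← map_mul, Pool.Agent.Y715.T.Rec.w_add]

lemma tw_neg (c : ZMod 3) : tw c * tw (-c) = 1 := by
  rw [← tw_add, add_neg_cancel, tw_zero]

lemma tw_ne (c : ZMod 3) : tw c ≠ 0 := left_ne_zero_of_mul_eq_one (tw_neg c)

lemma tw_mul (r : ℕ) (c : ZMod 3) : tw (r * c) = tw c ^ r := by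
  induction r with
  | zero => rw [Nat.cast_zero, zero_mul, tw_zero, pow_zero]
  | succ r ih => rw [Nat.cast_succ, add_mul, one_mul, tw_add, ih, pow_succ]

lemma tw_sum {ι : Type*} (S : Finset ι) (c : ι → ZMod 3) : tw (∑ i ∈ S, c i) = ∏ i ∈ S, tw (c i) := by
  induction S using Finset.induction_on with
  | empty => rw [Finset.sum_empty, Finset.prod_empty, tw_zero]
  | insert i S hi ih => rw [Finset.sum_insert hi, Finset.prod_insert hi, tw_add, ih]

/-- the sign -/
def sg (b : Bool) : ZMod 3 := if b then 1 else -1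

/-- the exponent of the root of unity -/
noncomputable def ce {m : ℕ} (π : Ei) (a : Fin m → Ei) (e : Fin m → Bool) : ZMod 3 :=
  -∑ i, sg (e i) * cs π (a i)

/-- the eigenvalues of the Frobenius automorphism -/
noncomputable def al {m : ℕ} (π : Ei) (a : Fin m → Ei) (e : Fin m → Bool) : ℂ :=
  ((nr π : ℤ) : ℂ) ^ ((m - 3) / 2) * (tw (ce π a e) *
    if nf e < nt e then toC π else (starRingEnd ℂ) (toC π))

/-- the types -/
def TT (m : ℕ) : Finset (Fin m → Bool) :=
  Finset.univ.filter fun e => 3 ∣ 2 * nt e + nf e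

section ext

variable {π : Ei} {k : Type} [Field k] [Fintype k] {f : Ei →+* k} {r : ℕ}

lemma card_pow (hr : (Fintype.card k : ℤ) = nr π ^ r) :
    Fintype.card k = (nr π).natAbs ^ r := by
  have h1 : ((nr π).natAbs : ℤ) = nr π := Int.natAbs_of_nonneg (nr_nonneg π)
  have h2 : (Fintype.card k : ℤ) = (((nr π).natAbs ^ r : ℕ) : ℤ) := by
    rw [hr, Nat.cast_pow, h1]
  exact_mod_cast h2

lemma chi_f (hπ : Pq π) (hf : ∀ x, f x = 0 ↔ π ∣ x) (hr : (Fintype.card k : ℤ) = nr π ^ r)
    (h3 : (3 : k) ≠ 0) {a : Ei} (ha : ¬ π ∣ a) :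
    chi (fw f) h3 (f a) = w ^ ((r : ZMod 3) * cs π a).val := by
  have hfa : f a ≠ 0 := fun h => ha ((hf a).1 h)
  have hq := card_pow hr
  set q := (nr π).natAbs with hqd
  -- the residue field
  have h1 : π ∣ a ^ nn π - w ^ (cs π a).val :=
    Pool.Agent.Y715.T.RecG.cs_spec hπ.prime hπ.norm ha
  have h2 : f a ^ nn π = f w ^ (cs π a).val := by
    have h4 := (hf _).2 h1
    rw [map_sub, map_pow, map_pow, sub_eq_zero] at h4
    exact h4
  have h3q : 3 ∣ q - 1 := by
    obtain ⟨c, hc⟩ := hπ.three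
    have e1 : π = 1 + 3 * c := by rw [← hc]; ring
    have h9 : (nr π - 1) % 3 = 0 := by
      have h10 : π.re = 1 + 3 * c.re := by
        rw [e1]
        have h31 : (3 : Ei) = ⟨3, 0⟩ := rfl
        have h32 : QuadraticAlgebra.re (1 : Ei) = 1 := rfl
        rw [h31]
        simp [h32]
      have h11 : π.im = 3 * c.im := by
        rw [e1]
        have h31 : (3 : Ei) = ⟨3, 0⟩ := rfl
        have h32 : QuadraticAlgebra.im (1 : Ei) = 0 := rfl
        rw [h31]
        simp [h32]
      unfold nr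
      rw [h10, h11]
      have : (1 + 3 * c.re) ^ 2 - (1 + 3 * c.re) * (3 * c.im) + (3 * c.im) ^ 2 - 1 =
        3 * (2 * c.re + 3 * c.re ^ 2 - (1 + 3 * c.re) * c.im + 3 * c.im ^ 2) := by ring
      rw [this]
      exact Int.mul_emod_right 3 _
    have h12 : (q : ℤ) = nr π := Int.natAbs_of_nonneg (nr_nonneg π)
    omega
  have hq1 : 1 < q := by
    have h7 := nr_nonneg π
    have h8 : nr π ≠ 1 := Pool.Agent.Y715.T.Rec.not_unit hπ.prime
    have h9 : nr π ≠ 0 := fun h => hπ.prime.ne_zero (nr_zero_iff.1 h)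
    omega
  obtain ⟨d, hd⟩ := h3q
  have hqd' : q = 3 * d + 1 := by omega
  have hnn : nn π = d := by
    unfold nn
    rw [← hqd, hd, Nat.mul_div_cancel_left _ (by norm_num)]
  have hS : (Fintype.card k - 1) / 3 = d * ∑ i ∈ Finset.range r, q ^ i := by
    have hgeo : ∀ r : ℕ, q ^ r = 3 * (d * ∑ i ∈ Finset.range r, q ^ i) + 1 := by
      intro r
      induction r with
      | zero => simp
      | succ r ih =>
        have h : q ^ r * q = q ^ r * (3 * d + 1) := congrArg (q ^ r * ·) hqd'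
        rw [Finset.sum_range_succ, pow_succ, h, mul_add, mul_one]
        nth_rewrite 2 [ih]
        ring
    have h5 : q ^ r - 1 = 3 * (d * ∑ i ∈ Finset.range r, q ^ i) := by
      have := hgeo r
      omega
    rw [hq, h5, Nat.mul_div_cancel_left _ (by norm_num)]
  have hc3 : (f w) ^ 3 = 1 := by rw [← map_pow, w_cube, map_one]
  have h6 : f a ^ ((Fintype.card k - 1) / 3) = f w ^ ((r : ZMod 3) * cs π a).val := by
    rw [hS, pow_mul, ← hnn, h2, ← pow_mul]
    have h7 : (((cs π a).val * ∑ i ∈ Finset.range r, q ^ i : ℕ) : ZMod 3) =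
        (r : ZMod 3) * cs π a := by
      have h8 : (q : ZMod 3) = 1 := by
        rw [hqd']
        push_cast
        have : (3 : ZMod 3) = 0 := by decide
        rw [this, zero_mul, zero_add]
      push_cast
      rw [ZMod.natCast_zmod_val, h8]
      simp only [one_pow, Finset.sum_const, Finset.card_range, nsmul_eq_mul, mul_one]
      ring
    rw [← h7, ZMod.val_natCast]
    conv_lhs => rw [← Nat.div_add_mod ((cs π a).val * ∑ i ∈ Finset.range r, q ^ i) 3]
    rw [pow_add, pow_mul, hc3, one_pow, one_mul]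
  apply hom_inj (fw f) h3 (chi_cube (fw f) h3 hfa) (Pool.Agent.Y715.T.Rec.w_pow_cube _)
  rw [chi_red, h6, map_pow, hom_w]

lemma X_f (hπ : Pq π) (hf : ∀ x, f x = 0 ↔ π ∣ x) (hr : (Fintype.card k : ℤ) = nr π ^ r)
    (h3 : (3 : k) ≠ 0) {a : Ei} (ha : ¬ π ∣ a) (b : Bool) :
    (Y (fw f) h3 b)⁻¹ (f a) = tw (-(sg b * cs π a)) ^ r := by
  have h1 : X (fw f) h3 (f a) = tw (cs π a) ^ r := by
    rw [X_apply, chi_f hπ hf hr h3 ha, map_pow, ← tw_mul]
    rfl
  have hfa : f a ≠ 0 := fun h => ha ((hf a).1 h)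
  rw [Yinv_apply]
  cases b
  · have e : sg false = -1 := rfl
    rw [if_neg (by decide), h1, e, neg_one_mul, neg_neg]
  · have e : sg true = 1 := rfl
    rw [if_pos rfl, e, one_mul]
    have h2 : X (fw f) h3 (f a) * (X (fw f) h3)⁻¹ (f a) = 1 := by
      rw [← MulChar.mul_apply, mul_inv_cancel, MulChar.one_apply (isUnit_iff_ne_zero.2 hfa)]
    have h4 : X (fw f) h3 (f a) * tw (-cs π a) ^ r = 1 := by
      rw [h1, ← mul_pow, tw_neg, one_pow]
    have h5 : X (fw f) h3 (f a) ≠ 0 := left_ne_zero_of_mul_eq_one h2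
    exact mul_left_cancel₀ h5 (by rw [h2, h4])

/-- **The number of the zeros.** -/
theorem count_zeros {m : ℕ} (hm : m = 3 ∨ m = 5 ∨ m = 7) (hπ : Pq π)
    (hf : ∀ x, f x = 0 ↔ π ∣ x) (hr : (Fintype.card k : ℤ) = nr π ^ r)
    (a : Fin m → Ei) (ha : ∀ i, ¬ π ∣ a i) :
    (Nat.card {x : Fin m → k // ∑ i, f (a i) * x i ^ 3 = 0} : ℂ) =
      1 + ((Fintype.card k : ℂ) - 1) * (∑ i ∈ Finset.range (m - 1), (Fintype.card k : ℂ) ^ i -
        ∑ e ∈ TT m, al π a e ^ r) := by
  have h3 : (3 : k) ≠ 0 := f_three hπ hf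
  have h1 := count_gauss (fw f) h3 (m := m) (by omega) (fun i => f (a i))
    (fun i h => ha i ((hf _).1 h))
  set ψ := AddChar.FiniteField.primitiveChar_to_Complex k with hψd
  have hψ : ψ.IsPrimitive := AddChar.FiniteField.primitiveChar_to_Complex_isPrimitive k
  set Q : ℂ := (Fintype.card k : ℂ) with hQd
  have hQ0 : Q ≠ 0 := by
    rw [hQd]
    exact_mod_cast Fintype.card_ne_zero
  have hQr : Q = ((nr π : ℤ) : ℂ) ^ r := by
    rw [hQd]
    have := congrArg (fun x : ℤ => (x : ℂ)) hr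
    push_cast at this
    exact this
  have hJ := jac_pow hπ hf hr h3
  have hJ1 : toC (Jc (fw f) h3) = -toC π ^ r := by rw [hJ, map_neg, map_pow]
  have h2 : ∀ e ∈ TT m, (∏ i, (Y (fw f) h3 (e i))⁻¹ (f (a i))) *
      (gaussSum (Y (fw f) h3 true) ψ ^ nt e * gaussSum (Y (fw f) h3 false) ψ ^ nf e) =
      -Q * al π a e ^ r := by
    intro e he
    have he' : 3 ∣ 2 * nt e + nf e := (Finset.mem_filter.1 he).2
    have h4 := nt_add e
    have h5 : ∏ i, (Y (fw f) h3 (e i))⁻¹ (f (a i)) = tw (ce π a e) ^ r := by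
      rw [Finset.prod_congr rfl fun i _ => X_f hπ hf hr h3 (ha i) (e i), Finset.prod_pow]
      unfold ce
      rw [← Finset.sum_neg_distrib, tw_sum]
    have h6 := gauss_prod (fw f) h3 hψ
    have h7 := gauss_cube (fw f) h3 hψ
    have h8 := gauss_cube' (fw f) h3 hψ
    rw [hJ1] at h7 h8
    rw [map_neg, map_pow] at h8
    rw [h5]
    unfold al
    rw [mul_pow, mul_pow, ← pow_mul, mul_comm ((m - 3) / 2) r, pow_mul, ← hQr]
    by_cases hlt : nf e < nt e
    · have h9 : nt e = 3 + nf e := by omega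
      have h10 : (m - 3) / 2 = nf e := by omega
      rw [if_pos hlt, h9, h10, pow_add, h7, mul_assoc, ← mul_pow, h6]
      ring
    · have h9 : nf e = 3 + nt e := by omega
      have h10 : (m - 3) / 2 = nt e := by omega
      rw [if_neg hlt, h9, h10, pow_add, h8]
      have h11 : gaussSum (Y (fw f) h3 true) ψ ^ nt e *
          (Q * -(starRingEnd ℂ) (toC π) ^ r * gaussSum (Y (fw f) h3 false) ψ ^ nt e) =
          Q * -(starRingEnd ℂ) (toC π) ^ r * (gaussSum (Y (fw f) h3 true) ψ *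
            gaussSum (Y (fw f) h3 false) ψ) ^ nt e := by
        rw [mul_pow]
        ring
      rw [h11, h6]
      ring
  have h3' : Q * (Nat.card {x : Fin m → k // ∑ i, f (a i) * x i ^ 3 = 0} : ℂ) =
      Q ^ m + (Q - 1) * ∑ e ∈ TT m, -Q * al π a e ^ r := by
    rw [h1]
    congr 2
    exact Finset.sum_congr rfl h2
  have hgeo : (Q - 1) * ∑ i ∈ Finset.range (m - 1), Q ^ i = Q ^ (m - 1) - 1 := by
    rw [mul_comm, geom_sum_mul]
  apply mul_left_cancel₀ hQ0
  rw [h3', ← Finset.mul_sum]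
  have hmm : Q ^ m = Q * Q ^ (m - 1) := by
    rw [← pow_succ']
    congr 1
    omega
  rw [hmm]
  linear_combination -Q * hgeo

end ext

end Pool.Agent.H451.BB
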