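import Mathlib
import Pool.Agent.H451.BB.Zeta

/-!
# The number of the points of `y² + d y = x³` over the extensions of the residue fields
-/

set_option autoImplicit false
set_option linter.unusedSectionVars false

namespace Pool.Agent.H451.BB

open Pool.Agent.Y692.QS hiding chi Jc Jc_nr chi_red chi_neg_one
open Pool.Agent.Y715.T.Cub
open Pool.Agent.Y715.T.RecG (Pq)
open Pool.Agent.Y715.T.Rec (cs nn)
open scoped Classical

section fld

variable {k : Type} [Field k] [Fintype k] {z : k} (hz : z * z = -1 - z) (h3 : (3 : k) ≠ 0)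

lemma X_inv_conj (t : k) : (X hz h3)⁻¹ t = (starRingEnd ℂ) (X hz h3 t) := by
  by_cases ht : t = 0
  · subst ht
    rw [MulChar.map_zero, MulChar.map_zero, map_zero]
  · have h1 : X hz h3 t * (X hz h3)⁻¹ t = 1 := by
      rw [← MulChar.mul_apply, mul_inv_cancel, MulChar.one_apply (isUnit_iff_ne_zero.2 ht)]
    have h2 : ‖X hz h3 t‖ = 1 := by
      have h4 := X_cube hz h3 ht
      exact Complex.norm_eq_one_of_pow_eq_one h4 (by norm_num)
    have h4 : X hz h3 t * (starRingEnd ℂ) (X hz h3 t) = 1 := by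
      rw [Complex.mul_conj, Complex.normSq_eq_norm_sq, h2]
      norm_num
    have h5 : X hz h3 t ≠ 0 := left_ne_zero_of_mul_eq_one h1
    exact mul_left_cancel₀ h5 (by rw [h1, h4])

/-- the number of the affine points of `y² + d y = x³` -/
lemma ec_count {d : k} (hd : d ≠ 0) :
    (Nat.card {p : k × k // p.2 ^ 2 + d * p.2 = p.1 ^ 3} : ℂ) =
      (Fintype.card k : ℂ) + ((X hz h3)⁻¹ d * toC (Jc hz h3) +
        (starRingEnd ℂ) ((X hz h3)⁻¹ d * toC (Jc hz h3))) := by
  have h1 : (Nat.card {p : k × k // p.2 ^ 2 + d * p.2 = p.1 ^ 3} : ℂ) =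
      ∑ y : k, ((Finset.univ.filter fun x : k => x ^ 3 = y ^ 2 + d * y).card : ℂ) := by
    have e : {p : k × k // p.2 ^ 2 + d * p.2 = p.1 ^ 3} ≃
        (Σ y : k, {x : k // x ^ 3 = y ^ 2 + d * y}) :=
      { toFun := fun p => ⟨p.1.2, p.1.1, p.2.symm⟩
        invFun := fun q => ⟨(q.2.1, q.1), q.2.2.symm⟩
        left_inv := fun p => rfl
        right_inv := fun q => rfl }
    rw [Nat.card_congr e, Nat.card_sigma]
    push_cast
    refine Finset.sum_congr rfl fun y _ => ?_
    rw [Nat.card_eq_fintype_card, Fintype.card_subtype]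
  have h2 : ∑ y : k, X hz h3 (y ^ 2 + d * y) = (X hz h3)⁻¹ d * toC (Jc hz h3) := by
    have hJ : toC (Jc hz h3) = ∑ u : k, X hz h3 (u * (1 - u)) := by
      have h4 : jacobiSum (X hz h3) (X hz h3) = toC (Jc hz h3) := jacobiSum_ringHomComp _ _ toC
      rw [← h4]
      unfold jacobiSum
      exact Finset.sum_congr rfl fun u _ => (map_mul (X hz h3) _ _).symm
    rw [hJ, Finset.mul_sum]
    have hb : Function.Bijective fun u : k => -d * u := by
      refine Finite.injective_iff_bijective.1 fun u v h => ?_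
      exact mul_left_cancel₀ (neg_ne_zero.2 hd) h
    rw [← hb.sum_comp fun y => X hz h3 (y ^ 2 + d * y)]
    refine Finset.sum_congr rfl fun u _ => ?_
    have h5 : (-d * u) ^ 2 + d * (-d * u) = (-1) * (d ^ 2 * (u * (1 - u))) := by ring
    rw [h5, map_mul, map_mul, X_neg_one, one_mul, map_pow, X_inv, MulChar.pow_apply' _ two_ne_zero]
  have h4 : ∑ y : k, (X hz h3)⁻¹ (y ^ 2 + d * y) =
      (starRingEnd ℂ) ((X hz h3)⁻¹ d * toC (Jc hz h3)) := by
    rw [← h2, map_sum]
    exact Finset.sum_congr rfl fun y _ => X_inv_conj hz h3 _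
  rw [h1, Finset.sum_congr rfl fun y _ => nroots hz h3 (y ^ 2 + d * y), Finset.sum_add_distrib,
    Finset.sum_add_distrib, h2, h4, Finset.sum_const, Finset.card_univ, nsmul_eq_mul, mul_one]
  ring

end fld

section ext

variable {π : Ei} {k : Type} [Field k] [Fintype k] {f : Ei →+* k} {r : ℕ}

/-- the number of the affine points of `y² + d y = x³` -/
theorem ec_zeros (hπ : Pq π) (hf : ∀ x, f x = 0 ↔ π ∣ x) (hr : (Fintype.card k : ℤ) = nr π ^ r)
    {d : Ei} (hd : ¬ π ∣ d) :
    (Nat.card {p : k × k // p.2 ^ 2 + f d * p.2 = p.1 ^ 3} : ℂ) =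
      (Fintype.card k : ℂ) - ((tw (-cs π d) * toC π) ^ r +
        (starRingEnd ℂ) (tw (-cs π d) * toC π) ^ r) := by
  have h3 : (3 : k) ≠ 0 := f_three hπ hf
  have hfd : f d ≠ 0 := fun h => hd ((hf d).1 h)
  have h1 := X_f hπ hf hr h3 hd true
  have h2 : (Y (fw f) h3 true)⁻¹ = (X (fw f) h3)⁻¹ := rfl
  have h4 : -(sg true * cs π d) = -cs π d := by
    have e : sg true = 1 := rfl
    rw [e, one_mul]
  rw [h2, h4] at h1
  rw [ec_count (fw f) h3 hfd, h1, jac_pow hπ hf hr h3]
  simp only [map_mul, map_neg, map_pow]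
  ring

end ext

end Pool.Agent.H451.BB
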