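import Mathlib
import Pool.Graph.R_seed8.Y696.CTE.Fin
import Pool.Agent.H451.BB.Zeta

/-!
# The `L`-functions of the cubic twists, with both characters
-/

set_option autoImplicit false
set_option linter.unusedSectionVars false
set_option linter.unusedVariables false

namespace Pool.Agent.H451.BB

open NumberField IsDedekindDomain WeierstrassCurve
open Pool.Agent.W189.NF (aV eV)
open Pool.Agent.H921R2.TatePole (nm)
open Pool.Agent.Y696 (HBd LSeries_hasProd' E0)
open Pool.Agent.Y703.CT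
open Pool.Agent.Y696.CT
open Pool.Agent.Y696.CTK hiding toC_w
open Pool.Agent.Y692.QS hiding chi Jc Jc_nr chi_red chi_neg_one
open Pool.Agent.Y715.T.Rec (cs nn)
open Pool.Agent.Y715.T.RecG (Pq)
open scoped Classical

/-- the norm of a prime -/
noncomputable def Np (P : HeightOneSpectrum Ei) : ℂ := ((nr (gn P.asIdeal) : ℤ) : ℂ)

/-- the primary generator of a prime -/
noncomputable def rho (P : HeightOneSpectrum Ei) : Ei := ns (gn P.asIdeal)

/-- the prime above three -/
def Over3 (P : HeightOneSpectrum Ei) : Prop := (3 : ℤ) ∣ nr (gn P.asIdeal)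

lemma rho_pq {P : HeightOneSpectrum Ei} (h : ¬ Over3 P) : Pq (rho P) := pq_ns h

lemma rho_span {P : HeightOneSpectrum Ei} (h : ¬ Over3 P) : P.asIdeal = Ideal.span {rho P} :=
  span_ns h

lemma rho_nr {P : HeightOneSpectrum Ei} (h : ¬ Over3 P) : nr (rho P) = nr (gn P.asIdeal) := nr_ns h

/-- the value of the Hecke character of `y² + d y = x³` -/
noncomputable def xc (d : Ei) (P : HeightOneSpectrum Ei) : ℂ :=
  if Over3 P ∨ rho P ∣ d then 0 else tw (-cs (rho P) d) * toC (rho P)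

/-- the Euler factor -/
noncomputable def fac (d : Ei) (s : ℂ) (P : HeightOneSpectrum Ei) : ℂ :=
  (1 - xc d P * Np P ^ (-s)) * (1 - (starRingEnd ℂ) (xc d P) * Np P ^ (-s))

/-- the `L`-function exists and its central value is not zero -/
def PL (d : Ei) : Prop := ∃ L : ℂ → ℂ, Differentiable ℂ L ∧ L 1 ≠ 0 ∧
  ∀ s : ℂ, 3 / 2 < s.re → HasProd (fun P => (fac d s P)⁻¹) (L s)

lemma np_nonneg (P : HeightOneSpectrum Ei) : 0 ≤ nr (gn P.asIdeal) := nr_nonneg _

lemma conj_np (P : HeightOneSpectrum Ei) (z : ℂ) :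
    (starRingEnd ℂ) (Np P ^ z) = Np P ^ (starRingEnd ℂ) z := by
  unfold Np
  obtain ⟨n, hn⟩ := Int.eq_ofNat_of_zero_le (np_nonneg P)
  rw [hn]
  push_cast
  exact conj_nat_cpow' n z

lemma fI_gg {J : Type} [Fintype J] {π : J → Ei} {e : J → ZMod 3} (hdt : Dt π e) (s : ℂ)
    (P : HeightOneSpectrum Ei) :
    fI (gg π (fun j => -e j) s) P.asIdeal = xc (pD π e) P * Np P ^ (-s) := by
  by_cases h3 : Over3 P
  · have h3' : (3 : ℤ) ∣ nr (gn P.asIdeal) := h3
    unfold xc fI
    rw [if_pos h3', if_pos (Or.inl h3), zero_mul]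
  · have hs := rho_span h3
    have hpq := rho_pq h3
    rw [hs, fI_prim _ hpq.three]
    unfold gg xc Np
    rw [rho_nr h3]
    by_cases hD : rho P ∣ pD π e
    · rw [if_pos (Or.inr hD), chD_bad hpq.prime hdt (Or.inl rfl) hD, mul_zero]
    · rw [if_neg (by rintro (h | h) <;> contradiction),
        chD_prime Pool.Agent.Y350.CT.rec hdt (Or.inl rfl) hpq hD]
      unfold tw
      ring

theorem pl_e {J : Type} [Fintype J] {π : J → Ei} {e : J → ZMod 3} (hdt : Dt π e) {F : ℂ → ℂ}
    (hF : IsHL π (fun j => -e j) F) (h1 : F 1 ≠ 0) : PL (pD π e) := by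
  refine ⟨fun s => F s * (starRingEnd ℂ) (F ((starRingEnd ℂ) s)), diff_conj hF.1, ?_, ?_⟩
  · simp only [map_one]
    exact mul_ne_zero h1 ((map_ne_zero _).2 h1)
  · intro s hs
    have hsc : 3 / 2 < ((starRingEnd ℂ) s).re := by rwa [Complex.conj_re]
    have h2 : HasSum (fun α : {α : Ei // (3 : Ei) ∣ α - 1} => gg π (fun j => -e j) s α) (F s) :=
      hF.2 s hs
    have h2' : HasSum (fun α : {α : Ei // (3 : Ei) ∣ α - 1} =>
        gg π (fun j => -e j) ((starRingEnd ℂ) s) α) (F ((starRingEnd ℂ) s)) := hF.2 _ hsc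
    have h3 := hasProd_Ei (gg_one hdt.pq _ s) (gg_mul hdt.pq _ s) h2
    have h4 := (hasProd_Ei (gg_one hdt.pq _ ((starRingEnd ℂ) s)) (gg_mul hdt.pq _ _) h2').map
      (starRingEnd ℂ) Complex.continuous_conj
    refine (h3.mul h4).congr_fun fun P => ?_
    unfold fac
    rw [Function.comp_apply, fI_gg hdt, fI_gg hdt, map_inv₀, map_sub, map_one, map_mul, conj_np,
      map_neg, Complex.conj_conj, mul_inv]

section one
variable {K : Type} [Field K] [NumberField K] [IsCyclotomicExtension {3} ℚ K]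

theorem pl_one (j : Ei ≃+* 𝓞 K) : PL 1 := by
  obtain ⟨L0, hd, hs0, h1⟩ := Pool.Agent.Y696.CTE.L0_ex (K := K) j
  have key : ∀ P : HeightOneSpectrum Ei,
      HBd (aV (ED (j 1 : K)) (pK j P)) (eV (ED (j 1 : K)) (pK j P)) (nm (pK j P)) ∧
      ∀ s : ℂ, 1 - (aV (ED (j 1 : K)) (pK j P) : ℂ) * (nm (pK j P) : ℂ) ^ (-s) +
        (eV (ED (j 1 : K)) (pK j P) : ℂ) * ((nm (pK j P) : ℂ) ^ (-s)) ^ 2 = fac 1 s P := by
    intro P
    by_cases h3 : Over3 P
    · obtain ⟨a1, a2⟩ := bad_three j h3 (D := 1) (by rw [sub_self]; exact dvd_zero _)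
      refine ⟨Or.inl ⟨a1, a2⟩, fun s => ?_⟩
      rw [a1, a2]
      unfold fac xc
      rw [if_pos (Or.inl h3)]
      simp
    · have hpq := rho_pq h3
      have hnd : ¬ rho P ∣ 1 := fun h => hpq.prime.not_isUnit (isUnit_of_dvd_one h)
      have hsp : (pK j P).asIdeal = Ideal.span {j (rho P)} := pK_span j (rho_span h3)
      obtain ⟨v1, v2⟩ := good_val j hpq hsp hnd
      have hnm := nm_nr j hsp
      have hx : xc 1 P = toC (w ^ (-cs (rho P) 1).val * rho P) := by
        unfold xc tw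
        rw [if_neg (by rintro (h | h) <;> contradiction), map_mul, map_pow]
      have hxx : xc 1 P * (starRingEnd ℂ) (xc 1 P) = (nm (pK j P) : ℂ) := by
        rw [Complex.mul_conj, hx, toC_normSq, nr_mul]
        have h5 : nr (w ^ (-cs (rho P) 1).val) = 1 := by
          generalize -cs (rho P) 1 = c
          revert c
          decide
        rw [h5, one_mul, ← hnm]
        push_cast
        rfl
      have hN : (nm (pK j P) : ℂ) = Np P := by
        unfold Np
        rw [← rho_nr h3, ← hnm]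
        push_cast
        rfl
      refine ⟨Or.inr ⟨xc 1 P, ?_, ?_, hxx⟩, fun s => ?_⟩
      · rw [v1, hx]
      · rw [v2, hxx]
      · rw [v1, v2, ← hx, hN]
        unfold fac
        rw [hN] at hxx
        linear_combination -((Np P ^ (-s)) ^ 2) * hxx
  have hE : ∀ v : HeightOneSpectrum (𝓞 K), HBd (aV (ED (j 1 : K)) v)
      (eV (ED (j 1 : K)) v) (nm v) := by
    intro v
    obtain ⟨P, rfl⟩ := (eK j).surjective v
    exact (key P).1
  have e1 : ((j 1 : 𝓞 K) : K) = 1 := by rw [map_one]; rfl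
  refine ⟨L0, hd, h1, fun s hs => ?_⟩
  obtain ⟨h6, h7⟩ := LSeries_hasProd' (ED (j 1 : K)) hE hs
  have h8 := (eK j).hasProd_iff.2 h7
  have h9 : L0 s = (ED (j 1 : K)).LSeries s := by
    rw [e1]
    exact (hs0 s hs).2
  rw [h9]
  refine h8.congr_fun fun P => ?_
  exact (congrArg (·⁻¹) ((key P).2 s)).symm

end one

end Pool.Agent.H451.BB
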