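import Mathlib
import Pool.Agent.H451.BB.LF

/-!
# Removal of Euler factors and multiplication of the parameter by a cube
-/

set_option autoImplicit false
set_option linter.unusedSectionVars false
set_option linter.unusedVariables false

namespace Pool.Agent.H451.BB

open NumberField IsDedekindDomain WeierstrassCurve
open Pool.Agent.Y703.CT
open Pool.Agent.Y696.CT
open Pool.Agent.Y696.CTK hiding toC_w
open Pool.Agent.Y692.QS hiding chi Jc Jc_nr chi_red chi_neg_one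
open Pool.Agent.Y715.T.Rec (cs nn)
open Pool.Agent.Y715.T.RecG (Pq)
open scoped Classical

lemma np_two (P : HeightOneSpectrum Ei) : 2 ≤ nr (gn P.asIdeal) := by
  have hp := gn_prime P
  have h7 := nr_nonneg (gn P.asIdeal)
  have h8 : nr (gn P.asIdeal) ≠ 1 := Pool.Agent.Y715.T.Rec.not_unit hp
  have h9 : nr (gn P.asIdeal) ≠ 0 := fun h => hp.ne_zero (nr_zero_iff.1 h)
  omega

lemma xc_sq {d : Ei} {P : HeightOneSpectrum Ei} (h3 : ¬ Over3 P) (hd : ¬ rho P ∣ d) :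
    xc d P * (starRingEnd ℂ) (xc d P) = Np P := by
  have hx : xc d P = toC (w ^ (-cs (rho P) d).val * rho P) := by
    unfold xc tw
    rw [if_neg (by rintro (h | h) <;> contradiction), map_mul, map_pow]
  rw [Complex.mul_conj, hx, toC_normSq, nr_mul]
  have h5 : nr (w ^ (-cs (rho P) d).val) = 1 := by
    generalize -cs (rho P) d = c
    revert c
    decide
  rw [h5, one_mul, rho_nr h3]
  unfold Np
  push_cast
  rfl

lemma xc_norm (d : Ei) (P : HeightOneSpectrum Ei) :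
    ‖xc d P‖ ^ 2 ≤ ((nr (gn P.asIdeal) : ℤ) : ℝ) := by
  by_cases h : Over3 P ∨ rho P ∣ d
  · unfold xc
    rw [if_pos h, norm_zero]
    have := np_nonneg P
    have h2 : (0 : ℝ) ≤ ((nr (gn P.asIdeal) : ℤ) : ℝ) := by exact_mod_cast this
    simpa using h2
  · rw [not_or] at h
    have h1 := xc_sq h.1 h.2
    rw [Complex.mul_conj, Complex.normSq_eq_norm_sq] at h1
    unfold Np at h1
    have h2 : ‖xc d P‖ ^ 2 = ((nr (gn P.asIdeal) : ℤ) : ℝ) := by exact_mod_cast h1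
    exact h2.le

lemma np_norm (P : HeightOneSpectrum Ei) (s : ℂ) :
    ‖Np P ^ (-s)‖ = ((nr (gn P.asIdeal) : ℤ) : ℝ) ^ (-s.re) := by
  unfold Np
  have h2 := np_two P
  have h3 : (0 : ℝ) < ((nr (gn P.asIdeal) : ℤ) : ℝ) := by
    have : (0 : ℤ) < nr (gn P.asIdeal) := by omega
    exact_mod_cast this
  have h4 := Complex.norm_cpow_eq_rpow_re_of_pos h3 (-s)
  rw [Complex.neg_re] at h4
  rw [← h4]
  push_cast
  rfl

lemma small {P : HeightOneSpectrum Ei} {x s : ℂ} (hs : 1 ≤ s.re)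
    (hx : ‖x‖ ^ 2 ≤ ((nr (gn P.asIdeal) : ℤ) : ℝ)) : 1 - x * Np P ^ (-s) ≠ 0 := by
  intro h
  have h1 : x * Np P ^ (-s) = 1 := (sub_eq_zero.1 h).symm
  have h2 : ‖x‖ * ((nr (gn P.asIdeal) : ℤ) : ℝ) ^ (-s.re) = 1 := by
    rw [← np_norm, ← norm_mul, h1, norm_one]
  set N : ℝ := ((nr (gn P.asIdeal) : ℤ) : ℝ) with hN
  have hN2 : (2 : ℝ) ≤ N := by
    rw [hN]
    exact_mod_cast np_two P
  have h3 : N ^ (-s.re) ≤ N⁻¹ := by
    rw [← Real.rpow_neg_one]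
    exact Real.rpow_le_rpow_of_exponent_le (by linarith) (by linarith)
  have h4 : 0 ≤ N ^ (-s.re) := Real.rpow_nonneg (by linarith) _
  have h5 : (‖x‖ * N ^ (-s.re)) ^ 2 ≤ N * (N⁻¹) ^ 2 := by
    rw [mul_pow]
    exact mul_le_mul hx (pow_le_pow_left₀ h4 h3 2) (sq_nonneg _) (by linarith)
  rw [h2] at h5
  have h6 : N * (N⁻¹) ^ 2 = N⁻¹ := by
    field_simp
  rw [h6] at h5
  have h7 : N⁻¹ ≤ 2⁻¹ := inv_anti₀ (by norm_num) hN2
  norm_num at h5 h7
  linarith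

lemma fac_ne {d : Ei} {s : ℂ} {P : HeightOneSpectrum Ei} (hs : 1 ≤ s.re) : fac d s P ≠ 0 := by
  unfold fac
  refine mul_ne_zero (small hs (xc_norm d P)) (small hs ?_)
  rw [RCLike.norm_conj]
  exact xc_norm d P

lemma fac_diff (d : Ei) (P : HeightOneSpectrum Ei) : Differentiable ℂ fun s => fac d s P := by
  have h0 : Np P ≠ 0 := by
    unfold Np
    have := np_two P
    have h : nr (gn P.asIdeal) ≠ 0 := by omega
    exact_mod_cast h
  have h1 : Differentiable ℂ fun s : ℂ => Np P ^ (-s) := by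
    intro s
    exact (differentiableAt_id.neg).const_cpow (Or.inl h0)
  unfold fac
  fun_prop

/-- removal of finitely many factors -/
theorem rem {d : Ei} (h : PL d) (S : Finset (HeightOneSpectrum Ei)) :
    ∃ L : ℂ → ℂ, Differentiable ℂ L ∧ L 1 ≠ 0 ∧ ∀ s : ℂ, 3 / 2 < s.re →
      HasProd (fun P : {P // P ∉ S} => (fac d s P.1)⁻¹) (L s) := by
  obtain ⟨L, h1, h2, h3⟩ := h
  refine ⟨fun s => L s * ∏ P ∈ S, fac d s P,
    h1.mul (Differentiable.fun_finsetProd fun P _ => fac_diff d P),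
    mul_ne_zero h2 (Finset.prod_ne_zero_iff.2 fun P _ => fac_ne (by rw [Complex.one_re])),
    fun s hs => ?_⟩
  have h4 := h3 s hs
  have h5 : HasProd (fun P => if P ∈ S then fac d s P else 1) (∏ P ∈ S, fac d s P) := by
    have h6 := hasProd_prod_of_ne_finset_one (f := fun P => if P ∈ S then fac d s P else 1)
      (s := S) (L := SummationFilter.unconditional _) (fun P hP => if_neg hP)
    have h7 : ∏ P ∈ S, (if P ∈ S then fac d s P else 1) = ∏ P ∈ S, fac d s P :=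
      Finset.prod_congr rfl fun P hP => if_pos hP
    rwa [h7] at h6
  have h8 := h4.mul h5
  have h9 : Function.mulSupport (fun P => (fac d s P)⁻¹ * (if P ∈ S then fac d s P else 1)) ⊆
      {P | P ∉ S} := by
    intro P hP hPS
    apply hP
    have hPS' : P ∈ S := hPS
    show (fac d s P)⁻¹ * (if P ∈ S then fac d s P else 1) = 1
    rw [if_pos hPS', inv_mul_cancel₀ (fac_ne (by linarith))]
  have h10 := (hasProd_subtype_iff_of_mulSupport_subset h9).2 h8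
  refine h10.congr_fun fun P => ?_
  show (fac d s P.1)⁻¹ = (fac d s P.1)⁻¹ * (if P.1 ∈ S then fac d s P.1 else 1)
  rw [if_neg P.2, mul_one]

/-- the cubic residue symbol only depends on the parameter up to cubes -/
lemma cs_cube {ρ D d b c : Ei} (hρ : Pq ρ) (hd : ¬ ρ ^ 3 ∣ d) (hb : b ≠ 0) (hc : c ≠ 0)
    (h : b ^ 3 * D = c ^ 3 * d) (hD : ¬ ρ ∣ D) : ¬ ρ ∣ d ∧ cs ρ D = cs ρ d := by
  have hp := hρ.prime
  obtain ⟨k, b', hb', hbk⟩ := WfDvdMonoid.max_power_factor hb hp.irreducible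
  obtain ⟨l, c', hc', hcl⟩ := WfDvdMonoid.max_power_factor hc hp.irreducible
  have h0 : ∀ n : ℕ, ρ ^ n ≠ 0 := fun n => pow_ne_zero n hp.ne_zero
  have hcop : ∀ {x : Ei}, ¬ ρ ∣ x → ∀ {y : Ei} {n : ℕ}, ρ ^ n ∣ x * y → ρ ^ n ∣ y :=
    fun hx _ n hxy => hp.pow_dvd_of_dvd_mul_left n hx hxy
  have hcube : ∀ {x : Ei}, ¬ ρ ∣ x → ¬ ρ ∣ x ^ 3 := fun hx h => hx (hp.dvd_of_dvd_pow h)
  have h1 : ρ ^ (3 * k) * (b' ^ 3 * D) = ρ ^ (3 * l) * (c' ^ 3 * d) := by
    rw [hbk, hcl] at h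
    have e1 : (ρ ^ k * b') ^ 3 * D = ρ ^ (3 * k) * (b' ^ 3 * D) := by ring
    have e2 : (ρ ^ l * c') ^ 3 * d = ρ ^ (3 * l) * (c' ^ 3 * d) := by ring
    rw [← e1, ← e2]
    exact h
  have hkl : k = l := by
    rcases lt_trichotomy k l with hlt | heq | hlt
    · exfalso
      obtain ⟨m, rfl⟩ := Nat.exists_eq_add_of_lt hlt
      have e : ρ ^ (3 * (k + m + 1)) = ρ ^ (3 * k) * (ρ ^ (3 * m + 3)) := by ring
      rw [e, mul_assoc] at h1
      have h2 := mul_left_cancel₀ (h0 _) h1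
      have h3 : ρ ^ 1 ∣ b' ^ 3 * D := by
        rw [h2]
        exact Dvd.dvd.mul_right (pow_dvd_pow ρ (by omega)) _
      have h4 := hcop (hcube hb') h3
      rw [pow_one] at h4
      exact hD h4
    · exact heq
    · exfalso
      obtain ⟨m, rfl⟩ := Nat.exists_eq_add_of_lt hlt
      have e : ρ ^ (3 * (l + m + 1)) = ρ ^ (3 * l) * (ρ ^ (3 * m + 3)) := by ring
      rw [e, mul_assoc] at h1
      have h2 := mul_left_cancel₀ (h0 _) h1
      have h3 : ρ ^ 3 ∣ c' ^ 3 * d := by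
        rw [← h2]
        exact Dvd.dvd.mul_right (pow_dvd_pow ρ (by omega)) _
      exact hd (hcop (hcube hc') h3)
  subst hkl
  have h2 := mul_left_cancel₀ (h0 _) h1
  have hnd : ¬ ρ ∣ d := by
    intro h3
    have h4 : ρ ^ 1 ∣ b' ^ 3 * D := by
      rw [h2, pow_one]
      exact Dvd.dvd.mul_left h3 _
    have h5 := hcop (hcube hb') h4
    rw [pow_one] at h5
    exact hD h5
  refine ⟨hnd, ?_⟩
  have h3 := congrArg (cs ρ) h2
  rw [Pool.Agent.Y715.T.RecG.cs_mul hp hρ.norm (hcube hb') hD,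
    Pool.Agent.Y715.T.RecG.cs_mul hp hρ.norm (hcube hc') hnd,
    Pool.Agent.Y715.T.RecG.cs_pow hp hρ.norm hb', Pool.Agent.Y715.T.RecG.cs_pow hp hρ.norm hc'] at h3
  have e3 : ((3 : ℕ) : ZMod 3) = 0 := by decide
  rwa [e3, zero_mul, zero_mul, zero_add, zero_add] at h3

/-- the values of the characters -/
lemma xc_cube {D d b c : Ei} {P : HeightOneSpectrum Ei} (h3 : ¬ Over3 P)
    (hd : ¬ rho P ^ 3 ∣ d) (hb : b ≠ 0) (hc : c ≠ 0)
    (h : b ^ 3 * D = c ^ 3 * d) (hD : ¬ rho P ∣ D) : xc D P = xc d P := by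
  obtain ⟨h1, h2⟩ := cs_cube (rho_pq h3) hd hb hc h hD
  unfold xc
  rw [if_neg (by rintro (h | h) <;> contradiction), if_neg (by rintro (h | h) <;> contradiction),
    h2]

/-- the `L`-function of the parameter `D` -/
theorem rem_cube {D d b c : Ei} (hd : ∀ ρ : Ei, Prime ρ → ¬ ρ ^ 3 ∣ d) (hb : b ≠ 0) (hc : c ≠ 0)
    (h : b ^ 3 * D = c ^ 3 * d) (hL : PL d) (S : Finset (HeightOneSpectrum Ei))
    (hS : ∀ P, P ∉ S → ¬ Over3 P ∧ ¬ rho P ∣ D) :
    ∃ L : ℂ → ℂ, Differentiable ℂ L ∧ L 1 ≠ 0 ∧ ∀ s : ℂ, 3 / 2 < s.re →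
      HasProd (fun P : {P // P ∉ S} => (fac D s P.1)⁻¹) (L s) := by
  obtain ⟨L, h1, h2, h3⟩ := rem hL S
  refine ⟨L, h1, h2, fun s hs => (h3 s hs).congr_fun fun P => ?_⟩
  obtain ⟨h4, h5⟩ := hS P.1 P.2
  unfold fac
  rw [xc_cube h4 (hd _ (rho_pq h4).prime) hb hc h h5]

/-- the exponents are at most two -/
lemma pD_cube {J : Type} [Fintype J] {π : J → Ei} {e : J → ZMod 3} (hdt : Dt π e) (ρ : Ei)
    (hρ : Prime ρ) : ¬ ρ ^ 3 ∣ pD π e := by
  intro h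
  have h1 : ρ ∣ pD π e := dvd_trans (dvd_pow_self ρ (by norm_num)) h
  unfold pD at h h1
  obtain ⟨i, -, hi⟩ := (hρ.dvd_finsetProd_iff _).1 h1
  have h2 : ρ ∣ π i := hρ.dvd_of_dvd_pow hi
  have h3 : Associated ρ (π i) := hρ.associated_of_dvd (hdt.pq i).prime h2
  have h4 : π i ^ 3 ∣ ∏ j, π j ^ (e j).val := dvd_trans (h3.symm.pow_pow).dvd h
  rw [← Finset.mul_prod_erase _ _ (Finset.mem_univ i)] at h4
  have h5 : ¬ π i ∣ ∏ j ∈ Finset.univ.erase i, π j ^ (e j).val := by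
    intro h6
    obtain ⟨k, hk, hk2⟩ := ((hdt.pq i).prime.dvd_finsetProd_iff _).1 h6
    exact hdt.nd k i (Finset.ne_of_mem_erase hk) ((hdt.pq i).prime.dvd_of_dvd_pow hk2)
  have h6 : π i ^ 3 ∣ π i ^ (e i).val :=
    (hdt.pq i).prime.pow_dvd_of_dvd_mul_right 3 h5 h4
  have h7 := (pow_dvd_pow_iff (hdt.pq i).prime.ne_zero (hdt.pq i).prime.not_isUnit).1 h6
  have h8 := ZMod.val_lt (e i)
  omega

lemma one_cube (ρ : Ei) (hρ : Prime ρ) : ¬ ρ ^ 3 ∣ 1 := fun h =>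
  hρ.not_isUnit (isUnit_of_dvd_one (dvd_trans (dvd_pow_self ρ (by norm_num)) h))

end Pool.Agent.H451.BB
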