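import Mathlib
import Pool.Agent.H451.BB.Rem

/-!
# The parameters of rank zero
-/

set_option autoImplicit false
set_option linter.unusedSectionVars false
set_option linter.unusedVariables false

namespace Pool.Agent.H451.BB

open NumberField IsDedekindDomain WeierstrassCurve
open Pool.Agent.Y703.CT
open Pool.Agent.Y696.CT
open Pool.Agent.Y696.CTK hiding toC_w
open Pool.Agent.Y692.QS hiding chi Jc Jc_nr chi_red chi_neg_one
open Pool.Agent.Y715.T.Rec (cs nn)
open Pool.Agent.Y715.T.RecG (Pq)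
open scoped Classical

/-- the basic parameters of rank zero -/
def Base (d : Ei) : Prop := d = 1 ∨ ∃ (n : ℕ) (π : Fin (n + 1) → Ei) (e : Fin (n + 1) → ZMod 3),
  Dt π e ∧ Ker π e ∧ ¬ (9 : ℤ) ∣ nr (pD π e) - 1 ∧ d = pD π e

section K
variable {K : Type} [Field K] [NumberField K] [IsCyclotomicExtension {3} ℚ K] (j : Ei ≃+* 𝓞 K)

theorem base_all {d : Ei} (h : Base d) : PL d ∧ (∀ ρ : Ei, Prime ρ → ¬ ρ ^ 3 ∣ d) ∧ d ≠ 0 ∧
    Finite (ED (j d : K)).toAffine.Point := by
  rcases h with rfl | ⟨n, π, e, hdt, hk, h9, rfl⟩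
  · refine ⟨pl_one j, one_cube, one_ne_zero, ?_⟩
    have e1 : ((j 1 : 𝓞 K) : K) = 1 := by rw [map_one]; rfl
    rw [e1]
    exact Pool.Agent.Y696.CTE.fin_one
  · have hne : pD π e ≠ 0 := Pool.Agent.Y153.CTRAM.ne_zero_of hdt
    obtain ⟨F, hF, hF1⟩ := Pool.Agent.Y696.CTE.val_ne hdt hk h9
    exact ⟨pl_e hdt hF hF1, pD_cube hdt, hne,
      (parts.mwt parts.trf K j _ hne fun i₀ hi u a hT => (descK hdt hk h9 hT).2).1⟩

end K

section pts
variable {K : Type} [Field K]

lemma ED_Δ (D : K) : (ED D).Δ = -27 * D ^ 4 := by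
  simp only [ED, WeierstrassCurve.Δ, WeierstrassCurve.b₂, WeierstrassCurve.b₄,
    WeierstrassCurve.b₆, WeierstrassCurve.b₈]
  ring

lemma ED_eq (D x y : K) : (ED D).toAffine.Equation x y ↔ y ^ 2 + D * y = x ^ 3 := by
  rw [Affine.equation_iff]
  simp only [ED]
  constructor
  · intro h
    linear_combination h
  · intro h
    linear_combination h

/-- the points of the twist by a cube -/
theorem fin_twist [CharZero K] {D d t : K} (ht : t ≠ 0) (hd : d ≠ 0) (h : D = t ^ 3 * d)
    (hf : Finite (ED d).toAffine.Point) : Finite (ED D).toAffine.Point := by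
  have hΔ : (ED d).Δ ≠ 0 := by
    rw [ED_Δ]
    exact mul_ne_zero (by norm_num) (pow_ne_zero 4 hd)
  have hmap : ∀ x y : K, (ED D).toAffine.Equation x y →
      (ED d).toAffine.Nonsingular (x / t ^ 2) (y / t ^ 3) := by
    intro x y hxy
    rw [← Affine.equation_iff_nonsingular_of_Δ_ne_zero hΔ, ED_eq]
    rw [ED_eq, h] at hxy
    have h2 : t ^ 6 ≠ 0 := pow_ne_zero 6 ht
    field_simp
    linear_combination hxy
  let φ : (ED D).toAffine.Point → (ED d).toAffine.Point := fun P =>
    match P with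
    | .zero => .zero
    | .some x y hxy => .some (x / t ^ 2) (y / t ^ 3) (hmap x y hxy.1)
  refine Finite.of_injective φ fun P Q hPQ => ?_
  rcases P with _ | ⟨x, y, hxy⟩ <;> rcases Q with _ | ⟨x', y', hxy'⟩
  · rfl
  · exact absurd hPQ (by simp [φ])
  · exact absurd hPQ (by simp [φ])
  · simp only [φ, Affine.Point.some.injEq] at hPQ
    obtain ⟨h1, h2⟩ := hPQ
    have h3 : x = x' := by
      have := (div_left_inj' (pow_ne_zero 2 ht)).1 h1
      exact this
    have h4 : y = y' := (div_left_inj' (pow_ne_zero 3 ht)).1 h2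
    subst h3 h4
    rfl

end pts

end Pool.Agent.H451.BB
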