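import Mathlib
import Pool.Agent.H451.BB.Ec

/-!
# Diagonal cubic forms in three, five or seven variables and elliptic curves
-/

set_option autoImplicit false
set_option linter.unusedSectionVars false

namespace Pool.Agent.H451.BB

open Pool.Agent.Y692.QS hiding chi Jc Jc_nr chi_red chi_neg_one
open Pool.Agent.Y715.T.Cub
open Pool.Agent.Y715.T.RecG (Pq)
open Pool.Agent.Y715.T.Rec (cs nn)
open scoped Classical

/-- the parameters of the elliptic curves -/
def DD {R : Type} [CommRing R] {m : ℕ} (a : Fin m → R) (S : Finset (Fin m)) : R :=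
  (∏ i, a i) * ∏ i ∈ S, a i

lemma DD_map {R T : Type} [CommRing R] [CommRing T] (f : R →+* T) {m : ℕ} (a : Fin m → R)
    (S : Finset (Fin m)) : DD (fun i => f (a i)) S = f (DD a S) := by
  unfold DD
  rw [map_mul, map_prod, map_prod]

/-- the types of the sets -/
noncomputable def e1 {m : ℕ} (S : Finset (Fin m)) : Fin m → Bool := fun i => decide (i ∉ S)

/-- the types of the sets -/
noncomputable def e2 {m : ℕ} (S : Finset (Fin m)) : Fin m → Bool := fun i => decide (i ∈ S)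

lemma nf_e1 {m : ℕ} (S : Finset (Fin m)) : nf (e1 S) = S.card := by
  unfold nf e1
  congr 1
  ext i
  simp

lemma nt_e1 {m : ℕ} (S : Finset (Fin m)) : nt (e1 S) = m - S.card := by
  have := nt_add (e1 S)
  rw [nf_e1] at this
  omega

lemma nt_e2 {m : ℕ} (S : Finset (Fin m)) : nt (e2 S) = S.card := by
  unfold nt e2
  congr 1
  ext i
  simp

lemma nf_e2 {m : ℕ} (S : Finset (Fin m)) : nf (e2 S) = m - S.card := by
  have := nt_add (e2 S)
  rw [nt_e2] at this
  omega

/-- the sum over the types -/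
lemma sum_types {m : ℕ} (hm : m = 3 ∨ m = 5 ∨ m = 7) (T : (Fin m → Bool) → ℂ) :
    ∑ e ∈ Finset.univ.filter (fun e : Fin m → Bool => 3 ∣ 2 * nt e + nf e), T e =
      ∑ S ∈ Finset.powersetCard ((m - 3) / 2) (Finset.univ : Finset (Fin m)),
        (T (e1 S) + T (e2 S)) := by
  rw [← Finset.sum_filter_add_sum_filter_not _ (fun e : Fin m → Bool => nf e < nt e),
    Finset.sum_add_distrib]
  congr 1
  · symm
    refine Finset.sum_bij (fun S _ => e1 S) (fun S hS => ?_) (fun S _ S' _ h => ?_)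
      (fun e he => ?_) (fun S _ => rfl)
    · have h1 := (Finset.mem_powersetCard.1 hS).2
      rw [Finset.mem_filter, Finset.mem_filter, nf_e1, nt_e1, h1]
      refine ⟨⟨Finset.mem_univ _, ?_⟩, ?_⟩
      · rcases hm with rfl | rfl | rfl <;> norm_num
      · rcases hm with rfl | rfl | rfl <;> norm_num
    · ext i
      have h1 := congrFun h i
      simp only [e1, decide_eq_decide] at h1
      exact not_iff_not.1 h1
    · have h1 := (Finset.mem_filter.1 he).2
      have h2 := (Finset.mem_filter.1 (Finset.mem_filter.1 he).1).2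
      have h3 := nt_add e
      refine ⟨Finset.univ.filter fun i => ¬ e i = true, ?_, ?_⟩
      · rw [Finset.mem_powersetCard]
        refine ⟨Finset.subset_univ _, ?_⟩
        have h4 : (Finset.univ.filter fun i => ¬ e i = true).card = nf e := rfl
        rw [h4]
        omega
      · funext i
        unfold e1
        cases h : e i <;> simp [h]
  · symm
    refine Finset.sum_bij (fun S _ => e2 S) (fun S hS => ?_) (fun S _ S' _ h => ?_)
      (fun e he => ?_) (fun S _ => rfl)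
    · have h1 := (Finset.mem_powersetCard.1 hS).2
      rw [Finset.mem_filter, Finset.mem_filter, nf_e2, nt_e2, h1]
      refine ⟨⟨Finset.mem_univ _, ?_⟩, ?_⟩
      · rcases hm with rfl | rfl | rfl <;> norm_num
      · rcases hm with rfl | rfl | rfl <;> norm_num
    · ext i
      have h1 := congrFun h i
      simp only [e2, decide_eq_decide] at h1
      exact h1
    · have h1 := (Finset.mem_filter.1 he).2
      have h2 := (Finset.mem_filter.1 (Finset.mem_filter.1 he).1).2
      have h3 := nt_add e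
      refine ⟨Finset.univ.filter fun i => e i = true, ?_, ?_⟩
      · rw [Finset.mem_powersetCard]
        refine ⟨Finset.subset_univ _, ?_⟩
        have h4 : (Finset.univ.filter fun i => e i = true).card = nt e := rfl
        rw [h4]
        omega
      · funext i
        unfold e2
        cases h : e i <;> simp [h]

section fld

variable {k : Type} [Field k] [Fintype k] {z : k} (hz : z * z = -1 - z) (h3 : (3 : k) ≠ 0)

lemma X_mul_self {t : k} (ht : t ≠ 0) : (X hz h3)⁻¹ t * (X hz h3)⁻¹ t = X hz h3 t := by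
  have h1 : X hz h3 t * (X hz h3)⁻¹ t = 1 := by
    rw [← MulChar.mul_apply, mul_inv_cancel, MulChar.one_apply (isUnit_iff_ne_zero.2 ht)]
  have h2 := X_cube hz h3 ht
  have h4 : X hz h3 t ^ 2 ≠ 0 := pow_ne_zero 2 (left_ne_zero_of_mul_eq_one h1)
  apply mul_left_cancel₀ h4
  have e : X hz h3 t ^ 2 * ((X hz h3)⁻¹ t * (X hz h3)⁻¹ t) =
    (X hz h3 t * (X hz h3)⁻¹ t) ^ 2 := by ring
  rw [e, h1, ← pow_succ, h2, one_pow]

lemma prod_e1 {m : ℕ} (a : Fin m → k) (ha : ∀ i, a i ≠ 0) (S : Finset (Fin m)) :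
    ∏ i, (Y hz h3 (e1 S i))⁻¹ (a i) = (X hz h3)⁻¹ (DD a S) := by
  unfold DD
  rw [map_mul, map_prod, map_prod]
  have h1 : ∏ i ∈ S, (X hz h3)⁻¹ (a i) = ∏ i, if i ∈ S then (X hz h3)⁻¹ (a i) else 1 := by
    rw [Finset.prod_ite_mem, Finset.univ_inter]
  rw [h1, ← Finset.prod_mul_distrib]
  refine Finset.prod_congr rfl fun i _ => ?_
  rw [Yinv_apply]
  unfold e1
  by_cases h : i ∈ S
  · rw [if_neg (by simp [h]), if_pos h, X_mul_self hz h3 (ha i)]
  · rw [if_pos (by simp [h]), if_neg h, mul_one]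

lemma prod_e2 {m : ℕ} (a : Fin m → k) (ha : ∀ i, a i ≠ 0) (S : Finset (Fin m)) :
    ∏ i, (Y hz h3 (e2 S i))⁻¹ (a i) = (starRingEnd ℂ) ((X hz h3)⁻¹ (DD a S)) := by
  rw [← prod_e1 hz h3 a ha, map_prod]
  refine Finset.prod_congr rfl fun i _ => ?_
  rw [Yinv_apply, Yinv_apply]
  unfold e1 e2
  by_cases h : i ∈ S
  · rw [if_pos (by simp [h]), if_neg (by simp [h]), X_inv_conj]
  · rw [if_neg (by simp [h]), if_pos (by simp [h]), X_inv_conj, Complex.conj_conj]

include hz h3 in
/-- **The number of the zeros of the form and the numbers of the points of the curves.** -/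
theorem link {m : ℕ} (hm : m = 3 ∨ m = 5 ∨ m = 7) (a : Fin m → k) (ha : ∀ i, a i ≠ 0) :
    (Nat.card {x : Fin m → k // ∑ i, a i * x i ^ 3 = 0} : ℂ) =
      1 + ((Fintype.card k : ℂ) - 1) * (∑ i ∈ Finset.range (m - 1), (Fintype.card k : ℂ) ^ i -
        (Fintype.card k : ℂ) ^ ((m - 3) / 2) *
        ∑ S ∈ Finset.powersetCard ((m - 3) / 2) (Finset.univ : Finset (Fin m)),
          ((Fintype.card k : ℂ) -
            (Nat.card {p : k × k // p.2 ^ 2 + DD a S * p.2 = p.1 ^ 3} : ℂ))) := by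
  have h1 := count_gauss hz h3 (m := m) (by omega) a ha
  set ψ := AddChar.FiniteField.primitiveChar_to_Complex k with hψd
  have hψ : ψ.IsPrimitive := AddChar.FiniteField.primitiveChar_to_Complex_isPrimitive k
  set Q : ℂ := (Fintype.card k : ℂ) with hQd
  have hQ0 : Q ≠ 0 := by
    rw [hQd]
    exact_mod_cast Fintype.card_ne_zero
  have h6 := gauss_prod hz h3 hψ
  have h7 := gauss_cube hz h3 hψ
  have h8 := gauss_cube' hz h3 hψ
  rw [sum_types hm] at h1
  have h2 : ∀ S ∈ Finset.powersetCard ((m - 3) / 2) (Finset.univ : Finset (Fin m)),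
      ((∏ i, (Y hz h3 (e1 S i))⁻¹ (a i)) * (gaussSum (Y hz h3 true) ψ ^ nt (e1 S) *
        gaussSum (Y hz h3 false) ψ ^ nf (e1 S)) + (∏ i, (Y hz h3 (e2 S i))⁻¹ (a i)) *
        (gaussSum (Y hz h3 true) ψ ^ nt (e2 S) * gaussSum (Y hz h3 false) ψ ^ nf (e2 S))) =
      -(Q * Q ^ ((m - 3) / 2)) * (Q -
        (Nat.card {p : k × k // p.2 ^ 2 + DD a S * p.2 = p.1 ^ 3} : ℂ)) := by
    intro S hS
    have hc := (Finset.mem_powersetCard.1 hS).2
    have hd : DD a S ≠ 0 := mul_ne_zero (Finset.prod_ne_zero_iff.2 fun i _ => ha i)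
      (Finset.prod_ne_zero_iff.2 fun i _ => ha i)
    rw [prod_e1 hz h3 a ha, prod_e2 hz h3 a ha, nt_e1, nf_e1, nt_e2, nf_e2, hc]
    have h9 : m - (m - 3) / 2 = 3 + (m - 3) / 2 := by omega
    rw [h9, pow_add, pow_add, h7, h8, ec_count hz h3 hd]
    have h10 : gaussSum (Y hz h3 true) ψ ^ ((m - 3) / 2) *
        gaussSum (Y hz h3 false) ψ ^ ((m - 3) / 2) = Q ^ ((m - 3) / 2) := by
      rw [← mul_pow, h6]
    rw [map_mul]
    linear_combination (Q * ((X hz h3)⁻¹ (DD a S) * toC (Jc hz h3) +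
      (starRingEnd ℂ) ((X hz h3)⁻¹ (DD a S)) * (starRingEnd ℂ) (toC (Jc hz h3)))) * h10
  rw [Finset.sum_congr rfl h2, ← Finset.mul_sum] at h1
  have hgeo : (Q - 1) * ∑ i ∈ Finset.range (m - 1), Q ^ i = Q ^ (m - 1) - 1 := by
    rw [mul_comm, geom_sum_mul]
  apply mul_left_cancel₀ hQ0
  rw [h1]
  have hmm : Q ^ m = Q * Q ^ (m - 1) := by
    rw [← pow_succ']
    congr 1
    omega
  rw [hmm]
  linear_combination -Q * hgeo

end fld

section ext

variable {π : Ei} {k : Type} [Field k] [Fintype k] {f : Ei →+* k} {r : ℕ}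

/-- **The zeta function.** -/
theorem zeta {m : ℕ} (hm : m = 3 ∨ m = 5 ∨ m = 7) (hπ : Pq π)
    (hf : ∀ x, f x = 0 ↔ π ∣ x) (hr : (Fintype.card k : ℤ) = nr π ^ r)
    (a : Fin m → Ei) (ha : ∀ i, ¬ π ∣ a i) :
    (Nat.card {x : Fin m → k // ∑ i, f (a i) * x i ^ 3 = 0} : ℂ) =
      1 + ((Fintype.card k : ℂ) - 1) * (∑ i ∈ Finset.range (m - 1), (Fintype.card k : ℂ) ^ i -
        ∑ S ∈ Finset.powersetCard ((m - 3) / 2) (Finset.univ : Finset (Fin m)),
          ((((nr π : ℤ) : ℂ) ^ ((m - 3) / 2) * (tw (-cs π (DD a S)) * toC π)) ^ r +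
          (((nr π : ℤ) : ℂ) ^ ((m - 3) / 2) *
            (starRingEnd ℂ) (tw (-cs π (DD a S)) * toC π)) ^ r)) := by
  have h3 : (3 : k) ≠ 0 := f_three hπ hf
  have h1 := link (fw f) h3 hm (fun i => f (a i)) (fun i h => ha i ((hf _).1 h))
  rw [h1, Finset.mul_sum]
  congr 3
  refine Finset.sum_congr rfl fun S _ => ?_
  have hd : ¬ π ∣ DD a S := by
    unfold DD
    intro h
    rcases hπ.prime.dvd_or_dvd h with h2 | h2
    · obtain ⟨i, -, hi⟩ := (hπ.prime.dvd_finsetProd_iff _).1 h2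
      exact ha i hi
    · obtain ⟨i, -, hi⟩ := (hπ.prime.dvd_finsetProd_iff _).1 h2
      exact ha i hi
  have h2 : DD (fun i => f (a i)) S = f (DD a S) := DD_map f a S
  rw [h2, ec_zeros hπ hf hr hd]
  have hQr : (Fintype.card k : ℂ) = ((nr π : ℤ) : ℂ) ^ r := by
    have := congrArg (fun x : ℤ => (x : ℂ)) hr
    push_cast at this
    exact this
  have hN : (((nr π : ℤ) : ℂ) ^ ((m - 3) / 2)) ^ r = (Fintype.card k : ℂ) ^ ((m - 3) / 2) := by
    rw [← pow_mul, mul_comm ((m - 3) / 2) r, pow_mul, ← hQr]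
  generalize tw (-cs π (DD a S)) * toC π = x
  rw [mul_pow, mul_pow, hN]
  ring

end ext

end Pool.Agent.H451.BB
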