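import Mathlib
import Pool.Agent.H451.BB.Good
import Pool.Agent.H451.BB.Link

/-!
# The `L`-function of a diagonal cubic hypersurface
-/

set_option autoImplicit false
set_option linter.unusedSectionVars false
set_option linter.unusedVariables false

namespace Pool.Agent.H451.BB

open NumberField IsDedekindDomain WeierstrassCurve
open Pool.Agent.H921R2.TatePole (nm)
open Pool.Agent.Y703.CT
open Pool.Agent.Y696.CT
open Pool.Agent.Y696.CTK hiding toC_w
open Pool.Agent.Y692.QS hiding chi Jc Jc_nr chi_red chi_neg_one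
open Pool.Agent.Y715.T.Rec (cs nn)
open Pool.Agent.Y715.T.RecG (Pq)
open scoped Classical

/-- the good primes -/
def GoodP {m : ℕ} (a : Fin m → Ei) (P : HeightOneSpectrum Ei) : Prop :=
  ¬ Over3 P ∧ ∀ i, ¬ rho P ∣ a i

lemma three_mem {P : HeightOneSpectrum Ei} (h : Over3 P) : (3 : Ei) ∈ P.asIdeal := by
  rw [three_span h, Ideal.mem_span_singleton]
  exact ⟨-tht, by linear_combination tht_sq⟩

lemma bad_fin {m : ℕ} (a : Fin m → Ei) (ha : ∀ i, a i ≠ 0) :
    {P : HeightOneSpectrum Ei | ¬ GoodP a P}.Finite := by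
  have h0 : (3 : Ei) * ∏ i, a i ≠ 0 := by
    refine mul_ne_zero ?_ (Finset.prod_ne_zero_iff.2 fun i _ => ha i)
    decide
  have h1 : (Ideal.span {(3 : Ei) * ∏ i, a i} : Ideal Ei) ≠ 0 := by
    rw [Ne, Ideal.zero_eq_bot, Ideal.span_singleton_eq_bot]
    exact h0
  refine (Ideal.finite_factors h1).subset fun P hP => ?_
  show P.asIdeal ∣ _
  rw [Ideal.dvd_span_singleton]
  by_cases h3 : Over3 P
  · exact Ideal.mul_mem_right _ _ (three_mem h3)
  · have h2 : ∃ i, rho P ∣ a i := by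
      by_contra h
      push Not at h
      exact hP ⟨h3, h⟩
    obtain ⟨i, hi⟩ := h2
    refine Ideal.mul_mem_left _ _ ?_
    rw [rho_span h3, Ideal.mem_span_singleton]
    exact dvd_trans hi (Finset.dvd_prod_of_mem a (Finset.mem_univ i))

lemma DD_ndvd {m : ℕ} {a : Fin m → Ei} {ρ : Ei} (hρ : Prime ρ) (h : ∀ i, ¬ ρ ∣ a i)
    (S : Finset (Fin m)) : ¬ ρ ∣ DD a S := by
  unfold DD
  intro h1
  rcases hρ.dvd_or_dvd h1 with h2 | h2
  · obtain ⟨i, -, hi⟩ := (hρ.dvd_finsetProd_iff _).1 h2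
    exact h i hi
  · obtain ⟨i, -, hi⟩ := (hρ.dvd_finsetProd_iff _).1 h2
    exact h i hi

section K
variable {K : Type} [Field K] [NumberField K] [IsCyclotomicExtension {3} ℚ K] (j : Ei ≃+* 𝓞 K)

include j in
/-- the `L`-function, over the primes of the Eisenstein integers -/
theorem famE {m : ℕ} (hm : m = 3 ∨ m = 5 ∨ m = 7) (a : Fin m → Ei) (ha : ∀ i, a i ≠ 0)
    (h : ∀ S : Finset (Fin m), S.card = (m - 3) / 2 → ∃ d b c : Ei, Base d ∧ b ≠ 0 ∧ c ≠ 0 ∧
      b ^ 3 * DD a S = c ^ 3 * d) :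
    ∃ L : ℂ → ℂ, Differentiable ℂ L ∧ L (((m : ℂ) - 1) / 2) ≠ 0 ∧
      ∀ s : ℂ, (m : ℝ) / 2 < s.re → HasProd (fun P : {P // GoodP a P} =>
        ∏ S ∈ Finset.powersetCard ((m - 3) / 2) (Finset.univ : Finset (Fin m)),
          (fac (DD a S) (s - ((m - 3) / 2 : ℕ)) P.1)⁻¹) (L s) := by
  have hb := bad_fin a ha
  set B : Finset (HeightOneSpectrum Ei) := hb.toFinset with hB
  have hBm : ∀ P, P ∉ B ↔ GoodP a P := by
    intro P
    rw [hB, Set.Finite.mem_toFinset]
    exact not_not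
  have key : ∀ S : Finset (Fin m), ∃ L : ℂ → ℂ, S.card = (m - 3) / 2 → Differentiable ℂ L ∧
      L 1 ≠ 0 ∧ ∀ s : ℂ, 3 / 2 < s.re →
        HasProd (fun P : {P // P ∉ B} => (fac (DD a S) s P.1)⁻¹) (L s) := by
    intro S
    by_cases hS : S.card = (m - 3) / 2
    · obtain ⟨d, b, c, hd, hb0, hc0, hbc⟩ := h S hS
      obtain ⟨p1, p2, p3, -⟩ := base_all j hd
      obtain ⟨L, hL⟩ := rem_cube p2 hb0 hc0 hbc p1 B fun P hP => by
        obtain ⟨g1, g2⟩ := (hBm P).1 hP
        exact ⟨g1, DD_ndvd (rho_pq g1).prime g2 S⟩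
      exact ⟨L, fun _ => hL⟩
    · exact ⟨0, fun h => absurd h hS⟩
  choose L hL using key
  have hhR : (((m - 3) / 2 : ℕ) : ℂ) = ((m : ℂ) - 3) / 2 := by
    rcases hm with rfl | rfl | rfl <;> norm_num
  have hhR' : (((m - 3) / 2 : ℕ) : ℝ) = ((m : ℝ) - 3) / 2 := by
    rcases hm with rfl | rfl | rfl <;> norm_num
  refine ⟨fun s => ∏ S ∈ Finset.powersetCard ((m - 3) / 2) (Finset.univ : Finset (Fin m)),
    L S (s - ((m - 3) / 2 : ℕ)), ?_, ?_, fun s hs => ?_⟩
  · refine Differentiable.fun_finsetProd fun S hS => ?_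
    have h1 := (hL S (Finset.mem_powersetCard.1 hS).2).1
    exact h1.comp (differentiable_id.sub_const _)
  · refine Finset.prod_ne_zero_iff.2 fun S hS => ?_
    have h1 := (hL S (Finset.mem_powersetCard.1 hS).2).2.1
    have e : ((m : ℂ) - 1) / 2 - ((m - 3) / 2 : ℕ) = 1 := by
      rw [hhR]
      ring
    rw [e]
    exact h1
  · have h1 : HasProd (fun P : {P // P ∉ B} =>
        ∏ S ∈ Finset.powersetCard ((m - 3) / 2) (Finset.univ : Finset (Fin m)),
          (fac (DD a S) (s - ((m - 3) / 2 : ℕ)) P.1)⁻¹)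
        (∏ S ∈ Finset.powersetCard ((m - 3) / 2) (Finset.univ : Finset (Fin m)),
          L S (s - ((m - 3) / 2 : ℕ))) := by
      refine hasProd_prod fun S hS => ?_
      refine (hL S (Finset.mem_powersetCard.1 hS).2).2.2 _ ?_
      rw [Complex.sub_re, Complex.natCast_re, hhR']
      linarith
    set φ : HeightOneSpectrum Ei → ℂ := fun P =>
      ∏ S ∈ Finset.powersetCard ((m - 3) / 2) (Finset.univ : Finset (Fin m)),
          (fac (DD a S) (s - ((m - 3) / 2 : ℕ)) P)⁻¹ with hφ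
    have h1' : HasProd (fun P : {P // P ∉ B} => φ P.1)
        (∏ S ∈ Finset.powersetCard ((m - 3) / 2) (Finset.univ : Finset (Fin m)),
          L S (s - ((m - 3) / 2 : ℕ))) := h1
    have h2 := (Equiv.hasProd_iff (Equiv.subtypeEquivRight fun P => (hBm P).symm)
      (f := fun P : {P // P ∉ B} => φ P.1)).2 h1'
    exact h2

/-! ### The eigenvalues -/

/-- the eigenvalues of the Frobenius automorphism -/
noncomputable def ev {m : ℕ} (a : Fin m → Ei) (P : HeightOneSpectrum Ei)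
    (i : {S : Finset (Fin m) // S.card = (m - 3) / 2} × Bool) : ℂ :=
  Np P ^ ((m - 3) / 2) * if i.2 = true then xc (DD a i.1.1) P
    else (starRingEnd ℂ) (xc (DD a i.1.1) P)

lemma sum_sub {m : ℕ} {M : Type} [AddCommMonoid M] (F : Finset (Fin m) → M) :
    ∑ S ∈ Finset.powersetCard ((m - 3) / 2) (Finset.univ : Finset (Fin m)), F S =
      ∑ S : {S : Finset (Fin m) // S.card = (m - 3) / 2}, F S.1 := by
  refine Finset.sum_subtype _ (fun S => ?_) F
  rw [Finset.mem_powersetCard]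
  exact ⟨fun h => h.2, fun h => ⟨Finset.subset_univ _, h⟩⟩

lemma prod_sub {m : ℕ} {M : Type} [CommMonoid M] (F : Finset (Fin m) → M) :
    ∏ S ∈ Finset.powersetCard ((m - 3) / 2) (Finset.univ : Finset (Fin m)), F S =
      ∏ S : {S : Finset (Fin m) // S.card = (m - 3) / 2}, F S.1 := by
  refine Finset.prod_subtype _ (fun S => ?_) F
  rw [Finset.mem_powersetCard]
  exact ⟨fun h => h.2, fun h => ⟨Finset.subset_univ _, h⟩⟩

lemma ev_prod {m : ℕ} (a : Fin m → Ei) (P : HeightOneSpectrum Ei) (s : ℂ) :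
    ∏ i, (1 - ev a P i * Np P ^ (-s))⁻¹ =
      ∏ S ∈ Finset.powersetCard ((m - 3) / 2) (Finset.univ : Finset (Fin m)),
          (fac (DD a S) (s - ((m - 3) / 2 : ℕ)) P)⁻¹ := by
  rw [prod_sub, Fintype.prod_prod_type]
  refine Finset.prod_congr rfl fun S _ => ?_
  have h0 : Np P ≠ 0 := by
    unfold Np
    have := np_two P
    have h : nr (gn P.asIdeal) ≠ 0 := by omega
    exact_mod_cast h
  have h1 : Np P ^ (-(s - (((m - 3) / 2 : ℕ) : ℂ))) = Np P ^ ((m - 3) / 2) * Np P ^ (-s) := by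
    rw [neg_sub, sub_eq_add_neg, Complex.cpow_add _ _ h0, Complex.cpow_natCast]
  rw [Fintype.prod_bool]
  unfold ev fac
  rw [h1]
  simp only [if_true, Bool.false_eq_true, if_false]
  rw [← mul_inv]
  congr 1
  ring

/-- the numbers of the points -/
theorem ev_count {m : ℕ} (hm : m = 3 ∨ m = 5 ∨ m = 7) {a : Fin m → Ei}
    {P : HeightOneSpectrum Ei} (hP : GoodP a P) {F : Type} [Field F] [Fintype F] (f : Ei →+* F)
    {r : ℕ} (hf : ∀ x, f x = 0 ↔ x ∈ P.asIdeal)
    (hr : (Fintype.card F : ℤ) = nr (gn P.asIdeal) ^ r) :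
    (Nat.card {x : Fin m → F // ∑ i, f (a i) * x i ^ 3 = 0} : ℂ) =
      1 + ((Fintype.card F : ℂ) - 1) * (∑ i ∈ Finset.range (m - 1), (Fintype.card F : ℂ) ^ i -
        ∑ i, ev a P i ^ r) := by
  have hpq := rho_pq hP.1
  have hf' : ∀ x, f x = 0 ↔ rho P ∣ x := by
    intro x
    rw [hf, rho_span hP.1, Ideal.mem_span_singleton]
  rw [← rho_nr hP.1] at hr
  rw [zeta hm hpq hf' hr a hP.2, sum_sub, Fintype.sum_prod_type]
  congr 3
  refine Finset.sum_congr rfl fun S _ => ?_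
  have hx : xc (DD a S.1) P = tw (-cs (rho P) (DD a S.1)) * toC (rho P) := by
    unfold xc
    rw [if_neg]
    rintro (h | h)
    · exact hP.1 h
    · exact DD_ndvd hpq.prime hP.2 _ h
  have hN : Np P = ((nr (rho P) : ℤ) : ℂ) := by
    unfold Np
    rw [rho_nr hP.1]
  rw [Fintype.sum_bool]
  unfold ev
  simp only [if_true, Bool.false_eq_true, if_false]
  rw [hx, hN]

end K

end Pool.Agent.H451.BB
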