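import Mathlib
import Pool.Agent.H451.BB.Def
import Pool.Agent.H451.BB.Fam
import Pool.Graph.R_seed8.Y696.XL.Res

/-!
# The proofs for diagonal cubic threefolds and fivefolds
-/

set_option autoImplicit false
set_option linter.unusedVariables false
set_option linter.unusedSectionVars false

namespace Pool.Agent.H451.CubT

open NumberField IsDedekindDomain
open scoped Classical

/-! ### Proofs -/

open WeierstrassCurve
open Pool.Agent.H921R2.TatePole (nm)
open Pool.Agent.Y692.QS (Ei w toC nr)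
open Pool.Agent.Y715.T.RecG (Pq)
open Pool.Agent.Y703.CT
open Pool.Agent.Y696.CT
open Pool.Agent.Y696.CTK
open Pool.Agent.Y715.T.Rec (cs nn)
open Pool.Agent.H451.BB

lemma E_ED {K : Type} [Field K] (D : K) : E D = ED D := rfl

lemma DS_DD {R : Type} [CommRing R] {m : ℕ} (a : Fin m → R) (S : Finset (Fin m)) :
    DS a S = DD a S := rfl

section main
variable {K : Type} [Field K] [NumberField K] [IsCyclotomicExtension {3} ℚ K] (j : Ei ≃+* 𝓞 K)

include j in
lemma mot {m : ℕ} (hm : m = 3 ∨ m = 5 ∨ m = 7) (a : Fin m → 𝓞 K) : Mot a := by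
  intro F _ _ f h3 ha
  have hz : f (j w) * f (j w) = -1 - f (j w) := fw (f.comp (j : Ei →+* 𝓞 K))
  have h1 := link hz h3 hm (fun i => f (a i)) ha
  have h2 : ∀ S : Finset (Fin m), DD (fun i => f (a i)) S = f (DS a S) := fun S => DD_map f a S
  simp only [h2] at h1
  exact_mod_cast h1

/-- the Eisenstein side of a good parameter -/
lemma base_of (hj : ∀ z : Ei, Algebra.norm ℤ (j z) = nr z) {d : 𝓞 K} (h : d = 1 ∨
    ∃ (ω : 𝓞 K) (n : ℕ) (π : Fin n → 𝓞 K) (e : Fin n → ℕ) (χ : Fin n → Fin n → ZMod 3),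
      ω ^ 2 + ω + 1 = 0 ∧
      (∀ i, Prime (π i) ∧ (3 : 𝓞 K) ∣ π i - 1 ∧ (e i = 1 ∨ e i = 2)) ∧
      (∀ i k, i ≠ k → ¬ π k ∣ π i ∧
        π k ∣ π i ^ (((Algebra.norm ℤ (π k)).natAbs - 1) / 3) - ω ^ (χ k i).val) ∧
      d = ∏ i, π i ^ e i ∧ ¬ (9 : ℤ) ∣ Algebra.norm ℤ d - 1 ∧
      ∀ v : Fin n → ZMod 3, (∀ k, ∑ i, (e i : ZMod 3) * χ k i * (v i - v k) = 0) →
        ∀ i k, v i = v k) : Base (j.symm d) := by
  rcases h with rfl | ⟨ω, n, π, e, χ, hω, h1, h2, h3, h4, h5⟩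
  · exact Or.inl (map_one _)
  · right
    obtain _ | n := n
    · exfalso
      apply h4
      rw [h3, Fin.prod_univ_zero, map_one, sub_self]
      exact dvd_zero _
    have hval : ∀ i, ((e i : ZMod 3)).val = e i := by
      intro i
      rcases (h1 i).2.2 with h | h <;> rw [h] <;> rfl
    have hne : ∀ i, (e i : ZMod 3) ≠ 0 := by
      intro i
      rcases (h1 i).2.2 with h | h <;> rw [h] <;> decide
    have hpD : pD (fun i => j.symm (π i)) (fun i => (e i : ZMod 3)) = j.symm d := by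
      unfold pD
      rw [h3, map_prod]
      refine Finset.prod_congr rfl fun i _ => ?_
      rw [hval, map_pow]
    refine ⟨n, fun i => j.symm (π i), fun i => (e i : ZMod 3), ⟨fun i => pq_symm j (h1 i).1 (h1 i).2.1,
      fun i k hik hd => (h2 i k hik).1 ((map_dvd_iff j.symm).1 hd), hne⟩, ?_, ?_, hpD.symm⟩
    · -- the kernel
      obtain ⟨ε, hε, hcs⟩ : ∃ ε : ZMod 3, ε ≠ 0 ∧ ∀ i k, i ≠ k →
          cs (j.symm (π k)) (j.symm (π i)) = ε * χ k i := by
        have hnn : ∀ k, nn (j.symm (π k)) = ((Algebra.norm ℤ (π k)).natAbs - 1) / 3 := by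
          intro k
          unfold nn
          rw [← hj, RingEquiv.apply_symm_apply]
        have hww : (w : Ei) ^ 2 + w + 1 = 0 := by decide
        have hfac : (ω - j w) * (ω - j (w ^ 2)) = 0 := by
          have e1 : (w : Ei) ^ 2 = -w - 1 := by linear_combination hww
          rw [e1, map_sub, map_neg, map_one]
          have e2 : (j w) ^ 2 + j w + 1 = 0 := by
            rw [← map_pow, ← map_one j, ← map_add, ← map_add, hww, map_zero]
          linear_combination hω - e2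
        rcases mul_eq_zero.1 hfac with h6 | h6
        · refine ⟨1, one_ne_zero, fun i k hik => ?_⟩
          rw [one_mul]
          have hpq := pq_symm j (h1 k).1 (h1 k).2.1
          apply Pool.Agent.Y715.T.RecG.cs_of hpq.prime hpq.norm
          have h7 := map_dvd j.symm (h2 i k hik).2
          rw [sub_eq_zero.1 h6, map_sub, map_pow, map_pow, RingEquiv.symm_apply_apply,
            ← hnn k] at h7
          exact h7
        · refine ⟨-1, by decide, fun i k hik => ?_⟩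
          rw [neg_one_mul]
          have hpq := pq_symm j (h1 k).1 (h1 k).2.1
          apply Pool.Agent.Y715.T.RecG.cs_of hpq.prime hpq.norm
          have h7 := map_dvd j.symm (h2 i k hik).2
          rw [sub_eq_zero.1 h6, map_sub, map_pow, map_pow, RingEquiv.symm_apply_apply, ← hnn k,
            w_two] at h7
          exact h7
      intro v hv
      apply h5 v
      intro k
      have h6 := hv k
      have h7 : ∑ i, (e i : ZMod 3) * cs (j.symm (π k)) (j.symm (π i)) * (v i - v k) =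
          ε * ∑ i, (e i : ZMod 3) * χ k i * (v i - v k) := by
        rw [Finset.mul_sum]
        refine Finset.sum_congr rfl fun i _ => ?_
        by_cases hik : i = k
        · rw [hik, sub_self, mul_zero, mul_zero, mul_zero]
        · rw [hcs i k hik]
          ring
      rw [h7] at h6
      exact (mul_eq_zero.1 h6).resolve_left hε
    · rw [hpD, ← hj, RingEquiv.apply_symm_apply]
      exact h4

/-- the good primes correspond -/
lemma gd_iff {m : ℕ} (a : Fin m → 𝓞 K) (P : HeightOneSpectrum Ei) :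
    GoodP (fun i => j.symm (a i)) P ↔ Gd a (eK j P) := by
  have h0 : (eK j P) = pK j P := rfl
  have hmem : ∀ x : 𝓞 K, x ∈ (pK j P).asIdeal ↔ j.symm x ∈ P.asIdeal := by
    intro x
    rw [← mem_pK j P, RingEquiv.apply_symm_apply]
  have h3 : (3 : 𝓞 K) ∈ (pK j P).asIdeal ↔ Over3 P := by
    rw [hmem, map_ofNat]
    constructor
    · intro h
      by_contra h4
      have hpq := rho_pq h4
      apply hpq.norm
      rw [rho_span h4, Ideal.mem_span_singleton] at h
      exact h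
    · exact three_mem
  rw [h0]
  unfold GoodP Gd
  rw [h3]
  constructor
  · rintro ⟨h1, h2⟩
    refine ⟨h1, fun i hi => h2 i ?_⟩
    rwa [hmem, rho_span h1, Ideal.mem_span_singleton] at hi
  · rintro ⟨h1, h2⟩
    refine ⟨h1, fun i hi => h2 i ?_⟩
    rwa [hmem, rho_span h1, Ideal.mem_span_singleton]

lemma nm_P (P : HeightOneSpectrum Ei) :
    (Ideal.absNorm (pK j P).asIdeal : ℤ) = nr (gn P.asIdeal) := by
  have h1 := nm_nr j (v := pK j P) (α := gn P.asIdeal) (pK_span j (span_gn P.asIdeal).symm)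
  exact h1

theorem main (hj : ∀ z : Ei, Algebra.norm ℤ (j z) = nr z) {m : ℕ}
    (hm : m = 3 ∨ m = 5 ∨ m = 7) (a : Fin m → 𝓞 K) (ha : ∀ i, a i ≠ 0)
    (h : ∀ S : Finset (Fin m), S.card = (m - 3) / 2 → Good (DS a S)) : BB a := by
  have hi : ∀ x : 𝓞 K, x ≠ 0 → j.symm x ≠ 0 := fun x hx h => hx (by
    rw [← j.apply_symm_apply x, h, map_zero])
  have hE : ∀ S : Finset (Fin m), S.card = (m - 3) / 2 → ∃ d b c : Ei, Base d ∧ b ≠ 0 ∧ c ≠ 0 ∧
      b ^ 3 * DD (fun i => j.symm (a i)) S = c ^ 3 * d := by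
    intro S hS
    obtain ⟨b, c, d, hb, hc, hbc, hd⟩ := h S hS
    refine ⟨j.symm d, j.symm b, j.symm c, base_of j hj hd, hi b hb, hi c hc, ?_⟩
    have h1 := congrArg j.symm hbc
    rw [map_mul, map_mul, map_pow, map_pow] at h1
    have h2 : DD (fun i => j.symm (a i)) S = j.symm (DS a S) := DD_map (j.symm : 𝓞 K →+* Ei) a S
    rw [h2]
    exact h1
  refine ⟨fun S hS => ?_, ?_⟩
  · obtain ⟨b, c, d, hb, hc, hbc, hd⟩ := h S hS
    obtain ⟨-, -, p3, p4⟩ := base_all j (base_of j hj hd)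
    rw [RingEquiv.apply_symm_apply] at p4
    have hb' : (b : K) ≠ 0 := by exact_mod_cast hb
    have hc' : (c : K) ≠ 0 := by exact_mod_cast hc
    have hd' : (d : K) ≠ 0 := by
      intro h0
      have h1 : d = 0 := by exact_mod_cast h0
      exact p3 (by rw [h1, map_zero])
    have h1 : (b : K) ^ 3 * ((DS a S : 𝓞 K) : K) = (c : K) ^ 3 * (d : K) := by exact_mod_cast hbc
    refine fin_twist (t := (c : K) / b) (div_ne_zero hc' hb') hd' ?_ p4
    rw [div_pow, div_mul_eq_mul_div, ← h1, mul_div_assoc, mul_comm, div_mul_cancel₀ _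
      (pow_ne_zero 3 hb')]
  · obtain ⟨L, h1, h2, h3⟩ := famE j hm (fun i => j.symm (a i)) (fun i => hi _ (ha i)) hE
    have hcard : Fintype.card ({S : Finset (Fin m) // S.card = (m - 3) / 2} × Bool) =
        2 * m.choose ((m - 3) / 2) := by
      rw [Fintype.card_prod, Fintype.card_finset_len, Fintype.card_fin, Fintype.card_bool,
        mul_comm]
    set φ := (Fintype.equivFinOfCardEq hcard).symm with hφ
    refine ⟨L, h1, h2, fun v i => ev (fun i => j.symm (a i)) ((eK j).symm v) (φ i), ?_, ?_⟩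
    · intro v hv F _ _ f r hf hr
      obtain ⟨P, rfl⟩ := (eK j).surjective v
      simp only [Equiv.symm_apply_apply]
      have hP := (gd_iff j a P).2 hv
      have h0 : (eK j P) = pK j P := rfl
      have e1 : ∀ x, f (j x) = 0 ↔ x ∈ P.asIdeal := by
        intro x
        rw [hf, h0, mem_pK]
      have e2 : (Fintype.card F : ℤ) = nr (gn P.asIdeal) ^ r := by
        rw [← nm_P j P, hr, h0]
        push_cast
        rfl
      have e3 := ev_count hm hP (f.comp (j : Ei →+* 𝓞 K)) e1 e2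
      have e4 : ∀ i, (f.comp (j : Ei →+* 𝓞 K)) (j.symm (a i)) = f (a i) := fun i =>
        congrArg f (j.apply_symm_apply (a i))
      simp only [e4] at e3
      rw [e3, φ.sum_comp fun i => ev (fun i => j.symm (a i)) P i ^ r]
    · intro s hs
      have h4 := h3 s hs
      have e1 : ∀ v : HeightOneSpectrum (𝓞 K),
          ∏ i, (1 - ev (fun i => j.symm (a i)) ((eK j).symm v) (φ i) *
            (Ideal.absNorm v.asIdeal : ℂ) ^ (-s))⁻¹ =
          ∏ S ∈ Finset.powersetCard ((m - 3) / 2) (Finset.univ : Finset (Fin m)),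
          (fac (DD (fun i => j.symm (a i)) S) (s - ((m - 3) / 2 : ℕ)) ((eK j).symm v))⁻¹ := by
        intro v
        obtain ⟨P, rfl⟩ := (eK j).surjective v
        rw [Equiv.symm_apply_apply, ← ev_prod]
        have e2 : (Ideal.absNorm (eK j P).asIdeal : ℂ) = Np P := by
          have h0 : (eK j P) = pK j P := rfl
          unfold Np
          rw [← nm_P j P, h0]
          push_cast
          rfl
        rw [e2]
        exact φ.prod_comp fun i => (1 - ev (fun i => j.symm (a i)) P i * Np P ^ (-s))⁻¹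
      have h5 : HasProd (fun v : {v // Gd a v} =>
          ∏ S ∈ Finset.powersetCard ((m - 3) / 2) (Finset.univ : Finset (Fin m)),
          (fac (DD (fun i => j.symm (a i)) S) (s - ((m - 3) / 2 : ℕ)) ((eK j).symm v.1))⁻¹)
          (L s) := by
        have h6 := (Equiv.hasProd_iff ((eK j).subtypeEquiv (p := GoodP fun i => j.symm (a i))
          (q := Gd a) (gd_iff j a))
          (f := fun v : {v // Gd a v} =>
            ∏ S ∈ Finset.powersetCard ((m - 3) / 2) (Finset.univ : Finset (Fin m)),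
            (fac (DD (fun i => j.symm (a i)) S) (s - ((m - 3) / 2 : ℕ))
              ((eK j).symm v.1))⁻¹) (a := L s)).1
        apply h6
        refine h4.congr_fun fun P => ?_
        show ∏ S ∈ Finset.powersetCard ((m - 3) / 2) (Finset.univ : Finset (Fin m)),
            (fac (DD (fun i => j.symm (a i)) S) (s - ((m - 3) / 2 : ℕ))
              ((eK j).symm (eK j P.1)))⁻¹ = _
        rw [Equiv.symm_apply_apply]
      exact h5.congr_fun fun v => e1 v.1

lemma good_one : Good (1 : 𝓞 K) :=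
  ⟨1, 1, 1, one_ne_zero, one_ne_zero, by ring, Or.inl rfl⟩

lemma norm_mod (hj : ∀ z : Ei, Algebra.norm ℤ (j z) = nr z) {x : 𝓞 K} (hx : (3 : 𝓞 K) ∣ x - 1) :
    Algebra.norm ℤ x % 3 = 1 := by
  have h1 := three_dvd_symm j hx
  obtain ⟨c, hc⟩ := h1
  have h2 : Algebra.norm ℤ x = nr (j.symm x) := by rw [← hj, RingEquiv.apply_symm_apply]
  rw [h2]
  have e1 : j.symm x = 1 + 3 * c := by rw [← hc]; ring
  have h10 : (j.symm x).re = 1 + 3 * c.re := by
    rw [e1]
    have h31 : (3 : Ei) = ⟨3, 0⟩ := rfl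
    have h32 : QuadraticAlgebra.re (1 : Ei) = 1 := rfl
    rw [h31]
    simp [h32]
  have h11 : (j.symm x).im = 3 * c.im := by
    rw [e1]
    have h31 : (3 : Ei) = ⟨3, 0⟩ := rfl
    have h32 : QuadraticAlgebra.im (1 : Ei) = 0 := rfl
    rw [h31]
    simp [h32]
  unfold nr
  rw [h10, h11]
  have : (1 + 3 * c.re) ^ 2 - (1 + 3 * c.re) * (3 * c.im) + (3 * c.im) ^ 2 =
    1 + 3 * (2 * c.re + 3 * c.re ^ 2 - (1 + 3 * c.re) * c.im + 3 * c.im ^ 2) := by ring
  rw [this]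
  omega

lemma cube_mod {x : ℤ} (hx : x % 3 = 1) : x ^ 3 % 9 = 1 := by
  obtain ⟨t, ht⟩ : ∃ t, x = 3 * t + 1 := ⟨x / 3, by omega⟩
  have : x ^ 3 = 9 * (3 * t ^ 3 + 3 * t ^ 2 + t) + 1 := by rw [ht]; ring
  omega

lemma three_prod {ι : Type} (S : Finset ι) (f : ι → 𝓞 K) (h : ∀ i ∈ S, (3 : 𝓞 K) ∣ f i - 1) :
    (3 : 𝓞 K) ∣ (∏ i ∈ S, f i) - 1 := by
  induction S using Finset.induction_on with
  | empty => rw [Finset.prod_empty, sub_self]; exact dvd_zero _
  | insert i S hi ih =>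
    rw [Finset.prod_insert hi]
    have e : f i * ∏ x ∈ S, f x - 1 = (f i - 1) * ∏ x ∈ S, f x + (∏ x ∈ S, f x - 1) := by ring
    rw [e]
    exact dvd_add (Dvd.dvd.mul_right (h i (Finset.mem_insert_self i S)) _)
      (ih fun k hk => h k (Finset.mem_insert_of_mem hk))

lemma three_pow {x : 𝓞 K} (h : (3 : 𝓞 K) ∣ x - 1) (n : ℕ) : (3 : 𝓞 K) ∣ x ^ n - 1 := by
  have := sub_dvd_pow_sub_pow x 1 n
  rw [one_pow] at this
  exact h.trans this

include j in
lemma good_sq (hj : ∀ z : Ei, Algebra.norm ℤ (j z) = nr z) {D : 𝓞 K} (h : Good D) :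
    Good (D ^ 2) := by
  obtain ⟨b, c, d, hb, hc, hbc, hd⟩ := h
  rcases hd with rfl | ⟨ω, n, π, e, χ, hω, h1, h2, h3, h4, h5⟩
  · exact ⟨b ^ 2, c ^ 2, 1, pow_ne_zero 2 hb, pow_ne_zero 2 hc,
      by linear_combination (b ^ 3 * D + c ^ 3 * 1) * hbc, Or.inl rfl⟩
  · set q : 𝓞 K := ∏ i, π i ^ (e i - 1) with hq
    set d' : 𝓞 K := ∏ i, π i ^ (3 - e i) with hd'
    have hq0 : q ≠ 0 := Finset.prod_ne_zero_iff.2 fun i _ => pow_ne_zero _ (h1 i).1.ne_zero
    have hdd : d ^ 2 = q ^ 3 * d' := by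
      rw [h3, hq, hd', ← Finset.prod_pow, ← Finset.prod_pow, ← Finset.prod_mul_distrib]
      refine Finset.prod_congr rfl fun i _ => ?_
      rw [← pow_mul, ← pow_mul, ← pow_add]
      congr 1
      rcases (h1 i).2.2 with h | h <;> omega
    have hN : Algebra.norm ℤ d ^ 2 = Algebra.norm ℤ q ^ 3 * Algebra.norm ℤ d' := by
      rw [← map_pow, hdd, map_mul, map_pow]
    have hq3 : Algebra.norm ℤ q ^ 3 % 9 = 1 := by
      apply cube_mod
      apply norm_mod j hj
      exact three_prod _ _ fun i _ => three_pow (h1 i).2.1 _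
    have hd3 : Algebra.norm ℤ d % 3 = 1 := by
      apply norm_mod j hj
      rw [h3]
      exact three_prod _ _ fun i _ => three_pow (h1 i).2.1 _
    refine ⟨b ^ 2, c ^ 2 * q, d', pow_ne_zero 2 hb, mul_ne_zero (pow_ne_zero 2 hc) hq0, ?_,
      Or.inr ⟨ω, n, π, fun i => 3 - e i, χ, hω, fun i => ⟨(h1 i).1, (h1 i).2.1, ?_⟩, h2, rfl,
        ?_, fun v hv => h5 v fun k => ?_⟩⟩
    · have e1 : (c ^ 2 * q) ^ 3 * d' = (c ^ 3) ^ 2 * (q ^ 3 * d') := by ring
      rw [e1, ← hdd]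
      linear_combination (b ^ 3 * D + c ^ 3 * d) * hbc
    · show 3 - e i = 1 ∨ 3 - e i = 2
      rcases (h1 i).2.2 with h | h <;> omega
    · intro h9
      have e1 : Algebra.norm ℤ d' % 9 = 1 := by omega
      have e2 : Algebra.norm ℤ d ^ 2 % 9 = 1 := by
        rw [hN, Int.mul_emod, hq3, e1]
        norm_num
      have e3 : Algebra.norm ℤ d % 9 = 4 ∨ Algebra.norm ℤ d % 9 = 7 := by omega
      rcases e3 with h | h
      · rw [pow_two, Int.mul_emod, h] at e2
        norm_num at e2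
      · rw [pow_two, Int.mul_emod, h] at e2
        norm_num at e2
    · have h6 := hv k
      have e1 : ∀ i, (((3 - e i : ℕ)) : ZMod 3) = -(e i : ZMod 3) := by
        intro i
        rcases (h1 i).2.2 with h | h <;> rw [h] <;> decide
      simp only [e1, neg_mul, Finset.sum_neg_distrib, neg_eq_zero] at h6
      exact h6

lemma good_cube {D c : 𝓞 K} (h : Good D) (hc : c ≠ 0) : Good (c ^ 3 * D) := by
  obtain ⟨b, c', d, hb, hc', hbc, hd⟩ := h
  exact ⟨b, c * c', d, hb, mul_ne_zero hc hc', by linear_combination c ^ 3 * hbc, hd⟩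

include j in
lemma good_ne (hj : ∀ z : Ei, Algebra.norm ℤ (j z) = nr z) {D : 𝓞 K} (h : Good D) : D ≠ 0 := by
  obtain ⟨b, c', d, hb, hc', hbc, hd⟩ := h
  rintro rfl
  have hd0 : j.symm d ≠ 0 := (base_all j (base_of j hj hd)).2.2.1
  have h1 : d ≠ 0 := by
    rintro rfl
    exact hd0 (map_zero _)
  rw [mul_zero] at hbc
  exact mul_ne_zero (pow_ne_zero 3 hc') h1 hbc.symm

include j in
lemma good_pow (hj : ∀ z : Ei, Algebra.norm ℤ (j z) = nr z) {D c : 𝓞 K} (h : Good D)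
    (hc : c ≠ 0) (n : ℕ) : Good (c ^ 3 * D ^ n) := by
  have hD : D ≠ 0 := good_ne j hj h
  have e : c ^ 3 * D ^ n = (c * D ^ (n / 3)) ^ 3 * D ^ (n % 3) := by
    conv_lhs => rw [← Nat.div_add_mod n 3]
    rw [pow_add, mul_pow, ← pow_mul, mul_comm (n / 3) 3, mul_assoc]
  rw [e]
  refine good_cube ?_ (mul_ne_zero hc (pow_ne_zero _ hD))
  have h3 : n % 3 < 3 := Nat.mod_lt _ (by norm_num)
  interval_cases h4 : n % 3
  · rw [pow_zero]
    exact good_one
  · rw [pow_one]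
    exact h
  · exact good_sq j hj h

omit [IsCyclotomicExtension {3} ℚ K] in
lemma cls_good {D : 𝓞 K} (hD : ClsK D) {ω : 𝓞 K} {n : ℕ} {π : Fin n → 𝓞 K}
    {χ : Fin n → Fin n → ZMod 3} (hω : ω ^ 2 + ω + 1 = 0) (h : IsFact ω D n π χ) (hL : Lap χ) :
    Good D := by
  obtain ⟨h1, h2, h3⟩ := h
  refine ⟨1, 1, D, one_ne_zero, one_ne_zero, rfl, Or.inr ⟨ω, n, π, fun _ => 1, χ, hω,
    fun i => ⟨(h1 i).1, (h1 i).2, Or.inl rfl⟩, fun i k hik => ⟨fun hd => ?_, h3 i k hik⟩, ?_,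
    hD.2.2, fun v hv => hL v fun k => ?_⟩⟩
  · have h4 : π i * π k ∣ D := by
      rw [h2, ← Finset.mul_prod_erase Finset.univ π (Finset.mem_univ i)]
      refine mul_dvd_mul_left _ (Finset.dvd_prod_of_mem _ ?_)
      exact Finset.mem_erase.2 ⟨hik.symm, Finset.mem_univ _⟩
    exact (h1 k).1.not_isUnit (hD.2.1 _ ((mul_dvd_mul_right hd _).trans h4))
  · simp only [pow_one]
    exact h2
  · have h6 := hv k
    simp only [Nat.cast_one, one_mul] at h6
    exact h6

end main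

/-- the density -/
lemma dens (K : Type) [Field K] [NumberField K] [IsCyclotomicExtension {3} ℚ K] :
    (∃ c : ℝ, 0 < c ∧ ∃ X₀ : ℕ, ∀ X : ℕ, X₀ ≤ X →
      c * X ≤ ({D : 𝓞 K | Algebra.norm ℤ D ≤ X ∧ Cls D}.ncard : ℝ)) ∧
    ∃ X₀ : ℕ, ∀ X : ℕ, X₀ ≤ X →
      0.639 * ({D : 𝓞 K | Algebra.norm ℤ D ≤ X ∧ Cls D}.ncard : ℝ) ≤
        ({D : 𝓞 K | Algebra.norm ℤ D ≤ X ∧ Cls D ∧ Good D}.ncard : ℝ) := by
  obtain ⟨h1, h2, h3, ⟨h4, -, -⟩, -⟩ := Pool.Agent.XL6.finalXL K
  obtain ⟨-, g2, -⟩ := Pool.Agent.Y696.CTK.final K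
  refine ⟨h1, ?_⟩
  obtain ⟨c, hc, X₀, hX⟩ := h1
  have h5 := h3 0
  have h6 := h5.eventually (lt_mem_nhds h4)
  obtain ⟨X₁, hX1⟩ := Filter.eventually_atTop.1 h6
  refine ⟨max X₀ (max X₁ 1), fun X hXX => ?_⟩
  have a1 : X₀ ≤ X := le_trans (le_max_left _ _) hXX
  have a2 : X₁ ≤ X := le_trans (le_trans (le_max_left _ _) (le_max_right _ _)) hXX
  have a3 : 1 ≤ X := le_trans (le_trans (le_max_right _ _) (le_max_right _ _)) hXX
  have hpos : (0 : ℝ) < ({D : 𝓞 K | Algebra.norm ℤ D ≤ X ∧ ClsK D}.ncard : ℝ) := by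
    refine lt_of_lt_of_le ?_ (hX X a1)
    have : (1 : ℝ) ≤ X := by exact_mod_cast a3
    positivity
  have hfin : {D : 𝓞 K | Algebra.norm ℤ D ≤ X ∧ ClsK D}.Finite :=
    Set.finite_of_ncard_pos (by exact_mod_cast hpos)
  have h7 := hX1 X a2
  rw [lt_div_iff₀ hpos] at h7
  refine h7.le.trans ?_
  have h8 : {D : 𝓞 K | Algebra.norm ℤ D ≤ X ∧ ClsK D ∧ (Pool.Agent.XL6.SelK (D : K)).ncard = 3 ^ (0 + 1)} ⊆
      {D : 𝓞 K | Algebra.norm ℤ D ≤ X ∧ Cls D ∧ Good D} := by
    rintro D ⟨b1, b2, b3⟩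
    refine ⟨b1, b2, ?_⟩
    obtain ⟨-, -, c3⟩ := h2 D b2
    have hT : Tri D := c3.1 b3
    obtain ⟨⟨ω, n, π, χ, hω, hF⟩, d2⟩ := (g2 D b2).2
    exact cls_good b2 hω hF ((d2 ω n π χ hω hF).1 hT)
  exact_mod_cast Set.ncard_le_ncard h8 (hfin.subset fun D hD => ⟨hD.1, hD.2.1⟩)

lemma ds_pow {m : ℕ} {K : Type} [Field K] [NumberField K] (D : 𝓞 K) (k : Fin m → ℕ)
    (S : Finset (Fin m)) :
    DS (fun i => D ^ k i) S = 1 ^ 3 * D ^ ((∑ i, k i) + ∑ i ∈ S, k i) := by
  unfold DS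
  rw [Finset.prod_pow_eq_pow_sum, Finset.prod_pow_eq_pow_sum, ← pow_add, one_pow, one_mul]

/-- the theorem -/
theorem final (K : Type) [Field K] [NumberField K] [IsCyclotomicExtension {3} ℚ K] :
    (∀ m : ℕ, m = 5 ∨ m = 7 → ∀ a : Fin m → 𝓞 K, (∀ i, a i ≠ 0) →
      Mot a ∧ ((∀ S : Finset (Fin m), S.card = (m - 3) / 2 → Good (DS a S)) → BB a)) ∧
    (∀ D : 𝓞 K, Good D → ∀ m : ℕ, m = 5 ∨ m = 7 → ∀ k : Fin m → ℕ, BB fun i => D ^ k i) ∧
    (∀ A B : 𝓞 K, Good A → Good B → BB ![A, A ^ 2, B, B ^ 2, 1]) ∧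
    (∃ c : ℝ, 0 < c ∧ ∃ X₀ : ℕ, ∀ X : ℕ, X₀ ≤ X →
      c * X ≤ ({D : 𝓞 K | Algebra.norm ℤ D ≤ X ∧ Cls D}.ncard : ℝ)) ∧
    ∃ X₀ : ℕ, ∀ X : ℕ, X₀ ≤ X →
      0.639 * ({D : 𝓞 K | Algebra.norm ℤ D ≤ X ∧ Cls D}.ncard : ℝ) ≤
        ({D : 𝓞 K | Algebra.norm ℤ D ≤ X ∧ Cls D ∧ Good D}.ncard : ℝ) := by
  obtain ⟨⟨j, hj⟩, -⟩ := Pool.Agent.Y455.CTK.jex K
  obtain ⟨d1, d2⟩ := dens K
  refine ⟨fun m hm a ha => ⟨mot j (by omega) a, main j hj (by omega) a ha⟩, ?_, ?_, d1, d2⟩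
  · intro D hD m hm k
    refine main j hj (by omega) _ (fun i => pow_ne_zero _ (good_ne j hj hD)) fun S _ => ?_
    rw [ds_pow]
    exact good_pow j hj hD one_ne_zero _
  · intro A B hA hB
    have hA0 := good_ne j hj hA
    have hB0 := good_ne j hj hB
    have hAB : A * B ≠ 0 := mul_ne_zero hA0 hB0
    have h0 : ∀ i, (![A, A ^ 2, B, B ^ 2, 1] : Fin 5 → 𝓞 K) i ≠ 0 := by
      intro i
      fin_cases i
      · exact hA0
      · exact pow_ne_zero 2 hA0
      · exact hB0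
      · exact pow_ne_zero 2 hB0
      · exact one_ne_zero
    refine main j hj (Or.inr (Or.inl rfl)) _ h0 fun S hS => ?_
    obtain ⟨i, rfl⟩ := Finset.card_eq_one.1 hS
    have e : DS (![A, A ^ 2, B, B ^ 2, 1] : Fin 5 → 𝓞 K) {i} =
        (A * B) ^ 3 * (![A, A ^ 2, B, B ^ 2, 1] : Fin 5 → 𝓞 K) i := by
      unfold DS
      rw [Finset.prod_singleton, Fin.prod_univ_five]
      show A * A ^ 2 * B * B ^ 2 * 1 * _ = _
      ring
    rw [e]
    fin_cases i
    · have := good_pow j hj hA hAB 1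
      rwa [pow_one] at this
    · exact good_pow j hj hA hAB 2
    · have := good_pow j hj hB hAB 1
      rwa [pow_one] at this
    · exact good_pow j hj hB hAB 2
    · have := good_pow j hj hA hAB 0
      rwa [pow_zero] at this

end Pool.Agent.H451.CubT
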