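import Mathlib
import Pool.Agent.H451.BB.Def2
import Pool.Agent.H451.BB.Main
import Pool.Agent.H451.JL.Stm3
import Pool.Graph.R_seed8.Y550.XK.NS
import Pool.Graph.R_seed8.Y696.XK.Fin

/-!
# The proofs for one-parameter families of diagonal cubic hypersurfaces
-/

set_option autoImplicit false
set_option linter.unusedVariables false
set_option linter.unusedSectionVars false

namespace Pool.Agent.H451.CubT

open NumberField IsDedekindDomain
open scoped Classical

open WeierstrassCurve
open Pool.Agent.H921R2.TatePole (nm)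
open Pool.Agent.Y692.QS (Ei w toC nr)
open Pool.Agent.Y715.T.RecG (Pq)
open Pool.Agent.Y703.CT
open Pool.Agent.Y696.CT
open Pool.Agent.Y696.CTK
open Pool.Agent.Y715.T.Rec (cs nn)
open Pool.Agent.H451.BB

section main
variable {K : Type} [Field K] [NumberField K] [IsCyclotomicExtension {3} ℚ K] (j : Ei ≃+* 𝓞 K)

/-- `main` with the hypothesis over the Eisenstein integers -/
theorem mainE (hj : ∀ z : Ei, Algebra.norm ℤ (j z) = nr z) {m : ℕ}
    (hm : m = 3 ∨ m = 5 ∨ m = 7) (a : Fin m → 𝓞 K) (ha : ∀ i, a i ≠ 0)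
    (hE : ∀ S : Finset (Fin m), S.card = (m - 3) / 2 → ∃ d b c : Ei, Base d ∧ b ≠ 0 ∧ c ≠ 0 ∧
      b ^ 3 * DD (fun i => j.symm (a i)) S = c ^ 3 * d) : BB a := by
  have hi : ∀ x : 𝓞 K, x ≠ 0 → j.symm x ≠ 0 := fun x hx h => hx (by
    rw [← j.apply_symm_apply x, h, map_zero])
  have hi' : ∀ x : Ei, x ≠ 0 → ((j x : 𝓞 K) : K) ≠ 0 := by
    intro x hx h
    have h1 : j x = 0 := by exact_mod_cast h
    exact hx ((map_eq_zero_iff j j.injective).1 h1)
  refine ⟨fun S hS => ?_, ?_⟩
  · obtain ⟨d, b, c, hd, hb, hc, hbc⟩ := hE S hS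
    obtain ⟨-, -, p3, p4⟩ := base_all j hd
    have hb' := hi' b hb
    have hc' := hi' c hc
    have hd' := hi' d p3
    have h2 : DD (fun i => j.symm (a i)) S = j.symm (DS a S) := DD_map (j.symm : 𝓞 K →+* Ei) a S
    have h1 : ((j b : 𝓞 K) : K) ^ 3 * ((DS a S : 𝓞 K) : K) =
        ((j c : 𝓞 K) : K) ^ 3 * ((j d : 𝓞 K) : K) := by
      have h3 := congrArg j hbc
      rw [h2, map_mul, map_mul, map_pow, map_pow, RingEquiv.apply_symm_apply] at h3
      exact_mod_cast h3
    refine fin_twist (t := ((j c : 𝓞 K) : K) / ((j b : 𝓞 K) : K)) (div_ne_zero hc' hb') hd' ?_ p4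
    rw [div_pow, div_mul_eq_mul_div, ← h1, mul_div_assoc, mul_comm, div_mul_cancel₀ _
      (pow_ne_zero 3 hb')]
  · obtain ⟨L, h1, h2, h3⟩ := famE j hm (fun i => j.symm (a i)) (fun i => hi _ (ha i)) hE
    have hcard : Fintype.card ({S : Finset (Fin m) // S.card = (m - 3) / 2} × Bool) =
        2 * m.choose ((m - 3) / 2) := by
      rw [Fintype.card_prod, Fintype.card_finset_len, Fintype.card_fin, Fintype.card_bool,
        mul_comm]
    set φ := (Fintype.equivFinOfCardEq hcard).symm with hφ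
    refine ⟨L, h1, h2, fun v i => ev (fun i => j.symm (a i)) ((eK j).symm v) (φ i), ?_, ?_⟩
    · intro v hv F _ _ f r hf hr
      obtain ⟨P, rfl⟩ := (eK j).surjective v
      simp only [Equiv.symm_apply_apply]
      have hP := (gd_iff j a P).2 hv
      have h0 : (eK j P) = pK j P := rfl
      have e1 : ∀ x, f (j x) = 0 ↔ x ∈ P.asIdeal := by
        intro x
        rw [hf, h0, mem_pK]
      have e2 : (Fintype.card F : ℤ) = nr (gn P.asIdeal) ^ r := by
        rw [← nm_P j P, hr, h0]
        push_cast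
        rfl
      have e3 := ev_count hm hP (f.comp (j : Ei →+* 𝓞 K)) e1 e2
      have e4 : ∀ i, (f.comp (j : Ei →+* 𝓞 K)) (j.symm (a i)) = f (a i) := fun i =>
        congrArg f (j.apply_symm_apply (a i))
      simp only [e4] at e3
      rw [e3, φ.sum_comp fun i => ev (fun i => j.symm (a i)) P i ^ r]
    · intro s hs
      have h4 := h3 s hs
      have e1 : ∀ v : HeightOneSpectrum (𝓞 K),
          ∏ i, (1 - ev (fun i => j.symm (a i)) ((eK j).symm v) (φ i) *
            (Ideal.absNorm v.asIdeal : ℂ) ^ (-s))⁻¹ =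
          ∏ S ∈ Finset.powersetCard ((m - 3) / 2) (Finset.univ : Finset (Fin m)),
          (fac (DD (fun i => j.symm (a i)) S) (s - ((m - 3) / 2 : ℕ)) ((eK j).symm v))⁻¹ := by
        intro v
        obtain ⟨P, rfl⟩ := (eK j).surjective v
        rw [Equiv.symm_apply_apply, ← ev_prod]
        have e2 : (Ideal.absNorm (eK j P).asIdeal : ℂ) = Np P := by
          have h0 : (eK j P) = pK j P := rfl
          unfold Np
          rw [← nm_P j P, h0]
          push_cast
          rfl
        rw [e2]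
        exact φ.prod_comp fun i => (1 - ev (fun i => j.symm (a i)) P i * Np P ^ (-s))⁻¹
      have h5 : HasProd (fun v : {v // Gd a v} =>
          ∏ S ∈ Finset.powersetCard ((m - 3) / 2) (Finset.univ : Finset (Fin m)),
          (fac (DD (fun i => j.symm (a i)) S) (s - ((m - 3) / 2 : ℕ)) ((eK j).symm v.1))⁻¹)
          (L s) := by
        have h6 := (Equiv.hasProd_iff ((eK j).subtypeEquiv (p := GoodP fun i => j.symm (a i))
          (q := Gd a) (gd_iff j a))
          (f := fun v : {v // Gd a v} =>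
            ∏ S ∈ Finset.powersetCard ((m - 3) / 2) (Finset.univ : Finset (Fin m)),
            (fac (DD (fun i => j.symm (a i)) S) (s - ((m - 3) / 2 : ℕ))
              ((eK j).symm v.1))⁻¹) (a := L s)).1
        apply h6
        refine h4.congr_fun fun P => ?_
        show ∏ S ∈ Finset.powersetCard ((m - 3) / 2) (Finset.univ : Finset (Fin m)),
            (fac (DD (fun i => j.symm (a i)) S) (s - ((m - 3) / 2 : ℕ))
              ((eK j).symm (eK j P.1)))⁻¹ = _
        rw [Equiv.symm_apply_apply]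
      exact h5.congr_fun fun v => e1 v.1

end main

/-! ### The Eisenstein side -/

open Pool.Agent.H451.JL
open Pool.Agent.Y699.E (nrm nrm_cast nrm_mul nrm_one PD mem_PD PS pq_cop norm_le_of_dvd prm_mul)
open Pool.Agent.Y703.XK (SS c9)

section ei

variable {n : ℕ} (a : Fin n → Ei)

/-- the coprime part of `D_T` -/
def AT (T : Finset (Fin (n + 1))) : Ei :=
  (∏ i, a i) * ∏ i ∈ Finset.univ.filter (fun i : Fin n => i.castSucc ∈ T), a i

lemma prod_castSucc {M : Type} [CommMonoid M] (f : Fin (n + 1) → M) (T : Finset (Fin (n + 1))) :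
    ∏ i ∈ T, f i = (∏ i ∈ Finset.univ.filter (fun i : Fin n => i.castSucc ∈ T), f i.castSucc) *
      if Fin.last n ∈ T then f (Fin.last n) else 1 := by
  have h1 : ∏ i ∈ T, f i = ∏ i, if i ∈ T then f i else 1 := by
    rw [Finset.prod_ite_mem, Finset.univ_inter]
  rw [h1, Fin.prod_univ_castSucc, Finset.prod_filter]

lemma DD_co (D : Ei) (T : Finset (Fin (n + 1))) :
    DD (co a D) T = D ^ (if Fin.last n ∈ T then 2 else 1) * AT a T := by
  unfold DD AT co
  rw [Fin.prod_univ_castSucc, prod_castSucc _ T]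
  simp only [Fin.snoc_castSucc, Fin.snoc_last]
  by_cases h : Fin.last n ∈ T
  · rw [if_pos h, if_pos h]
    ring
  · rw [if_neg h, if_neg h]
    ring

/-- the admissible residues of the norm of `D` modulo `9` -/
def RT (h : ℕ) : Set ℕ := {r | ∀ T : Finset (Fin (n + 1)), T.card = h →
  ¬ (r ^ (if Fin.last n ∈ T then 2 else 1) * nrm (AT a T)) % 9 = 1}

lemma nrm_pow' (x : Ei) (k : ℕ) : nrm (x ^ k) = nrm x ^ k := by
  induction k with
  | zero => rw [pow_zero, pow_zero, nrm_one]
  | succ k ih => rw [pow_succ, pow_succ, nrm_mul, ih]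

lemma mem_RT {h r : ℕ} {D : Ei} (hr : nrm D % 9 = r) :
    r ∈ RT a h ↔ ∀ T : Finset (Fin (n + 1)), T.card = h → ¬ (9 : ℤ) ∣ nr (DD (co a D) T) - 1 := by
  refine forall_congr' fun T => forall_congr' fun hT => not_congr ?_
  rw [Pool.Agent.Y550.XK.NS.mod_iff, DD_co, nrm_mul, nrm_pow', ← hr, Nat.mul_mod, Nat.pow_mod,
    Nat.mod_mod, ← Nat.pow_mod, ← Nat.mul_mod]

/-- coprimality in terms of the sets of primes -/
lemma cop_iff {U S : Finset Ei} {e : Fin n → Ei → ℕ} (hU : ∀ π ∈ U, Pq π)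
    (hU1 : ∀ π ∈ U, ∃ i, π ∣ a i) (ha : ∀ i, a i = ∏ u ∈ U, u ^ (e i u)) (hS : ∀ π ∈ S, Pq π) :
    (∀ i, IsCoprime (∏ π ∈ S, π) (a i)) ↔ Disjoint S U := by
  constructor
  · intro h
    rw [Finset.disjoint_left]
    intro π hπS hπU
    obtain ⟨i, hi⟩ := hU1 π hπU
    have h1 : π ∣ ∏ ρ ∈ S, ρ := Finset.dvd_prod_of_mem _ hπS
    have h2 := (h i).isUnit_of_dvd' h1 hi
    exact (hU π hπU).prime.not_isUnit h2
  · intro h i
    rw [ha i]
    refine IsCoprime.prod_left fun π hπ => IsCoprime.prod_right fun u hu => ?_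
    refine IsCoprime.pow_right (pq_cop (hS π hπ) (hU u hu) ?_)
    rintro rfl
    exact Finset.disjoint_left.1 h hπ hu

end ei

end Pool.Agent.H451.CubT
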