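import Mathlib
import Pool.Agent.H451.BB.Main2
import Pool.Agent.H451.JL.Asm
import Pool.Agent.H451.JL.BASE
import Pool.Agent.H451.JL.FACT

/-!
# One-parameter families of diagonal cubic hypersurfaces: the final theorem
-/

set_option autoImplicit false
set_option linter.unusedVariables false
set_option linter.unusedSectionVars false

namespace Pool.Agent.H451.CubT

open NumberField IsDedekindDomain
open scoped Classical

open WeierstrassCurve
open Pool.Agent.Y692.QS (Ei w toC nr)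
open Pool.Agent.Y715.T.RecG (Pq)
open Pool.Agent.Y703.CT (ClsE)
open Pool.Agent.Y696.CTK (ClsK)
open Pool.Agent.Y715.T.Rec (cs nn)
open Pool.Agent.H451.BB
open Pool.Agent.H451.JL
open Pool.Agent.Y699.E (nrm nrm_cast nrm_mul nrm_one PD mem_PD PS pq_cop norm_le_of_dvd prm_mul)
open Pool.Agent.Y703.XK (SS c9)

lemma nr_prm {x : Ei} (hx : (3 : Ei) ∣ x - 1) : nr x % 3 = 1 := by
  obtain ⟨c, hc⟩ := hx
  have e1 : x = 1 + 3 * c := by rw [← hc]; ring
  have h10 : x.re = 1 + 3 * c.re := by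
    rw [e1]
    have h31 : (3 : Ei) = ⟨3, 0⟩ := rfl
    have h32 : QuadraticAlgebra.re (1 : Ei) = 1 := rfl
    rw [h31]
    simp [h32]
  have h11 : x.im = 3 * c.im := by
    rw [e1]
    have h31 : (3 : Ei) = ⟨3, 0⟩ := rfl
    have h32 : QuadraticAlgebra.im (1 : Ei) = 0 := rfl
    rw [h31]
    simp [h32]
  unfold nr
  rw [h10, h11]
  have : (1 + 3 * c.re) ^ 2 - (1 + 3 * c.re) * (3 * c.im) + (3 * c.im) ^ 2 =
    1 + 3 * (2 * c.re + 3 * c.re ^ 2 - (1 + 3 * c.re) * c.im + 3 * c.im ^ 2) := by ring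
  rw [this]
  omega

section K
variable {K : Type} [Field K] [NumberField K] [IsCyclotomicExtension {3} ℚ K] (j : Ei ≃+* 𝓞 K)

lemma co_symm {n : ℕ} (a : Fin n → 𝓞 K) (D : Ei) :
    (fun i => j.symm (co a (j D) i)) = co (fun i => j.symm (a i)) D := by
  funext i
  refine Fin.lastCases ?_ (fun i => ?_) i
  · unfold co
    rw [Fin.snoc_last, Fin.snoc_last, RingEquiv.symm_apply_apply]
  · unfold co
    rw [Fin.snoc_castSucc, Fin.snoc_castSucc]

theorem bb_of (hj : ∀ z : Ei, Algebra.norm ℤ (j z) = nr z) {n : ℕ} (hn : n = 4 ∨ n = 6)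
    (a : Fin n → 𝓞 K) (ha : ∀ i, (3 : 𝓞 K) ∣ a i - 1) {U : Finset Ei} {e : Fin n → Ei → ℕ}
    (hU : ∀ π ∈ U, Pq π) (hfac : ∀ i, j.symm (a i) = ∏ u ∈ U, u ^ (e i u)) {S : Finset Ei}
    (hS : ∀ π ∈ S, Pq π) (hd : Disjoint S U)
    (h9 : ∀ T : Finset (Fin (n + 1)), T.card = (n - 2) / 2 →
      ¬ (9 : ℤ) ∣ nr (DD (co (fun i => j.symm (a i)) (∏ π ∈ S, π)) T) - 1)
    (hG : ∀ T : Finset (Fin (n + 1)), T.card = (n - 2) / 2 → nW (wE e U T) (S ∪ U) = 3) :
    BB (co a (j (∏ π ∈ S, π))) := by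
  have hD0 : (∏ π ∈ S, π) ≠ 0 := Finset.prod_ne_zero_iff.2 fun π hπ => (hS π hπ).prime.ne_zero
  have ha0 : ∀ i, a i ≠ 0 := by
    intro i h0
    have h1 : j.symm (a i) = 0 := by rw [h0, map_zero]
    rw [hfac i] at h1
    exact Finset.prod_ne_zero_iff.2 (fun u hu => pow_ne_zero _ (hU u hu).prime.ne_zero) h1
  refine mainE j hj (by omega) _ (fun i => ?_) fun T hT => ?_
  · refine Fin.lastCases ?_ (fun i => ?_) i
    · unfold co
      rw [Fin.snoc_last]
      intro h0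
      exact hD0 ((map_eq_zero_iff j j.injective).1 h0)
    · unfold co
      rw [Fin.snoc_castSucc]
      exact ha0 i
  · have hT' : T.card = (n - 2) / 2 := by
      rw [hT]
      rcases hn with rfl | rfl <;> rfl
    obtain ⟨c, hc, hf⟩ := t_FACT n U S e hU hd T
    have hco : co (fun i => j.symm (a i)) (∏ π ∈ S, π) =
        Fin.snoc (α := fun _ => Ei) (fun i => ∏ u ∈ U, u ^ (e i u)) (∏ π ∈ S, π) := by
      unfold co
      congr 1
      funext i
      exact hfac i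
    rw [co_symm j a]
    rw [← hco] at hf
    refine ⟨_, 1, c, t_BASE (S ∪ U) (wE e U T) (dE T) (fun π hπ =>
      (Finset.mem_union.1 hπ).elim (hS π) (hU π)) ?_ (hG T hT') ?_, one_ne_zero,
      Pool.Agent.Y699.E.prm_ne_zero hc, ?_⟩
    · unfold dE
      by_cases h : Fin.last n ∈ T
      · rw [if_pos h]; decide
      · rw [if_neg h]; decide
    · intro h9'
      apply h9 T hT'
      have h1 : nr (DD (co (fun i => j.symm (a i)) (∏ π ∈ S, π)) T) =
          nr c ^ 3 * nr (eD (dE T) (wE e U T) (S ∪ U)) := by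
        rw [hf, ← hj, ← hj, ← hj, map_mul, map_pow, map_mul, map_pow]
      have h2 : nr c ^ 3 % 9 = 1 := cube_mod (nr_prm hc)
      have h3 : nr (DD (co (fun i => j.symm (a i)) (∏ π ∈ S, π)) T) % 9 = 1 := by
        rw [h1, Int.mul_emod, h2]
        omega
      omega
    · rw [one_pow, one_mul]
      exact hf

/-- the admissible parameters -/
theorem adm_iff (hj : ∀ z : Ei, Algebra.norm ℤ (j z) = nr z) {n : ℕ} (a : Fin n → 𝓞 K)
    {U : Finset Ei} {e : Fin n → Ei → ℕ} (hU : ∀ π ∈ U, Pq π)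
    (hU1 : ∀ π ∈ U, ∃ i, π ∣ j.symm (a i)) (hfac : ∀ i, j.symm (a i) = ∏ u ∈ U, u ^ (e i u))
    (D : Ei) :
    (ClsE D ∧ CondJ U (RT (fun i => j.symm (a i)) ((n - 2) / 2)) (PD D)) ↔ Adm a (j D) := by
  unfold Adm
  have h1 : Cls (j D) ↔ ClsE D := Pool.Agent.Y696.XK.cls_iff j hj D
  rw [h1]
  refine and_congr_right fun hD => ?_
  have hPS : PS D := ⟨hD.1, hD.2.1⟩
  have hpq : ∀ π ∈ PD D, Pq π := fun π hπ => ((mem_PD hPS.ne).1 hπ).1
  have hprod : ∏ π ∈ PD D, π = D := hPS.prod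
  unfold CondJ
  refine and_congr ?_ ?_
  · rw [← cop_iff (fun i => j.symm (a i)) hU hU1 hfac hpq, hprod]
    refine forall_congr' fun i => ?_
    constructor
    · intro h
      have h2 := h.map (j : Ei →+* 𝓞 K)
      have e1 : (j : Ei →+* 𝓞 K) (j.symm (a i)) = a i := j.apply_symm_apply (a i)
      rw [e1] at h2
      exact h2
    · intro h
      have h2 := h.map (j.symm : 𝓞 K →+* Ei)
      have e1 : (j.symm : 𝓞 K →+* Ei) (j D) = D := j.symm_apply_apply D
      rw [e1] at h2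
      exact h2
  · have h3 : (∏ π ∈ PD D, nrm π) = nrm D := by
      rw [← Pool.Agent.Y550.XK.NS.nrm_prod, hprod]
    rw [h3, mem_RT (fun i => j.symm (a i)) (rfl : nrm D % 9 = nrm D % 9)]
    refine forall_congr' fun T => forall_congr' fun hT => ?_
    have h4 : Algebra.norm ℤ (DS (co a (j D)) T) = nr (DD (co (fun i => j.symm (a i)) D) T) := by
      rw [← hj]
      congr 1
      have h5 : DD (co (fun i => j.symm (a i)) D) T = j.symm (DS (co a (j D)) T) := by
        rw [← co_symm j a]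
        exact DD_map (j.symm : 𝓞 K →+* Ei) _ T
      rw [h5, RingEquiv.apply_symm_apply]
    rw [h4]

end K

/-- the theorem -/
theorem final2 (K : Type) [Field K] [NumberField K] [IsCyclotomicExtension {3} ℚ K] (n : ℕ)
    (hn : n = 4 ∨ n = 6) (a : Fin n → 𝓞 K) (ha : ∀ i, (3 : 𝓞 K) ∣ a i - 1) :
    ((∀ i, (9 : ℤ) ∣ Algebra.norm ℤ (a i) - 1) → (∃ D, Adm a D) ∧
      ∀ D, Adm a D ↔ Cls D ∧ ∀ i, IsCoprime D (a i)) ∧
    ((∃ D, Adm a D) →
      (∃ c : ℝ, 0 < c ∧ ∃ X₀ : ℕ, ∀ X : ℕ, X₀ ≤ X →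
        c * X ≤ ({D : 𝓞 K | Algebra.norm ℤ D ≤ X ∧ Adm a D}.ncard : ℝ)) ∧
      ∃ X₀ : ℕ, ∀ X : ℕ, X₀ ≤ X →
        0.639 ^ (n + 1).choose ((n - 2) / 2) *
            ({D : 𝓞 K | Algebra.norm ℤ D ≤ X ∧ Adm a D}.ncard : ℝ) ≤
          ({D : 𝓞 K | Algebra.norm ℤ D ≤ X ∧ Adm a D ∧ BB (co a D)}.ncard : ℝ)) := by
  obtain ⟨⟨j, hj⟩, -⟩ := Pool.Agent.Y455.CTK.jex K
  have ha' : ∀ i, (3 : Ei) ∣ j.symm (a i) - 1 := fun i =>
    Pool.Agent.Y696.CTK.three_dvd_symm j (ha i)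
  obtain ⟨U, e, hU, hU1, hfac⟩ := t_PRM n (fun i => j.symm (a i)) ha'
  set R := RT (fun i => j.symm (a i)) ((n - 2) / 2) with hR
  have hadm := adm_iff j hj a hU hU1 hfac
  have hcount : ∀ X : ℕ, {D : 𝓞 K | Algebra.norm ℤ D ≤ X ∧ Adm a D}.ncard =
      ((SS X).filter (CondJ U R)).card := by
    intro X
    rw [Pool.Agent.Y696.XK.img_ncard j hj X (fun D => ClsE D ∧ CondJ U R (PD D)) (Adm a) hadm]
    exact Pool.Agent.Y550.XK.NS.card_eq X (CondJ U R)
  have hlow : (4 ∈ R ∨ 7 ∈ R) → ∃ c : ℝ, 0 < c ∧ ∃ X₀ : ℕ, ∀ X : ℕ, X₀ ≤ X →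
      c * X ≤ ({D : 𝓞 K | Algebra.norm ℤ D ≤ X ∧ Adm a D}.ncard : ℝ) := by
    intro h47
    obtain ⟨c, X₀, hc, hX⟩ := t_LOWJ U R hU h47
    refine ⟨c, hc, X₀, fun X h => ?_⟩
    rw [hcount X]
    exact hX X h
  refine ⟨fun h9 => ?_, fun hex => ?_⟩
  · -- all norms are 1 modulo 9
    have hAT : ∀ T : Finset (Fin (n + 1)), nrm (AT (fun i => j.symm (a i)) T) % 9 = 1 := by
      have h1 : ∀ i, nrm (j.symm (a i)) % 9 = 1 := by
        intro i
        rw [← Pool.Agent.Y550.XK.NS.mod_iff, ← hj, RingEquiv.apply_symm_apply]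
        exact h9 i
      have h2 : ∀ s : Finset (Fin n), nrm (∏ i ∈ s, j.symm (a i)) % 9 = 1 := by
        intro s
        induction s using Finset.induction_on with
        | empty => rw [Finset.prod_empty, nrm_one]
        | insert i s hi ih =>
          rw [Finset.prod_insert hi, nrm_mul, Nat.mul_mod, h1, ih]
      intro T
      unfold AT
      rw [nrm_mul, Nat.mul_mod, h2, h2]
    have hmem : ∀ r : ℕ, r % 9 = 4 ∨ r % 9 = 7 → r ∈ R := by
      intro r hr T hT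
      rw [Nat.mul_mod, hAT T, mul_one, Nat.mod_mod]
      split_ifs
      · rw [Nat.pow_mod]
        rcases hr with hr | hr <;> rw [hr] <;> norm_num
      · rw [pow_one]
        rcases hr with hr | hr <;> rw [hr] <;> norm_num
    refine ⟨?_, ?_⟩
    · obtain ⟨c, hc, X₀, hX⟩ := hlow (Or.inl (hmem 4 (Or.inl rfl)))
      have h1 := hX (max X₀ 1) (le_max_left _ _)
      have h2 : (0 : ℝ) < c * ((max X₀ 1 : ℕ) : ℝ) := by
        have : (0 : ℝ) < ((max X₀ 1 : ℕ) : ℝ) := by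
          exact_mod_cast lt_of_lt_of_le one_pos (le_max_right _ _)
        positivity
      have h3 : 0 < {D : 𝓞 K | Algebra.norm ℤ D ≤ (max X₀ 1 : ℕ) ∧ Adm a D}.ncard := by
        exact_mod_cast h2.trans_le h1
      obtain ⟨D, hD⟩ := Set.nonempty_of_ncard_ne_zero h3.ne'
      exact ⟨D, hD.2⟩
    · intro D
      refine ⟨fun h => ⟨h.1, h.2.1⟩, fun h => ?_⟩
      obtain ⟨z, rfl⟩ := j.surjective D
      have hz : ClsE z := (Pool.Agent.Y696.XK.cls_iff j hj z).1 h.1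
      have hPS : PS z := ⟨hz.1, hz.2.1⟩
      have hpq : ∀ π ∈ PD z, Pq π := fun π hπ => ((mem_PD hPS.ne).1 hπ).1
      have hprod : ∏ π ∈ PD z, π = z := hPS.prod
      refine (hadm z).1 ⟨hz, ?_, ?_⟩
      · rw [← cop_iff (fun i => j.symm (a i)) hU hU1 hfac hpq, hprod]
        intro i
        have h2 := (h.2 i).map (j.symm : 𝓞 K →+* Ei)
        have e1 : (j.symm : 𝓞 K →+* Ei) (j z) = z := j.symm_apply_apply z
        rw [e1] at h2
        exact h2
      · apply hmem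
        have h3 : (∏ π ∈ PD z, nrm π) = nrm z := by
          rw [← Pool.Agent.Y550.XK.NS.nrm_prod, hprod]
        rw [h3, Nat.mod_mod]
        have h4 : ¬ nrm z % 9 = 1 := fun h => hz.2.2 ((Pool.Agent.Y550.XK.NS.mod_iff z).2 h)
        have h5 := nr_prm hz.1
        rw [← nrm_cast] at h5
        omega
  · have h47 : 4 ∈ R ∨ 7 ∈ R := by
      obtain ⟨D, hD⟩ := hex
      obtain ⟨z, rfl⟩ := j.surjective D
      obtain ⟨hz, -, h2⟩ := (hadm z).2 hD
      have hPS : PS z := ⟨hz.1, hz.2.1⟩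
      have hprod : ∏ π ∈ PD z, π = z := hPS.prod
      have h3 : (∏ π ∈ PD z, nrm π) = nrm z := by
        rw [← Pool.Agent.Y550.XK.NS.nrm_prod, hprod]
      rw [h3] at h2
      have h4 : ¬ nrm z % 9 = 1 := fun h => hz.2.2 ((Pool.Agent.Y550.XK.NS.mod_iff z).2 h)
      have h5 := nr_prm hz.1
      rw [← nrm_cast] at h5
      have h6 : nrm z % 9 = 4 ∨ nrm z % 9 = 7 := by omega
      rcases h6 with h6 | h6
      · left; rwa [h6] at h2
      · right; rwa [h6] at h2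
    refine ⟨hlow h47, ?_⟩
    -- the weights
    obtain ⟨W, hW⟩ : ∃ W : Finset (Ei → F), W =
        (Finset.powersetCard ((n - 2) / 2) (Finset.univ : Finset (Fin (n + 1)))).image
          (fun T => wE e U T) := ⟨_, rfl⟩
    obtain ⟨k, hk⟩ : ∃ k : ℕ, k = W.card := ⟨_, rfl⟩
    have hkC : k ≤ (n + 1).choose ((n - 2) / 2) := by
      rw [hk, hW]
      refine Finset.card_image_le.trans ?_
      rw [Finset.card_powersetCard, Finset.card_univ, Fintype.card_fin]
    obtain ⟨φ⟩ : Nonempty (Fin k ≃ W) := ⟨(Finset.equivFinOfCardEq hk.symm).symm⟩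
    obtain ⟨ww, hww⟩ : ∃ ww : Fin k → Ei → F, ww = fun i => (φ i : Ei → F) := ⟨_, rfl⟩
    have hmemW : ∀ i, ∃ T : Finset (Fin (n + 1)), wE e U T = ww i := by
      intro i
      have h0 : ∀ g : Ei → F, g ∈ W → ∃ T : Finset (Fin (n + 1)), wE e U T = g := by
        intro g hg
        rw [hW, Finset.mem_image] at hg
        obtain ⟨T, -, hT⟩ := hg
        exact ⟨T, hT⟩
      obtain ⟨T, hT⟩ := h0 _ (φ i).2
      exact ⟨T, by rw [hT, hww]⟩
    have hw1 : ∀ i, ∀ π, π ∉ U → ww i π = 1 := by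
      intro i π hπ
      obtain ⟨T, hT⟩ := hmemW i
      rw [← hT]
      unfold wE
      rw [if_neg hπ]
    have hw2 : ∀ i i', i ≠ i' → ∃ u ∈ U, ww i u ≠ ww i' u := by
      intro i i' hii
      by_contra hc
      push Not at hc
      apply hii
      apply φ.injective
      apply Subtype.ext
      have h1 : ww i = ww i' := by
        funext u
        by_cases hu : u ∈ U
        · exact hc u hu
        · rw [hw1 i u hu, hw1 i' u hu]
      rw [hww] at h1
      exact h1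
    have hlim := t_DQJ' k ww U R hU hw1 hw2 h47
    obtain ⟨-, c1, c2, c3, -⟩ := Pool.Agent.Y703.XL.t_C9
    have hC1 : 1 ≤ (n + 1).choose ((n - 2) / 2) :=
      Nat.choose_pos (by omega)
    have hlt : (0.639 : ℝ) ^ (n + 1).choose ((n - 2) / 2) < c9 ^ k := by
      refine lt_of_lt_of_le (pow_lt_pow_left₀ c3 (by norm_num) (by omega)) ?_
      exact pow_le_pow_of_le_one c1.le c2.le hkC
    have hev := hlim.eventually (lt_mem_nhds hlt)
    obtain ⟨X₁, hX1⟩ := Filter.eventually_atTop.1 hev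
    obtain ⟨c, hc, X₀, hX0⟩ := hlow h47
    refine ⟨max X₀ (max X₁ 1), fun X hXX => ?_⟩
    have a1 : X₀ ≤ X := le_trans (le_max_left _ _) hXX
    have a2 : X₁ ≤ X := le_trans (le_trans (le_max_left _ _) (le_max_right _ _)) hXX
    have a3 : 1 ≤ X := le_trans (le_trans (le_max_right _ _) (le_max_right _ _)) hXX
    have hpos : (0 : ℝ) < ({D : 𝓞 K | Algebra.norm ℤ D ≤ X ∧ Adm a D}.ncard : ℝ) := by
      refine lt_of_lt_of_le ?_ (hX0 X a1)
      have : (1 : ℝ) ≤ X := by exact_mod_cast a3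
      positivity
    have hfin : {D : 𝓞 K | Algebra.norm ℤ D ≤ X ∧ Adm a D}.Finite :=
      Set.finite_of_ncard_pos (by exact_mod_cast hpos)
    have h7 := hX1 X a2
    rw [← hcount X, lt_div_iff₀ hpos] at h7
    refine h7.le.trans ?_
    have h8 : (((SS X).filter fun S => CondJ U R S ∧ GW ww (S ∪ U)).card : ℝ) =
        ({D : 𝓞 K | Algebra.norm ℤ D ≤ X ∧ (Adm a D ∧ GW ww (PD (j.symm D) ∪ U))}.ncard : ℝ) := by
      rw [Pool.Agent.Y696.XK.img_ncard j hj X
        (fun D => ClsE D ∧ (CondJ U R (PD D) ∧ GW ww (PD D ∪ U)))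
        (fun D => Adm a D ∧ GW ww (PD (j.symm D) ∪ U)) fun D => by
          rw [RingEquiv.symm_apply_apply, ← hadm D]
          tauto]
      rw [Pool.Agent.Y550.XK.NS.card_eq X (fun S => CondJ U R S ∧ GW ww (S ∪ U))]
      congr
    rw [h8]
    have h9 : {D : 𝓞 K | Algebra.norm ℤ D ≤ X ∧ (Adm a D ∧ GW ww (PD (j.symm D) ∪ U))} ⊆
        {D : 𝓞 K | Algebra.norm ℤ D ≤ X ∧ Adm a D ∧ BB (co a D)} := by
      rintro D ⟨b1, b2, b3⟩
      refine ⟨b1, b2, ?_⟩
      obtain ⟨z, rfl⟩ := j.surjective D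
      rw [RingEquiv.symm_apply_apply] at b3
      obtain ⟨hz, g1, g2⟩ := (hadm z).2 b2
      have hPS : PS z := ⟨hz.1, hz.2.1⟩
      have hpq : ∀ π ∈ PD z, Pq π := fun π hπ => ((mem_PD hPS.ne).1 hπ).1
      have hprod : ∏ π ∈ PD z, π = z := hPS.prod
      have h3 : (∏ π ∈ PD z, nrm π) = nrm z := by
        rw [← Pool.Agent.Y550.XK.NS.nrm_prod, hprod]
      rw [h3, mem_RT (fun i => j.symm (a i)) (rfl : nrm z % 9 = nrm z % 9)] at g2
      have h10 := bb_of j hj hn a ha hU hfac hpq g1 (by rw [hprod]; exact g2) (by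
        intro T hT
        have h11 : wE e U T ∈ W := by
          rw [hW, Finset.mem_image]
          exact ⟨T, Finset.mem_powersetCard.2 ⟨Finset.subset_univ _, hT⟩, rfl⟩
        obtain ⟨i, hi⟩ := φ.surjective ⟨_, h11⟩
        have h12 := b3 i
        have h13 : ww i = wE e U T := by
          rw [hww]
          show ((φ i : W) : Ei → F) = _
          rw [hi]
        rw [h13] at h12
        exact h12)
      rw [hprod] at h10
      exact h10
    exact_mod_cast Set.ncard_le_ncard h9 (hfin.subset fun D hD => ⟨hD.1, hD.2.1⟩)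

end Pool.Agent.H451.CubT
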