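import Mathlib
import Pool.Agent.H451.BB.Main2
import Pool.Agent.H451.BB.Def3
import Pool.Agent.H451.JLM.DQ
import Pool.Agent.H451.JL.BASE
import Pool.Agent.H451.JL.FACT

/-!
# Diagonal cubic hypersurfaces with varying coefficients: translation
-/

set_option autoImplicit false
set_option linter.unusedVariables false
set_option linter.unusedSectionVars false

namespace Pool.Agent.H451.CubT

open NumberField IsDedekindDomain Finset
open scoped Classical

open Pool.Agent.Y692.QS (Ei w toC nr)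
open Pool.Agent.Y715.T.RecG (Pq)
open Pool.Agent.Y703.CT (ClsE)
open Pool.Agent.Y696.CTK (ClsK)
open Pool.Agent.Y715.T.Rec (cs nn)
open Pool.Agent.H451.BB
open Pool.Agent.H451.JL (F sw nW GW eD t_BASE)
open Pool.Agent.H451.JLM
open Pool.Agent.Y699.E (nrm nrm_cast nrm_mul nrm_one PD mem_PD PS PS_prod pq_cop norm_le_of_dvd prm_mul)
open Pool.Agent.Y703.XK (SS c9)

/-! ### Marks and factorisations -/

section marks
variable {m : ℕ} (m₁ : Fin m) {S : Finset Ei}

/-- the factorisation given by marks -/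
noncomputable def fa (S : Finset Ei) (μ : Ei → Fin m) (i : Fin m) : Ei :=
  ∏ π ∈ S.filter (fun π => μ π = i), π

theorem fa_prod (μ : Ei → Fin m) : ∏ i, fa S μ i = ∏ π ∈ S, π := by
  unfold fa
  exact Finset.prod_fiberwise S μ fun π => π

theorem fa_prm (hS : ∀ π ∈ S, Pq π) (μ : Ei → Fin m) (i : Fin m) : (3 : Ei) ∣ fa S μ i - 1 :=
  (PS_prod (S := S.filter fun π => μ π = i) fun π hπ => hS π (Finset.mem_filter.1 hπ).1).1.prm

theorem fa_PD (hS : ∀ π ∈ S, Pq π) (μ : Ei → Fin m) (i : Fin m) :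
    PD (fa S μ i) = S.filter fun π => μ π = i :=
  (PS_prod (S := S.filter fun π => μ π = i) fun π hπ => hS π (Finset.mem_filter.1 hπ).1).2

/-- the factorisations of the product of `S` -/
def FE (S : Finset Ei) (a : Fin m → Ei) : Prop := (∀ i, (3 : Ei) ∣ a i - 1) ∧ ∏ i, a i = ∏ π ∈ S, π

theorem mark_bij (hS : ∀ π ∈ S, Pq π) : Function.Bijective
    (fun f : S → Fin m => (⟨fa S (mx m₁ S f), fa_prm hS _, fa_prod _⟩ :
      {a : Fin m → Ei // FE S a})) := by
  constructor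
  · intro f g h
    have h1 : fa S (mx m₁ S f) = fa S (mx m₁ S g) := congrArg Subtype.val h
    funext π
    have h2 : S.filter (fun ρ => mx m₁ S f ρ = f π) = S.filter fun ρ => mx m₁ S g ρ = f π := by
      rw [← fa_PD hS, ← fa_PD hS, h1]
    have h3 : (π : Ei) ∈ S.filter fun ρ => mx m₁ S f ρ = f π := by
      rw [Finset.mem_filter]
      refine ⟨π.2, ?_⟩
      unfold mx
      rw [dif_pos π.2]
    rw [h2, Finset.mem_filter] at h3
    have h4 := h3.2
    unfold mx at h4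
    rw [dif_pos π.2] at h4
    exact h4.symm
  · rintro ⟨a, ha1, ha2⟩
    obtain ⟨hPS, hPD⟩ := PS_prod hS
    have hne := hPS.ne
    -- every a i is squarefree
    have hdv : ∀ i, a i ∣ ∏ π ∈ S, π := fun i => by
      rw [← ha2]
      exact Finset.dvd_prod_of_mem _ (Finset.mem_univ i)
    have hps : ∀ i, PS (a i) := fun i => ⟨ha1 i, hPS.sqf.squarefree_of_dvd (hdv i)⟩
    have hsub : ∀ i, PD (a i) ⊆ S := by
      intro i π hπ
      rw [mem_PD (hps i).ne] at hπ
      rw [← hPD, mem_PD hne]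
      exact ⟨hπ.1, hπ.2.trans (hdv i)⟩
    have hex : ∀ π : S, ∃ i, (π : Ei) ∣ a i := by
      intro π
      have h1 : (π : Ei) ∣ ∏ i, a i := by
        rw [ha2]
        exact Finset.dvd_prod_of_mem _ π.2
      obtain ⟨i, -, hi⟩ := (hS π π.2).prime.exists_mem_finset_dvd h1
      exact ⟨i, hi⟩
    have huniq : ∀ π ∈ S, ∀ i l, π ∣ a i → π ∣ a l → i = l := by
      intro π hπ i l h1 h2
      by_contra hne'
      have h3 : a i * a l ∣ ∏ π ∈ S, π := by
        rw [← ha2, ← Finset.prod_pair (f := a) hne']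
        exact Finset.prod_dvd_prod_of_subset _ _ _ (Finset.subset_univ _)
      have h4 : π * π ∣ ∏ π ∈ S, π := (mul_dvd_mul h1 h2).trans h3
      exact (hS π hπ).prime.not_isUnit (hPS.sqf π h4)
    choose f hf using hex
    refine ⟨f, Subtype.ext ?_⟩
    funext i
    show fa S (mx m₁ S f) i = a i
    rw [← (hps i).prod]
    unfold fa
    congr 1
    ext π
    rw [Finset.mem_filter, mem_PD (hps i).ne]
    constructor
    · rintro ⟨h1, h2⟩
      unfold mx at h2
      rw [dif_pos h1] at h2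
      refine ⟨hS π h1, ?_⟩
      rw [← h2]
      exact hf ⟨π, h1⟩
    · rintro ⟨h1, h2⟩
      have h3 : π ∈ S := hsub i (by rw [mem_PD (hps i).ne]; exact ⟨h1, h2⟩)
      refine ⟨h3, ?_⟩
      unfold mx
      rw [dif_pos h3]
      exact huniq π h3 _ _ (hf ⟨π, h3⟩) h2

end marks

section K
variable {K : Type} [Field K] [NumberField K] [IsCyclotomicExtension {3} ℚ K] (j : Ei ≃+* 𝓞 K)

theorem share_eq {m : ℕ} (m₁ : Fin m) {S : Finset Ei} (hS : ∀ π ∈ S, Pq π)
    (P : (Fin m → 𝓞 K) → Prop) :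
    share P (j (∏ π ∈ S, π)) = av m₁ S fun μ => P fun i => j (fa S μ i) := by
  obtain ⟨e, he⟩ : ∃ e : {a : Fin m → Ei // FE S a} ≃ {a : Fin m → 𝓞 K // Fac (j (∏ π ∈ S, π)) a},
      ∀ a i, (e a).1 i = j (a.1 i) := by
    refine ⟨Equiv.subtypeEquiv (Equiv.piCongrRight fun _ => j.toEquiv) fun a => ?_, fun a i => rfl⟩
    unfold FE Fac
    refine and_congr (forall_congr' fun i => ?_) ?_
    · show (3 : Ei) ∣ a i - 1 ↔ (3 : 𝓞 K) ∣ j (a i) - 1
      constructor
      · rintro ⟨c, hc⟩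
        refine ⟨j c, ?_⟩
        have := congrArg j hc
        rwa [map_sub, map_one, map_mul, map_ofNat] at this
      · rintro ⟨c, hc⟩
        refine ⟨j.symm c, j.injective ?_⟩
        rw [map_sub, map_one, map_mul, map_ofNat, RingEquiv.apply_symm_apply]
        exact hc
    · show ∏ i, a i = ∏ π ∈ S, π ↔ ∏ i, j (a i) = j (∏ π ∈ S, π)
      rw [← map_prod, j.injective.eq_iff]
  have hall : (Nat.card {a : Fin m → 𝓞 K // Fac (j (∏ π ∈ S, π)) a} : ℝ) = (m : ℝ) ^ S.card := by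
    rw [← Nat.card_congr e, ← Nat.card_congr (Equiv.ofBijective _ (mark_bij m₁ hS)),
      Nat.card_eq_fintype_card, cardF]
    push_cast
    rfl
  have hP : (Nat.card {a : Fin m → 𝓞 K // Fac (j (∏ π ∈ S, π)) a ∧ P a} : ℝ) =
      ((univ.filter fun f : S → Fin m => P fun i => j (fa S (mx m₁ S f) i)).card : ℝ) := by
    have e1 : {f : S → Fin m // P fun i => j (fa S (mx m₁ S f) i)} ≃
        {a : {a : Fin m → 𝓞 K // Fac (j (∏ π ∈ S, π)) a} // P a.1} := by
      refine Equiv.subtypeEquiv ((Equiv.ofBijective _ (mark_bij m₁ hS)).trans e) fun f => ?_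
      have h1 : (((Equiv.ofBijective _ (mark_bij m₁ hS)).trans e) f).1 =
          fun i => j (fa S (mx m₁ S f) i) := by
        funext i
        rw [Equiv.trans_apply, he]
        rfl
      rw [h1]
    have e2 : {a : {a : Fin m → 𝓞 K // Fac (j (∏ π ∈ S, π)) a} // P a.1} ≃
        {a : Fin m → 𝓞 K // Fac (j (∏ π ∈ S, π)) a ∧ P a} :=
      Equiv.subtypeSubtypeEquivSubtypeInter (fun a => Fac (j (∏ π ∈ S, π)) a) P
    rw [← Nat.card_congr e2, ← Nat.card_congr e1, Nat.card_eq_fintype_card,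
      Fintype.card_subtype]
  unfold share
  rw [hall, hP, av_eq]

/-- the elements of the class and the sets of primes -/
theorem set_eq (hj : ∀ z : Ei, Algebra.norm ℤ (j z) = nr z) (X : ℕ) :
    {D : 𝓞 K | Algebra.norm ℤ D ≤ X ∧ Cls D} =
      (((SS X).image fun S => j (∏ π ∈ S, π) : Finset (𝓞 K)) : Set (𝓞 K)) := by
  ext D
  obtain ⟨z, rfl⟩ := j.surjective D
  have hcl : Cls (j z) ↔ ClsE z := Pool.Agent.Y696.XK.cls_iff j hj z
  rw [Finset.mem_coe, Finset.mem_image, Set.mem_ofPred_eq, hj, hcl]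
  constructor
  · rintro ⟨h1, h2⟩
    have hD : PS z := ⟨h2.1, h2.2.1⟩
    refine ⟨PD z, ?_, by rw [hD.prod]⟩
    have h4 : nrm z ≤ X := by
      rw [← nrm_cast] at h1
      exact_mod_cast h1
    unfold SS
    rw [Finset.mem_filter, Finset.mem_powerset]
    refine ⟨fun π hπ => ?_, (Pool.Agent.Y550.XK.NS.cls_iff hD).1 h2, ?_⟩
    · obtain ⟨h5, h6⟩ := (mem_PD hD.ne).1 hπ
      exact Pool.Agent.Y699.E.mem_QB.2 ⟨(norm_le_of_dvd hD.ne h6).trans h4, h5⟩
    · rw [← Pool.Agent.Y550.XK.NS.nrm_prod, hD.prod]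
      exact h4
  · rintro ⟨S, hS, hz⟩
    have hz' : ∏ π ∈ S, π = z := j.injective hz
    rw [← hz']
    unfold SS at hS
    rw [Finset.mem_filter] at hS
    obtain ⟨-, h3, h4⟩ := hS
    obtain ⟨h5, h6⟩ := PS_prod h3.1
    refine ⟨?_, (Pool.Agent.Y550.XK.NS.cls_iff h5).2 (by rw [h6]; exact h3)⟩
    rw [← nrm_cast, Pool.Agent.Y550.XK.NS.nrm_prod]
    exact_mod_cast h4

theorem SS_Pq {X : ℕ} {S : Finset Ei} (h : S ∈ SS X) : ∀ π ∈ S, Pq π := by
  unfold SS at h
  exact (Finset.mem_filter.1 h).2.1.1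

theorem inj_SS (X : ℕ) : Set.InjOn (fun S : Finset Ei => j (∏ π ∈ S, π))
    ((SS X : Finset (Finset Ei)) : Set (Finset Ei)) := by
  intro S hS S' hS' h
  have h1 : ∏ π ∈ S, π = ∏ π ∈ S', π := j.injective h
  rw [← (PS_prod (SS_Pq hS)).2, ← (PS_prod (SS_Pq hS')).2, h1]

theorem sum_share (hj : ∀ z : Ei, Algebra.norm ℤ (j z) = nr z) {m : ℕ} (m₁ : Fin m)
    (P : (Fin m → 𝓞 K) → Prop) (X : ℕ) :
    ∑ᶠ D ∈ {D : 𝓞 K | Algebra.norm ℤ D ≤ X ∧ Cls D}, share P D =
      ∑ S ∈ SS X, av m₁ S fun μ => P fun i => j (fa S μ i) := by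
  rw [set_eq j hj X, finsum_mem_coe_finset, Finset.sum_image (inj_SS j X)]
  exact Finset.sum_congr rfl fun S hS => share_eq j m₁ (SS_Pq hS) P


/-! ### Weights -/

/-- the weights of the sets `T` -/
def WT {m k : ℕ} (φ : Fin k → Finset (Fin m)) (i : Fin k) (l : Fin m) : F :=
  if l ∈ φ i then -1 else 1

theorem WT_ne {m k : ℕ} (φ : Fin k → Finset (Fin m)) (i : Fin k) (l : Fin m) : WT φ i l ≠ 0 := by
  unfold WT
  split_ifs <;> decide

theorem WT_NP {m k h : ℕ} (hm : 2 * h < m) (φ : Fin k → Finset (Fin m))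
    (hφ : Function.Injective φ) (hc : ∀ i, (φ i).card = h) : NP (WT φ) := by
  have hm0 : 0 < m := by omega
  refine ⟨fun i => ⟨⟨0, hm0⟩, WT_ne _ _ _⟩, fun i l hil δ => ?_⟩
  by_contra hcon
  push Not at hcon
  -- an index outside both sets
  have h1 : ∃ x, x ∉ φ i ∪ φ l := by
    by_contra hx
    push Not at hx
    have h2 : (univ : Finset (Fin m)) ⊆ φ i ∪ φ l := fun x _ => hx x
    have h3 := (Finset.card_le_card h2).trans (Finset.card_union_le _ _)
    rw [Finset.card_univ, Fintype.card_fin, hc, hc] at h3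
    omega
  obtain ⟨x, hx⟩ := h1
  rw [Finset.mem_union, not_or] at hx
  have h4 := hcon x
  unfold WT at h4
  rw [if_neg hx.1, if_neg hx.2, mul_one] at h4
  apply hil
  apply hφ
  ext y
  have h5 := hcon y
  rw [← h4, one_mul] at h5
  unfold WT at h5
  by_cases hy : y ∈ φ i
  · rw [if_pos hy] at h5
    refine ⟨fun _ => ?_, fun _ => hy⟩
    by_contra hy'
    rw [if_neg hy'] at h5
    exact absurd h5 (by decide)
  · rw [if_neg hy] at h5
    refine ⟨fun h => absurd h hy, fun h => ?_⟩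
    rw [if_pos h] at h5
    exact absurd h5 (by decide)

theorem DD_fa {m k : ℕ} {S : Finset Ei} (φ : Fin k → Finset (Fin m)) (μ : Ei → Fin m) (i : Fin k) :
    DD (fa S μ) (φ i) = eD 1 (wM (WT φ) μ i) S := by
  have h1 : sw (wM (WT φ) μ i) S = S := by
    unfold sw
    exact Finset.filter_true_of_mem fun π _ => WT_ne _ _ _
  unfold DD eD
  rw [h1, fa_prod]
  have h2 : ∏ l ∈ φ i, fa S μ l = ∏ π ∈ S, if μ π ∈ φ i then π else 1 := by
    unfold fa
    rw [← Finset.prod_filter]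
    have h3 : (S.filter fun π => μ π ∈ φ i) = (φ i).biUnion fun l => S.filter fun π => μ π = l := by
      ext π
      simp only [Finset.mem_filter, Finset.mem_biUnion]
      constructor
      · rintro ⟨h4, h5⟩
        exact ⟨μ π, h5, h4, rfl⟩
      · rintro ⟨l, h4, h5, h6⟩
        exact ⟨h5, by rw [h6]; exact h4⟩
    rw [h3, Finset.prod_biUnion]
    intro l _ l' _ hne
    rw [Function.onFun, Finset.disjoint_left]
    intro π h4 h5
    rw [Finset.mem_filter] at h4 h5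
    exact hne (h4.2.symm.trans h5.2)
  rw [h2, ← Finset.prod_mul_distrib]
  refine Finset.prod_congr rfl fun π _ => ?_
  unfold wM WT
  split_ifs
  · rw [one_mul]
    show π * π = π ^ (ZMod.val (-1 : ZMod 3))
    rw [show ZMod.val (-1 : ZMod 3) = 2 from rfl, sq]
  · rw [one_mul]
    show π * 1 = π ^ (ZMod.val (1 : ZMod 3))
    rw [show ZMod.val (1 : ZMod 3) = 1 from rfl, pow_one, mul_one]

/-- the admissible residues -/
def RA (m : ℕ) : Set (Fin m → ℕ) := {r | ∀ T : Finset (Fin m), T.card = (m - 3) / 2 →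
  ¬ ((∏ i, r i) * ∏ i ∈ T, r i) % 9 = 1}

theorem cond_iff {m : ℕ} {S : Finset Ei} (μ : Ei → Fin m) : CondM (RA m) μ S ↔
    ∀ T : Finset (Fin m), T.card = (m - 3) / 2 → ¬ (9 : ℤ) ∣ nr (DD (fa S μ) T) - 1 := by
  unfold CondM RA
  rw [Set.mem_ofPred_eq]
  refine forall_congr' fun T => forall_congr' fun hT => not_congr ?_
  rw [Pool.Agent.Y550.XK.NS.mod_iff]
  have h1 : ∀ i, nrm (fa S μ i) = ∏ π ∈ S.filter (fun π => μ π = i), nrm π := fun i =>
    Pool.Agent.Y550.XK.NS.nrm_prod _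
  have h2 : ∀ s : Finset (Fin m), (∏ i ∈ s, (∏ π ∈ S.filter (fun π => μ π = i), nrm π) % 9) % 9 =
      nrm (∏ i ∈ s, fa S μ i) % 9 := by
    intro s
    induction s using Finset.induction_on with
    | empty => rw [Finset.prod_empty, Finset.prod_empty, nrm_one]
    | insert i s hi ih =>
      rw [Finset.prod_insert hi, Finset.prod_insert hi, nrm_mul, h1, Nat.mul_mod, ih, Nat.mod_mod,
        ← Nat.mul_mod]
  unfold DD
  rw [nrm_mul, Nat.mul_mod, h2, h2, ← Nat.mul_mod]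

theorem RA_mem {m : ℕ} (hm : m = 5 ∨ m = 7) : ∃ r ∈ RA m,
    (∀ i, r i = 1 ∨ r i = 4 ∨ r i = 7) ∧ (∏ i, r i) % 9 ≠ 1 := by
  have hm0 : 0 < m := by omega
  obtain ⟨z, hz⟩ : ∃ z : Fin m, z = ⟨0, hm0⟩ := ⟨_, rfl⟩
  have h1 : ∀ T : Finset (Fin m), ∏ i ∈ T, (if i = z then 4 else 1) = if z ∈ T then 4 else 1 := by
    intro T
    rw [Finset.prod_ite_eq']
  refine ⟨fun i => if i = z then 4 else 1, ?_, ?_, ?_⟩
  · intro T _
    rw [h1, h1, if_pos (Finset.mem_univ z)]
    split_ifs <;> norm_num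
  · intro i
    by_cases h : i = z
    · right; left; exact if_pos h
    · left; exact if_neg h
  · rw [h1, if_pos (Finset.mem_univ z)]
    norm_num

theorem bb_fa (hj : ∀ z : Ei, Algebra.norm ℤ (j z) = nr z) {m k : ℕ} (hm : m = 5 ∨ m = 7)
    {S : Finset Ei} (hS : ∀ π ∈ S, Pq π) (φ : Fin k → Finset (Fin m))
    (hφ : ∀ T : Finset (Fin m), T.card = (m - 3) / 2 → ∃ i, φ i = T) (μ : Ei → Fin m)
    (hc : CondM (RA m) μ S) (hG : GW (wM (WT φ) μ) S) : BB fun i => j (fa S μ i) := by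
  rw [cond_iff] at hc
  have hsymm : (fun i => j.symm (j (fa S μ i))) = fa S μ := by
    funext i
    rw [RingEquiv.symm_apply_apply]
  refine mainE j hj (by omega) _ (fun i => ?_) fun T hT => ?_
  · intro h0
    have h1 : fa S μ i = 0 := (map_eq_zero_iff j j.injective).1 h0
    unfold fa at h1
    rw [Finset.prod_eq_zero_iff] at h1
    obtain ⟨π, h2, h3⟩ := h1
    exact (hS π (Finset.mem_filter.1 h2).1).prime.ne_zero h3
  · obtain ⟨i, rfl⟩ := hφ T hT
    rw [hsymm]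
    refine ⟨_, 1, 1, t_BASE S (wM (WT φ) μ i) 1 hS one_ne_zero (hG i) ?_, one_ne_zero,
      one_ne_zero, ?_⟩
    · rw [← DD_fa]
      exact hc (φ i) hT
    · rw [DD_fa, one_pow]

theorem adm_fa (hj : ∀ z : Ei, Algebra.norm ℤ (j z) = nr z) {m : ℕ} {S : Finset Ei}
    (μ : Ei → Fin m) : (AdmA fun i => j (fa S μ i)) ↔ CondM (RA m) μ S := by
  rw [cond_iff]
  unfold AdmA
  refine forall_congr' fun T => forall_congr' fun hT => ?_
  have h4 : DS (fun i => j (fa S μ i)) T = j (DD (fa S μ) T) := by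
    unfold DS DD
    rw [map_mul, map_prod, map_prod]
  rw [h4, hj]

end K

end Pool.Agent.H451.CubT
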