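import Mathlib
import Pool.Agent.H451.BB.Fin3
import Pool.Agent.H451.JLM.Asm

/-!
# Diagonal cubic hypersurfaces with varying coefficients: the final theorem
-/

set_option autoImplicit false
set_option linter.unusedVariables false

namespace Pool.Agent.H451.CubT

open NumberField IsDedekindDomain Finset
open scoped Classical

open Pool.Agent.Y692.QS (Ei w toC nr)
open Pool.Agent.Y715.T.RecG (Pq)
open Pool.Agent.H451.BB
open Pool.Agent.H451.JL (F sw nW GW)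
open Pool.Agent.H451.JLM
open Pool.Agent.Y703.XK (SS c9)

theorem av_le_one {m : ℕ} (m₁ : Fin m) (S : Finset Ei) (Q : (Ei → Fin m) → Prop) :
    av m₁ S Q ≤ 1 := by
  have hm : 0 < m := m₁.pos
  unfold av
  rw [div_le_one (by positivity)]
  have h1 := Finset.card_filter_le (univ : Finset (S → Fin m))
    (fun f : S → Fin m => Q fun π => if h : π ∈ S then f ⟨π, h⟩ else m₁)
  rw [Finset.card_univ, cardF] at h1
  exact_mod_cast h1

theorem av_nonneg {m : ℕ} (m₁ : Fin m) (S : Finset Ei) (Q : (Ei → Fin m) → Prop) :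
    0 ≤ av m₁ S Q := by
  unfold av
  positivity

theorem av_mono {m : ℕ} (m₁ : Fin m) (S : Finset Ei) {Q Q' : (Ei → Fin m) → Prop}
    (h : ∀ μ, Q μ → Q' μ) : av m₁ S Q ≤ av m₁ S Q' := by
  unfold av
  refine div_le_div_of_nonneg_right ?_ (by positivity)
  have h1 : (univ.filter fun f : S → Fin m => Q fun π => if h : π ∈ S then f ⟨π, h⟩ else m₁) ⊆
      univ.filter fun f : S → Fin m => Q' fun π => if h : π ∈ S then f ⟨π, h⟩ else m₁ := by
    intro f hf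
    rw [mem_filter] at hf ⊢
    exact ⟨hf.1, h _ hf.2⟩
  exact_mod_cast Finset.card_le_card h1

/-- the theorem -/
theorem final3 (K : Type) [Field K] [NumberField K] [IsCyclotomicExtension {3} ℚ K] (m : ℕ)
    (hm : m = 5 ∨ m = 7) :
    (∃ c : ℝ, 0 < c ∧ ∃ X₀ : ℕ, ∀ X : ℕ, X₀ ≤ X →
      c * X ≤ ∑ᶠ D ∈ {D : 𝓞 K | Algebra.norm ℤ D ≤ X ∧ Cls D}, share (m := m) AdmA D) ∧
    (∃ X₀ : ℕ, ∀ X : ℕ, X₀ ≤ X →
      0.639 ^ m.choose ((m - 3) / 2) *
        ∑ᶠ D ∈ {D : 𝓞 K | Algebra.norm ℤ D ≤ X ∧ Cls D}, share (m := m) AdmA D ≤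
      ∑ᶠ D ∈ {D : 𝓞 K | Algebra.norm ℤ D ≤ X ∧ Cls D},
        share (m := m) (fun a => AdmA a ∧ BB a) D) ∧
    ∃ c : ℝ, 0 < c ∧ ∃ X₀ : ℕ, ∀ X : ℕ, X₀ ≤ X →
      c * X ≤ ({D : 𝓞 K | Algebra.norm ℤ D ≤ X ∧ Cls D ∧
        c ≤ share (m := m) (fun a => AdmA a ∧ BB a) D}.ncard : ℝ) := by
  obtain ⟨⟨j, hj⟩, -⟩ := Pool.Agent.Y455.CTK.jex K
  have hm0 : 0 < m := by omega
  obtain ⟨m₁, -⟩ : ∃ m₁ : Fin m, m₁ = ⟨0, hm0⟩ := ⟨_, rfl⟩
  obtain ⟨h, hh⟩ : ∃ h : ℕ, h = (m - 3) / 2 := ⟨_, rfl⟩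
  have h2m : 2 * h < m := by omega
  have hcard : (powersetCard h (univ : Finset (Fin m))).card = m.choose h := by
    rw [card_powersetCard, card_univ, Fintype.card_fin]
  obtain ⟨ψ⟩ : Nonempty (Fin (m.choose h) ≃ powersetCard h (univ : Finset (Fin m))) :=
    ⟨(Finset.equivFinOfCardEq hcard).symm⟩
  obtain ⟨φ, hφ⟩ : ∃ φ : Fin (m.choose h) → Finset (Fin m), φ = fun i => (ψ i : Finset (Fin m)) :=
    ⟨_, rfl⟩
  have hφ1 : Function.Injective φ := by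
    rw [hφ]
    exact Subtype.val_injective.comp ψ.injective
  have hφ2 : ∀ i, (φ i).card = h := by
    intro i
    rw [hφ]
    exact (mem_powersetCard.1 (ψ i).2).2
  have hφ3 : ∀ T : Finset (Fin m), T.card = (m - 3) / 2 → ∃ i, φ i = T := by
    intro T hT
    obtain ⟨i, hi⟩ := ψ.surjective ⟨T, mem_powersetCard.2 ⟨subset_univ _, by rw [hT, hh]⟩⟩
    exact ⟨i, by rw [hφ]; show ((ψ i : _) : Finset (Fin m)) = T; rw [hi]⟩
  have hNP : NP (WT φ) := WT_NP h2m φ hφ1 hφ2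
  have hlim := t_DQ' _ m (WT φ) m₁ (RA m) hNP (RA_mem hm)
  obtain ⟨c, X₀, hc, hlow⟩ := t_LOW m m₁ (RA m) (RA_mem hm)
  obtain ⟨-, c1, c2, c3, -⟩ := Pool.Agent.Y703.XL.t_C9
  -- the sums
  have hadm : ∀ X : ℕ, ∑ᶠ D ∈ {D : 𝓞 K | Algebra.norm ℤ D ≤ X ∧ Cls D}, share (m := m) AdmA D =
      ∑ S ∈ SS X, av m₁ S fun μ => CondM (RA m) μ S := by
    intro X
    rw [sum_share j hj m₁]
    refine sum_congr rfl fun S _ => ?_
    congr 1
    funext μ
    exact propext (adm_fa j hj μ)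
  have hbb : ∀ X : ℕ, ∑ S ∈ SS X, (av m₁ S fun μ => CondM (RA m) μ S ∧ GW (wM (WT φ) μ) S) ≤
      ∑ᶠ D ∈ {D : 𝓞 K | Algebra.norm ℤ D ≤ X ∧ Cls D},
        share (m := m) (fun a => AdmA a ∧ BB a) D := by
    intro X
    rw [sum_share j hj m₁]
    refine sum_le_sum fun S hS => av_mono m₁ S fun μ hμ => ⟨(adm_fa j hj μ).2 hμ.1, ?_⟩
    exact bb_fa j hj hm (SS_Pq hS) φ hφ3 μ hμ.1 hμ.2
  have hC1 : 1 ≤ m.choose h := Nat.choose_pos (by omega)
  have hlt : (0.639 : ℝ) ^ m.choose h < c9 ^ m.choose h :=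
    pow_lt_pow_left₀ c3 (by norm_num) (by omega)
  have hev := hlim.eventually (lt_mem_nhds hlt)
  obtain ⟨X₁, hX1⟩ := Filter.eventually_atTop.1 hev
  have hsec : ∃ X₀ : ℕ, ∀ X : ℕ, X₀ ≤ X →
      0.639 ^ m.choose ((m - 3) / 2) *
        ∑ᶠ D ∈ {D : 𝓞 K | Algebra.norm ℤ D ≤ X ∧ Cls D}, share (m := m) AdmA D ≤
      ∑ᶠ D ∈ {D : 𝓞 K | Algebra.norm ℤ D ≤ X ∧ Cls D},
        share (m := m) (fun a => AdmA a ∧ BB a) D := by
    refine ⟨max X₀ (max X₁ 1), fun X hXX => ?_⟩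
    have a1 : X₀ ≤ X := le_trans (le_max_left _ _) hXX
    have a2 : X₁ ≤ X := le_trans (le_trans (le_max_left _ _) (le_max_right _ _)) hXX
    have a3 : 1 ≤ X := le_trans (le_trans (le_max_right _ _) (le_max_right _ _)) hXX
    have hpos : (0 : ℝ) < ∑ S ∈ SS X, av m₁ S fun μ => CondM (RA m) μ S := by
      refine lt_of_lt_of_le ?_ (hlow X a1)
      have : (1 : ℝ) ≤ X := by exact_mod_cast a3
      positivity
    have h7 := hX1 X a2
    rw [lt_div_iff₀ hpos] at h7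
    rw [hadm X, ← hh]
    exact h7.le.trans (hbb X)
  refine ⟨⟨c, hc, X₀, fun X hX => by rw [hadm X]; exact hlow X hX⟩, hsec, ?_⟩
  -- Markov's inequality
  obtain ⟨X₂, hX2⟩ := hsec
  obtain ⟨D₀, hD₀⟩ := Pool.Agent.Y474.XK.t_CNT
  have hD1 := hD₀.one
  obtain ⟨p, hp⟩ : ∃ p : ℝ, p = 0.639 ^ m.choose ((m - 3) / 2) * c := ⟨_, rfl⟩
  have hp0 : 0 < p := by rw [hp]; positivity
  obtain ⟨q, hq⟩ : ∃ q : ℝ, q = p / (2 * D₀) := ⟨_, rfl⟩
  have hq0 : 0 < q := by rw [hq]; positivity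
  have hqp : q ≤ p / 2 := by
    rw [hq]
    exact div_le_div_of_nonneg_left hp0.le (by norm_num) (by linarith)
  refine ⟨q, hq0, max X₀ (max X₂ 1), fun X hXX => ?_⟩
  have a1 : X₀ ≤ X := le_trans (le_max_left _ _) hXX
  have a2 : X₂ ≤ X := le_trans (le_trans (le_max_left _ _) (le_max_right _ _)) hXX
  have a3 : 1 ≤ X := le_trans (le_trans (le_max_right _ _) (le_max_right _ _)) hXX
  have hXr : (0 : ℝ) ≤ X := Nat.cast_nonneg _
  obtain ⟨g, hg⟩ : ∃ g : Finset Ei → ℝ, g = fun S =>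
      share (m := m) (fun a : Fin m → 𝓞 K => AdmA a ∧ BB a) (j (∏ π ∈ S, π)) := ⟨_, rfl⟩
  have hsum : ∑ᶠ D ∈ {D : 𝓞 K | Algebra.norm ℤ D ≤ X ∧ Cls D},
        share (m := m) (fun a => AdmA a ∧ BB a) D = ∑ S ∈ SS X, g S := by
    rw [set_eq j hj X, finsum_mem_coe_finset, Finset.sum_image (inj_SS j X), hg]
  have hg1 : ∀ S ∈ SS X, g S ≤ 1 := by
    intro S hS
    rw [hg]
    show share _ _ ≤ 1
    rw [share_eq j m₁ (SS_Pq hS)]
    exact av_le_one _ _ _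
  have h1 : p * X ≤ ∑ S ∈ SS X, g S := by
    rw [← hsum]
    refine le_trans ?_ (hX2 X a2)
    rw [hp, mul_assoc, hadm X]
    exact mul_le_mul_of_nonneg_left (hlow X a1) (by positivity)
  have h2 : ∑ S ∈ SS X, g S ≤ (((SS X).filter fun S => q ≤ g S).card : ℝ) + q * ((SS X).card : ℝ) := by
    have h3 : ∑ S ∈ SS X, g S ≤ ∑ S ∈ SS X, ((if q ≤ g S then 1 else 0) + q) := by
      refine sum_le_sum fun S hS => ?_
      by_cases hqg : q ≤ g S
      · rw [if_pos hqg]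
        have := hg1 S hS
        linarith
      · rw [if_neg hqg]
        push Not at hqg
        linarith
    refine h3.trans (le_of_eq ?_)
    rw [sum_add_distrib, sum_boole, sum_const, nsmul_eq_mul, mul_comm q]
  have h4 : ((SS X).card : ℝ) ≤ D₀ * X := hD₀.all X a3
  have h5 : q * ((SS X).card : ℝ) ≤ p / 2 * X := by
    calc q * ((SS X).card : ℝ) ≤ q * (D₀ * X) := mul_le_mul_of_nonneg_left h4 hq0.le
      _ = p / 2 * X := by
        rw [hq]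
        field_simp
  have h6 : {D : 𝓞 K | Algebra.norm ℤ D ≤ X ∧ Cls D ∧
        q ≤ share (m := m) (fun a => AdmA a ∧ BB a) D} =
      ((((SS X).filter fun S => q ≤ g S).image fun S => j (∏ π ∈ S, π) : Finset (𝓞 K)) :
        Set (𝓞 K)) := by
    have h7 := set_eq j hj X
    ext D
    have h8 : (Algebra.norm ℤ D ≤ X ∧ Cls D) ↔ ∃ S ∈ SS X, j (∏ π ∈ S, π) = D := by
      have h9 := Set.ext_iff.1 h7 D
      rw [Finset.mem_coe, Finset.mem_image, Set.mem_ofPred_eq] at h9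
      exact h9
    rw [Finset.mem_coe, Finset.mem_image, Set.mem_ofPred_eq]
    constructor
    · rintro ⟨g1, g2, g3⟩
      obtain ⟨S, hS, rfl⟩ := h8.1 ⟨g1, g2⟩
      exact ⟨S, mem_filter.2 ⟨hS, by rw [hg]; exact g3⟩, rfl⟩
    · rintro ⟨S, hS, rfl⟩
      rw [mem_filter] at hS
      have g1 := h8.2 ⟨S, hS.1, rfl⟩
      refine ⟨g1.1, g1.2, ?_⟩
      have g2 := hS.2
      rw [hg] at g2
      exact g2
  have h10 : (({D : 𝓞 K | Algebra.norm ℤ D ≤ X ∧ Cls D ∧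
        q ≤ share (m := m) (fun a => AdmA a ∧ BB a) D}.ncard : ℕ) : ℝ) =
      (((SS X).filter fun S => q ≤ g S).card : ℝ) := by
    rw [h6, Set.ncard_coe_finset, Finset.card_image_of_injOn]
    intro S hS S' hS' hss
    rw [Finset.mem_coe, mem_filter] at hS hS'
    exact inj_SS j X (Finset.mem_coe.2 hS.1) (Finset.mem_coe.2 hS'.1) hss
  rw [h10]
  have h11 : q * X ≤ p / 2 * X := mul_le_mul_of_nonneg_right hqp hXr
  linarith

end Pool.Agent.H451.CubT
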